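import Mathlib

/-!
# Cauchy's theorem for the upper half-plane and the second quadrant
-/

open MeasureTheory Set Filter Topology

namespace Pool.Agent.P9749df

theorem hp_norm_sq_lower_re (z : ℂ) : z.re ^ 2 ≤ ‖z‖ ^ 2 := by
  have h := Complex.abs_re_le_norm z
  have := pow_le_pow_left₀ (abs_nonneg _) h 2
  rwa [sq_abs] at this

theorem hp_norm_sq_lower_im (z : ℂ) : z.im ^ 2 ≤ ‖z‖ ^ 2 := by
  have h := Complex.abs_im_le_norm z
  have := pow_le_pow_left₀ (abs_nonneg _) h 2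
  rwa [sq_abs] at this

theorem hp_C_nonneg (f : ℂ → ℂ) (C : ℝ)
    (hb : ∀ z : ℂ, 0 ≤ z.im → ‖f z‖ ≤ C / (1 + ‖z‖ ^ 2)) : 0 ≤ C := by
  have h := hb 0 (by simp)
  have h2 : 0 ≤ C / (1 + ‖(0:ℂ)‖ ^ 2) := le_trans (norm_nonneg _) h
  simpa using h2

theorem hp_bound_of_le (f : ℂ → ℂ) (C : ℝ)
    (hb : ∀ z : ℂ, 0 ≤ z.im → ‖f z‖ ≤ C / (1 + ‖z‖ ^ 2)) (z : ℂ) (hz : 0 ≤ z.im) (R : ℝ)
    (hR : R ^ 2 ≤ ‖z‖ ^ 2) : ‖f z‖ ≤ C / (1 + R ^ 2) := by
  have hC := hp_C_nonneg f C hb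
  refine (hb z hz).trans ?_
  apply div_le_div_of_nonneg_left hC (by positivity) (by linarith)

/-- the limit `R * (C / (1+R^2)) → 0`. -/
theorem hp_tendsto (C : ℝ) : Tendsto (fun R : ℝ => C / (1 + R ^ 2) * R) atTop (𝓝 0) := by
  have h1 : Tendsto (fun R : ℝ => |C| * R⁻¹) atTop (𝓝 0) := by
    simpa using tendsto_inv_atTop_zero.const_mul |C|
  refine squeeze_zero_norm' ?_ h1
  filter_upwards [eventually_gt_atTop (0:ℝ)] with R hR
  rw [norm_mul, norm_div, Real.norm_eq_abs, Real.norm_eq_abs, Real.norm_eq_abs, abs_of_pos hR,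
    abs_of_pos (by positivity : (0:ℝ) < 1 + R ^ 2), div_mul_eq_mul_div, div_le_iff₀ (by positivity)]
  have : |C| * R⁻¹ * (1 + R ^ 2) = |C| * R + |C| * R⁻¹ := by
    field_simp
    ring
  rw [this]
  have : 0 ≤ |C| * R⁻¹ := by positivity
  linarith

theorem hp_integrable_bound (C : ℝ) : Integrable (fun x : ℝ => C / (1 + x ^ 2)) := by
  have := integrable_inv_one_add_sq.const_mul C
  simpa [div_eq_mul_inv] using this

/-- horizontal line integrability -/
theorem hp_integrable_real (f : ℂ → ℂ) (C : ℝ) (hc : ContinuousOn f {z | 0 ≤ z.im})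
    (hb : ∀ z : ℂ, 0 ≤ z.im → ‖f z‖ ≤ C / (1 + ‖z‖ ^ 2)) :
    Integrable (fun x : ℝ => f x) := by
  have hcont : Continuous (fun x : ℝ => f x) := by
    rw [← continuousOn_univ]
    refine hc.comp (Complex.continuous_ofReal.continuousOn) ?_
    intro x _
    simp
  refine (hp_integrable_bound C).mono' hcont.aestronglyMeasurable (ae_of_all _ fun x => ?_)
  refine hp_bound_of_le f C hb x (by simp) x ?_
  simp

theorem hp_integrable_imag (f : ℂ → ℂ) (C : ℝ) (hc : ContinuousOn f {z | 0 ≤ z.im})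
    (hb : ∀ z : ℂ, 0 ≤ z.im → ‖f z‖ ≤ C / (1 + ‖z‖ ^ 2)) :
    IntegrableOn (fun y : ℝ => f (y * Complex.I)) (Ioi 0) := by
  have hcont : ContinuousOn (fun y : ℝ => f (y * Complex.I)) (Ioi 0) := by
    refine hc.comp (by fun_prop) ?_
    intro x hx
    simpa using le_of_lt hx
  refine Integrable.mono' (hp_integrable_bound C).integrableOn
    (hcont.aestronglyMeasurable measurableSet_Ioi) ?_
  filter_upwards [ae_restrict_mem measurableSet_Ioi] with y hy
  refine hp_bound_of_le f C hb _ (by simpa using le_of_lt hy) y ?_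
  simp

/-- the top side is small -/
theorem hp_top (f : ℂ → ℂ) (C : ℝ)
    (hb : ∀ z : ℂ, 0 ≤ z.im → ‖f z‖ ≤ C / (1 + ‖z‖ ^ 2)) (a b R : ℝ) (hR : 0 ≤ R) :
    ‖∫ x in a..b, f (x + R * Complex.I)‖ ≤ C / (1 + R ^ 2) * |b - a| := by
  refine intervalIntegral.norm_integral_le_of_norm_le_const fun x _ => ?_
  refine hp_bound_of_le f C hb _ (by simpa using hR) R ?_
  simpa using hp_norm_sq_lower_im ((x : ℂ) + R * Complex.I)

theorem hp_side (f : ℂ → ℂ) (C : ℝ)
    (hb : ∀ z : ℂ, 0 ≤ z.im → ‖f z‖ ≤ C / (1 + ‖z‖ ^ 2)) (a R : ℝ) (hR : 0 ≤ R)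
    (ha : a ^ 2 = R ^ 2) :
    ‖∫ y in (0:ℝ)..R, f (a + y * Complex.I)‖ ≤ C / (1 + R ^ 2) * |R - 0| := by
  refine intervalIntegral.norm_integral_le_of_norm_le_const fun y hy => ?_
  rw [uIoc_of_le hR] at hy
  refine hp_bound_of_le f C hb _ (by simpa using hy.1.le) R ?_
  rw [← ha]
  simpa using hp_norm_sq_lower_re ((a : ℂ) + y * Complex.I)

theorem hp_rect (f : ℂ → ℂ) (hc : ContinuousOn f {z | 0 ≤ z.im})
    (hd : DifferentiableOn ℂ f {z | 0 < z.im}) (a b R : ℝ) (hR : 0 ≤ R) :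
    (∫ x in a..b, f x) - (∫ x in a..b, f (x + R * Complex.I)) +
      Complex.I • (∫ y in (0:ℝ)..R, f (b + y * Complex.I)) -
      Complex.I • (∫ y in (0:ℝ)..R, f (a + y * Complex.I)) = 0 := by
  have h := Complex.integral_boundary_rect_eq_zero_of_continuousOn_of_differentiableOn f
    (⟨a, 0⟩ : ℂ) (⟨b, R⟩ : ℂ) ?_ ?_
  · simpa using h
  · refine hc.mono ?_
    intro z hz
    have := hz.2
    simp only [uIcc_of_le hR, mem_preimage, mem_Icc] at this
    exact this.1
  · refine hd.mono ?_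
    intro z hz
    have := hz.2
    simp only [min_eq_left hR, mem_preimage, mem_Ioo] at this
    exact this.1

/-- Cauchy's theorem in the upper half-plane.

PROOF. `Complex.integral_boundary_rect_eq_zero_of_continuousOn_of_differentiableOn` on
`[-R, R] × [0, R]`; the three other sides are at most `2R * C/(1+R^2)` and
`R * C/(1+R^2)` (twice) in norm, so they tend to 0 as `R → ∞`; `f` is integrable on `ℝ`
(dominated by `C/(1+x^2)`), so `∫ x in -R..R, f x → ∫ x, f x`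
(`MeasureTheory.intervalIntegral_tendsto_integral`). -/
theorem halfPlane_integral_eq_zero (f : ℂ → ℂ) (C : ℝ) (hc : ContinuousOn f {z | 0 ≤ z.im})
    (hd : DifferentiableOn ℂ f {z | 0 < z.im})
    (hb : ∀ z : ℂ, 0 ≤ z.im → ‖f z‖ ≤ C / (1 + ‖z‖ ^ 2)) :
    ∫ x : ℝ, f x = 0 := by
  have hint := hp_integrable_real f C hc hb
  have h1 : Tendsto (fun R : ℝ => ∫ x in (-R)..R, f x) atTop (𝓝 (∫ x : ℝ, f x)) :=
    intervalIntegral_tendsto_integral hint tendsto_neg_atTop_atBot tendsto_id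
  have h2 : Tendsto (fun R : ℝ => ∫ x in (-R)..R, f x) atTop (𝓝 0) := by
    have hlim : Tendsto (fun R : ℝ => 4 * (C / (1 + R ^ 2) * R)) atTop (𝓝 0) := by
      simpa using (hp_tendsto C).const_mul 4
    refine squeeze_zero_norm' ?_ hlim
    filter_upwards [eventually_ge_atTop (0:ℝ)] with R hR
    have hr := hp_rect f hc hd (-R) R R hR
    have ht := hp_top f C hb (-R) R R hR
    have hs1 := hp_side f C hb R R hR rfl
    have hs2 := hp_side f C hb (-R) R hR (by ring)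
    have hrew : (∫ x in (-R)..R, f x) = (∫ x in (-R)..R, f (x + R * Complex.I)) -
      Complex.I • (∫ y in (0:ℝ)..R, f (R + y * Complex.I)) +
      Complex.I • (∫ y in (0:ℝ)..R, f ((-R : ℝ) + y * Complex.I)) := by
      linear_combination (norm := (simp only [smul_eq_mul]; ring)) hr
    rw [hrew]
    have e1 : |R - -R| = 2 * R := by
      rw [abs_of_nonneg (by linarith)]; ring
    have e2 : |R - 0| = R := by
      rw [abs_of_nonneg (by linarith)]; ring
    rw [e1] at ht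
    rw [e2] at hs1 hs2
    calc _ ≤ ‖(∫ x in (-R)..R, f (x + R * Complex.I)) -
      Complex.I • (∫ y in (0:ℝ)..R, f (R + y * Complex.I))‖ +
      ‖Complex.I • (∫ y in (0:ℝ)..R, f ((-R : ℝ) + y * Complex.I))‖ := norm_add_le _ _
      _ ≤ ‖∫ x in (-R)..R, f (x + R * Complex.I)‖ +
      ‖Complex.I • (∫ y in (0:ℝ)..R, f (R + y * Complex.I))‖ +
      ‖Complex.I • (∫ y in (0:ℝ)..R, f ((-R : ℝ) + y * Complex.I))‖ := by
        gcongr; exact norm_sub_le _ _
      _ ≤ 4 * (C / (1 + R ^ 2) * R) := by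
        rw [norm_smul, norm_smul, Complex.norm_I, one_mul, one_mul]
        linarith
  exact tendsto_nhds_unique h1 h2

/-- Cauchy's theorem in the second quadrant (rectangle `[-R, 0] × [0, R]`). -/
theorem quadrant_integral (f : ℂ → ℂ) (C : ℝ) (hc : ContinuousOn f {z | 0 ≤ z.im})
    (hd : DifferentiableOn ℂ f {z | 0 < z.im})
    (hb : ∀ z : ℂ, 0 ≤ z.im → ‖f z‖ ≤ C / (1 + ‖z‖ ^ 2)) :
    ∫ x in Iic (0 : ℝ), f x = -Complex.I * ∫ y in Ioi (0 : ℝ), f (y * Complex.I) := by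
  have hint := hp_integrable_real f C hc hb
  have hint2 := hp_integrable_imag f C hc hb
  have h1 : Tendsto (fun R : ℝ => ∫ x in (-R)..0, f x) atTop (𝓝 (∫ x in Iic (0 : ℝ), f x)) :=
    intervalIntegral_tendsto_integral_Iic 0 hint.integrableOn tendsto_neg_atTop_atBot
  have h3 : Tendsto (fun R : ℝ => ∫ y in (0:ℝ)..R, f (y * Complex.I)) atTop
      (𝓝 (∫ y in Ioi (0 : ℝ), f (y * Complex.I))) :=
    intervalIntegral_tendsto_integral_Ioi 0 hint2 tendsto_id
  have h4 : Tendsto (fun R : ℝ => (∫ x in (-R)..0, f x) +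
      Complex.I * ∫ y in (0:ℝ)..R, f (y * Complex.I)) atTop (𝓝 0) := by
    have hlim : Tendsto (fun R : ℝ => 2 * (C / (1 + R ^ 2) * R)) atTop (𝓝 0) := by
      simpa using (hp_tendsto C).const_mul 2
    refine squeeze_zero_norm' ?_ hlim
    filter_upwards [eventually_ge_atTop (0:ℝ)] with R hR
    have hr := hp_rect f hc hd (-R) 0 R hR
    have ht := hp_top f C hb (-R) 0 R hR
    have hs2 := hp_side f C hb (-R) R hR (by ring)
    have hrew : (∫ x in (-R)..0, f x) + Complex.I * ∫ y in (0:ℝ)..R, f (y * Complex.I) =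
      (∫ x in (-R)..0, f (x + R * Complex.I)) +
      Complex.I • (∫ y in (0:ℝ)..R, f ((-R : ℝ) + y * Complex.I)) := by
      simp only [Complex.ofReal_zero, zero_add] at hr
      linear_combination (norm := (simp only [smul_eq_mul]; ring)) hr
    rw [hrew]
    have e1 : |0 - -R| = R := by
      rw [abs_of_nonneg (by linarith)]; ring
    have e2 : |R - 0| = R := by
      rw [abs_of_nonneg (by linarith)]; ring
    rw [e1] at ht
    rw [e2] at hs2
    calc _ ≤ ‖(∫ x in (-R)..0, f (x + R * Complex.I))‖ +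
      ‖Complex.I • (∫ y in (0:ℝ)..R, f ((-R : ℝ) + y * Complex.I))‖ := norm_add_le _ _
      _ ≤ 2 * (C / (1 + R ^ 2) * R) := by
        rw [norm_smul, Complex.norm_I, one_mul]
        linarith
  have h5 := h1.add (h3.const_mul Complex.I)
  have h6 := tendsto_nhds_unique h5 h4
  linear_combination h6

end Pool.Agent.P9749df
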