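import Pool.Agent.Lib.P9749df.Basic
import Pool.Agent.Lib.P9749df.HalfPlane

/-!
# The functions `A_K(q) = (q / (q + i)^2)^K`
-/

open MeasureTheory Set

namespace Pool.Agent.P9749df

/-- `A_K` is holomorphic off `-i`. -/
theorem AK_differentiableAt (K : ℕ) (z : ℂ) (hz : z ≠ -Complex.I) :
    DifferentiableAt ℂ (AK K) z := by
  have h : z + Complex.I ≠ 0 := fun h => hz (eq_neg_of_add_eq_zero_left h)
  unfold AK
  refine DifferentiableAt.pow ?_ K
  refine DifferentiableAt.div differentiableAt_id ?_ (pow_ne_zero 2 h)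
  exact (differentiableAt_id.add_const Complex.I).pow 2

theorem norm_add_I_sq (z : ℂ) : ‖z + Complex.I‖ ^ 2 = ‖z‖ ^ 2 + 2 * z.im + 1 := by
  rw [Complex.sq_norm, Complex.sq_norm, Complex.normSq_apply, Complex.normSq_apply]
  simp only [Complex.add_re, Complex.I_re, Complex.add_im, Complex.I_im, add_zero]
  ring

theorem AK_norm_eq (K : ℕ) (z : ℂ) : ‖AK K z‖ = (‖z‖ / (‖z‖ ^ 2 + 2 * z.im + 1)) ^ K := by
  unfold AK
  rw [norm_pow, norm_div, norm_pow, norm_add_I_sq]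

theorem AK_norm_real (K : ℕ) (x : ℝ) : ‖AK K (x : ℂ)‖ = (|x| / (1 + x ^ 2)) ^ K := by
  rw [AK_norm_eq, Complex.norm_real, Complex.ofReal_im, Real.norm_eq_abs, sq_abs]
  congr 2
  ring

theorem base_sq_le (r : ℝ) : (r / (1 + r ^ 2)) ^ 2 ≤ 1 / (1 + r ^ 2) := by
  have h : 0 < 1 + r ^ 2 := by positivity
  rw [div_pow, div_le_div_iff₀ (by positivity) h]
  nlinarith [sq_nonneg r]

theorem base_le_one {r : ℝ} : r / (1 + r ^ 2) ≤ 1 := by
  have h : 0 < 1 + r ^ 2 := by positivity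
  rw [div_le_one h]
  nlinarith [sq_nonneg (r - 1)]

/-- `|A_K(z)| ≤ 1/(1+|z|^2)` for `Im z ≥ 0`, `K ≥ 2`.

PROOF. `|z + i|^2 = |z|^2 + 2 Im z + 1 ≥ 1 + |z|^2`, so `|z|/|z+i|^2 ≤ |z|/(1+|z|^2) ≤ 1/2`, and
`(|z|/(1+|z|^2))^2 ≤ 1/(1+|z|^2)`. -/
theorem AK_norm_le (K : ℕ) (hK : 2 ≤ K) (z : ℂ) (hz : 0 ≤ z.im) :
    ‖AK K z‖ ≤ 1 / (1 + ‖z‖ ^ 2) := by
  rw [AK_norm_eq]
  have hr : 0 ≤ ‖z‖ := norm_nonneg z
  have h1 : ‖z‖ / (‖z‖ ^ 2 + 2 * z.im + 1) ≤ ‖z‖ / (1 + ‖z‖ ^ 2) := by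
    apply div_le_div_of_nonneg_left hr (by positivity)
    linarith
  have h0 : 0 ≤ ‖z‖ / (‖z‖ ^ 2 + 2 * z.im + 1) := by positivity
  have h2 : 0 ≤ ‖z‖ / (1 + ‖z‖ ^ 2) := by positivity
  calc (‖z‖ / (‖z‖ ^ 2 + 2 * z.im + 1)) ^ K ≤ (‖z‖ / (1 + ‖z‖ ^ 2)) ^ K :=
        pow_le_pow_left₀ h0 h1 K
    _ ≤ (‖z‖ / (1 + ‖z‖ ^ 2)) ^ 2 := pow_le_pow_of_le_one h2 base_le_one hK
    _ ≤ 1 / (1 + ‖z‖ ^ 2) := base_sq_le _

theorem ne_neg_I_of_im {z : ℂ} (hz : 0 ≤ z.im) : z ≠ -Complex.I := by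
  intro h
  rw [h] at hz
  simp only [Complex.neg_im, Complex.I_im] at hz
  linarith

theorem AK_continuous_real (K : ℕ) : Continuous (fun x : ℝ => AK K (x : ℂ)) := by
  rw [continuous_iff_continuousAt]
  intro x
  have h : DifferentiableAt ℂ (AK K) (x : ℂ) :=
    AK_differentiableAt K _ (ne_neg_I_of_im (by simp))
  exact h.continuousAt.comp (f := fun x : ℝ => (x : ℂ)) Complex.continuous_ofReal.continuousAt

theorem AK_integrable (K : ℕ) (hK : 2 ≤ K) : Integrable (fun x : ℝ => AK K (x : ℂ)) := by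
  refine Integrable.mono' integrable_inv_one_add_sq
    (AK_continuous_real K).aestronglyMeasurable (Filter.Eventually.of_forall fun x => ?_)
  have h := AK_norm_le K hK (x : ℂ) (by simp)
  rw [Complex.norm_real, Real.norm_eq_abs, sq_abs, one_div] at h
  exact h

theorem AK_integral_norm_le (K : ℕ) (hK : 2 ≤ K) : ∫ x : ℝ, ‖AK K (x : ℂ)‖ ≤ Real.pi := by
  rw [← integral_univ_inv_one_add_sq]
  refine integral_mono (AK_integrable K hK).norm integrable_inv_one_add_sq fun x => ?_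
  have h := AK_norm_le K hK (x : ℂ) (by simp)
  rw [Complex.norm_real, Real.norm_eq_abs, sq_abs, one_div] at h
  exact h

theorem AK_imag (K : ℕ) {y : ℝ} (hy : 0 < y) :
    AK K (y * Complex.I) = (-Complex.I) ^ K * (((y / (1 + y) ^ 2) ^ K : ℝ) : ℂ) := by
  unfold AK
  rw [Complex.ofReal_pow, ← mul_pow]
  congr 1
  have h1 : ((1 : ℂ) + y) ≠ 0 := by
    have : ((1 + y : ℝ) : ℂ) ≠ 0 := by
      rw [Complex.ofReal_ne_zero]; linarith
    push_cast at this
    exact this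
  have h2 : ((y : ℂ) * Complex.I + Complex.I) ^ 2 = -(1 + y) ^ 2 := by
    have : ((y : ℂ) * Complex.I + Complex.I) ^ 2 = Complex.I ^ 2 * (1 + y) ^ 2 := by ring
    rw [this, Complex.I_sq]
    ring
  rw [h2]
  push_cast
  field_simp

theorem left_integral_ge (K : ℕ) (hK : 2 ≤ K) :
    1 / 2 * (6 / 25 : ℝ) ^ K ≤ ‖∫ x in Iic (0 : ℝ), AK K (x : ℂ)‖ := by
  have hq := quadrant_integral (AK K) 1 (fun z hz =>
      ((AK_differentiableAt K z (ne_neg_I_of_im hz)).continuousAt).continuousWithinAt)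
    (fun z hz => (AK_differentiableAt K z (ne_neg_I_of_im (le_of_lt hz))).differentiableWithinAt)
    (fun z hz => AK_norm_le K hK z hz)
  rw [hq]
  have h1 : ∫ y in Ioi (0 : ℝ), AK K (y * Complex.I)
      = (-Complex.I) ^ K * ((∫ y in Ioi (0 : ℝ), (y / (1 + y) ^ 2) ^ K : ℝ) : ℂ) := by
    rw [← integral_complex_ofReal, ← integral_const_mul]
    refine setIntegral_congr_fun measurableSet_Ioi fun y hy => ?_
    exact AK_imag K hy
  rw [h1, norm_mul, norm_mul, norm_neg, Complex.norm_I, one_mul, norm_pow, norm_neg,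
    Complex.norm_I, one_pow, one_mul, Complex.norm_real]
  have hint : IntegrableOn (fun y : ℝ => (y / (1 + y) ^ 2) ^ K) (Ioi 0) := by
    refine Integrable.mono' (g := fun y : ℝ => (1 + y ^ 2)⁻¹)
      integrable_inv_one_add_sq.integrableOn ?_ ?_
    · refine ContinuousOn.aestronglyMeasurable ?_ measurableSet_Ioi
      refine ContinuousOn.pow (ContinuousOn.div continuousOn_id ?_ ?_) K
      · fun_prop
      · intro y hy
        have : 0 < 1 + y := by linarith [mem_Ioi.1 hy]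
        positivity
    · refine (ae_restrict_iff' measurableSet_Ioi).2 (Filter.Eventually.of_forall fun y hy => ?_)
      have hy0 : 0 < y := hy
      have h2 : ‖AK K (y * Complex.I)‖ = (y / (1 + y) ^ 2) ^ K := by
        rw [AK_imag K hy0, norm_mul, norm_pow, norm_neg, Complex.norm_I, one_pow, one_mul,
          Complex.norm_real, Real.norm_of_nonneg (by positivity)]
      have h3 := AK_norm_le K hK ((y : ℂ) * Complex.I) (by simpa using hy0.le)
      rw [h2, norm_mul, Complex.norm_I, mul_one, Complex.norm_real, Real.norm_eq_abs, sq_abs,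
        one_div] at h3
      rw [Real.norm_of_nonneg (by positivity)]
      exact h3
  have hnn : ∀ y ∈ Ioi (0 : ℝ), 0 ≤ (y / (1 + y) ^ 2) ^ K := fun y hy => by
    have : (0:ℝ) < y := hy
    positivity
  have h2 : ∫ y in Ioc (1 : ℝ) (3 / 2), (6 / 25 : ℝ) ^ K ≤
      ∫ y in Ioc (1 : ℝ) (3 / 2), (y / (1 + y) ^ 2) ^ K := by
    refine setIntegral_mono_on ?_ ?_ measurableSet_Ioc ?_
    · exact integrableOn_const (by simp) 
    · exact hint.mono_set fun y hy => lt_trans one_pos hy.1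
    · intro y hy
      refine pow_le_pow_left₀ (by norm_num) ?_ K
      have hy1 : 1 < y := hy.1
      have hy2 : y ≤ 3 / 2 := hy.2
      have : 0 < (1 + y) ^ 2 := by positivity
      rw [div_le_div_iff₀ (by norm_num) this]
      nlinarith
  have h3 : ∫ y in Ioc (1 : ℝ) (3 / 2), (y / (1 + y) ^ 2) ^ K ≤
      ∫ y in Ioi (0 : ℝ), (y / (1 + y) ^ 2) ^ K := by
    refine setIntegral_mono_set hint ?_ ?_
    · exact (ae_restrict_iff' measurableSet_Ioi).2 (Filter.Eventually.of_forall hnn)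
    · exact (show Ioc (1 : ℝ) (3 / 2) ⊆ Ioi 0 from
        fun y hy => lt_trans one_pos hy.1).eventuallyLE
  have h4 : ∫ _y in Ioc (1 : ℝ) (3 / 2), (6 / 25 : ℝ) ^ K = 1 / 2 * (6 / 25 : ℝ) ^ K := by
    rw [setIntegral_const]
    simp only [Measure.real, Real.volume_Ioc, smul_eq_mul]
    rw [ENNReal.toReal_ofReal (by norm_num)]
    norm_num
  have h5 : 0 ≤ ∫ y in Ioi (0 : ℝ), (y / (1 + y) ^ 2) ^ K :=
    setIntegral_nonneg measurableSet_Ioi hnn
  rw [Real.norm_of_nonneg h5, ← h4]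
  exact h2.trans h3

theorem measurableSet_restSet : MeasurableSet restSet := by
  unfold restSet
  have h1 : MeasurableSet {x : ℝ | |x| < 1 / 4} := measurableSet_lt (by fun_prop) measurable_const
  have h2 : MeasurableSet {x : ℝ | 4 < |x|} := measurableSet_lt measurable_const (by fun_prop)
  exact h1.union h2

theorem rest_integral_le (m : ℕ) :
    ∫ x in restSet, ‖AK (m + 2) (x : ℂ)‖ ≤ Real.pi * (4 / 17 : ℝ) ^ m := by
  have h1 : ∫ x in restSet, ‖AK (m + 2) (x : ℂ)‖ ≤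
      ∫ x in restSet, (4 / 17 : ℝ) ^ m * (1 + x ^ 2)⁻¹ := by
    refine setIntegral_mono_on (AK_integrable (m + 2) (by omega)).norm.integrableOn
      (integrable_inv_one_add_sq.const_mul _).integrableOn measurableSet_restSet ?_
    intro x hx
    rw [AK_norm_real, pow_add]
    have h0 : 0 < 1 + x ^ 2 := by positivity
    have h2 : |x| / (1 + x ^ 2) ≤ 4 / 17 := by
      rw [div_le_div_iff₀ h0 (by norm_num)]
      have hx' : |x| < 1 / 4 ∨ 4 < |x| := hx
      have hsq : x ^ 2 = |x| ^ 2 := (sq_abs x).symm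
      rw [hsq]
      rcases hx' with h | h
      · nlinarith [mul_nonneg (abs_nonneg x) (abs_nonneg x), abs_nonneg x]
      · nlinarith
    have h3 : (|x| / (1 + x ^ 2)) ^ 2 ≤ (1 + x ^ 2)⁻¹ := by
      have := base_sq_le |x|
      rw [sq_abs, one_div] at this
      exact this
    exact mul_le_mul (pow_le_pow_left₀ (by positivity) h2 m) h3 (by positivity) (by positivity)
  refine h1.trans ?_
  have h4 : ∫ x in restSet, (4 / 17 : ℝ) ^ m * (1 + x ^ 2)⁻¹ ≤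
      ∫ x : ℝ, (4 / 17 : ℝ) ^ m * (1 + x ^ 2)⁻¹ := by
    refine setIntegral_le_integral (integrable_inv_one_add_sq.const_mul _) ?_
    exact Filter.Eventually.of_forall fun x => by positivity
  refine h4.trans (le_of_eq ?_)
  rw [integral_const_mul, integral_univ_inv_one_add_sq, mul_comm]

/-- The left half of the integral is much bigger than the integral over the rest set.

PROOF. By `quadrant_integral`, `‖∫_{Iic 0} A_K‖ = ‖∫_{y > 0} A_K(iy) dy‖`, and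
`A_K(iy) = (-i)^K (y/(1+y)^2)^K` has constant phase, so this is
`∫_{y>0} (y/(1+y)^2)^K dy ≥ ∫_1^{3/2} ≥ (1/2) (6/25)^K` (`y/(1+y)^2` is decreasing for `y ≥ 1`).
On the rest set `|A_K(x)| = (|x|/(1+x^2))^K ≤ (4/17)^(K-2) (|x|/(1+x^2))^2
≤ (4/17)^(K-2) / (1+x^2)`, whose integral is `≤ π (4/17)^(K-2)`. Since `(6/25)/(4/17) = 51/50 > 1`,
`K → ∞` gives the claim. -/
theorem AK_choice (Λ : ℝ) : ∃ K : ℕ, 2 ≤ K ∧
    Λ * ∫ x in restSet, ‖AK K (x : ℂ)‖ < ‖∫ x in Iic (0 : ℝ), AK K (x : ℂ)‖ := by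
  obtain ⟨m, hm⟩ := pow_unbounded_of_one_lt (2 * |Λ| * Real.pi * (25 / 6) ^ 2)
    (by norm_num : (1:ℝ) < 51 / 50)
  refine ⟨m + 2, by omega, ?_⟩
  have h1 := left_integral_ge (m + 2) (by omega)
  have h2 := rest_integral_le m
  have h0 : 0 ≤ ∫ x in restSet, ‖AK (m + 2) (x : ℂ)‖ :=
    setIntegral_nonneg measurableSet_restSet fun x _ => norm_nonneg _
  have h3 : Λ * ∫ x in restSet, ‖AK (m + 2) (x : ℂ)‖ ≤ |Λ| * (Real.pi * (4 / 17 : ℝ) ^ m) := by
    calc Λ * ∫ x in restSet, ‖AK (m + 2) (x : ℂ)‖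
        ≤ |Λ| * ∫ x in restSet, ‖AK (m + 2) (x : ℂ)‖ :=
          mul_le_mul_of_nonneg_right (le_abs_self Λ) h0
      _ ≤ _ := mul_le_mul_of_nonneg_left h2 (abs_nonneg Λ)
  refine lt_of_le_of_lt h3 (lt_of_lt_of_le ?_ h1)
  have h4 : (6 / 25 : ℝ) ^ (m + 2) = (4 / 17 : ℝ) ^ m * (51 / 50) ^ m * (6 / 25) ^ 2 := by
    rw [pow_add, ← mul_pow]
    norm_num
  rw [h4]
  have h5 : (0:ℝ) < (4 / 17 : ℝ) ^ m := by positivity
  have h6 : |Λ| * Real.pi < 1 / 2 * (51 / 50 : ℝ) ^ m * (6 / 25) ^ 2 := by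
    have : 2 * |Λ| * Real.pi * (25 / 6) ^ 2 * (6 / 25) ^ 2 < (51 / 50 : ℝ) ^ m * (6 / 25) ^ 2 :=
      mul_lt_mul_of_pos_right hm (by norm_num)
    have e : 2 * |Λ| * Real.pi * (25 / 6 : ℝ) ^ 2 * (6 / 25) ^ 2 = 2 * (|Λ| * Real.pi) := by
      ring
    rw [e] at this
    linarith
  calc |Λ| * (Real.pi * (4 / 17 : ℝ) ^ m) = (4 / 17 : ℝ) ^ m * (|Λ| * Real.pi) := by ring
    _ < (4 / 17 : ℝ) ^ m * (1 / 2 * (51 / 50 : ℝ) ^ m * (6 / 25) ^ 2) :=
        mul_lt_mul_of_pos_left h6 h5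
    _ = _ := by ring

end Pool.Agent.P9749df
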