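import Pool.Agent.Lib.P9749df.Basic

/-!
# The shear change of variables along the null rays of slope `a`
-/

open MeasureTheory Set

namespace Pool.Agent.P9749df

/-- `(q, t, l) ↦ (q, t + a q, l + 2 a t + a^2 q)`. -/
def shear (a : ℝ) (Y : R3) : R3 :=
  (Y.1, Y.2.1 + a * Y.1, Y.2.2 + (2 * a * Y.2.1 + a ^ 2 * Y.1))

theorem linR_shear (a : ℝ) (Y : R3) : linR a (shear a Y) = Y.2.2 := by
  simp only [linR, shear]; ring

theorem tr_shear (a b : ℝ) (Y : R3) : (shear a Y).2.1 - a * (shear a Y).1 - b = Y.2.1 - b := by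
  simp only [shear]; ring

theorem continuous_shear (a : ℝ) : Continuous (shear a) := by
  unfold shear
  fun_prop

/-- PROOF. Two applications of `MeasureTheory.MeasurePreserving.skew_product` with fibre maps
translations (`measurePreserving_add_right`). -/
theorem shear_measurePreserving (a : ℝ) :
    MeasurePreserving (shear a) (volume : Measure R3) volume := by
  have h2 : ∀ q : ℝ, MeasurePreserving
      (fun p : ℝ × ℝ => (p.1 + a * q, p.2 + (2 * a * p.1 + a ^ 2 * q)))
      (volume : Measure (ℝ × ℝ)) volume := by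
    intro q
    have h := MeasurePreserving.skew_product (μa := (volume : Measure ℝ))
      (μb := (volume : Measure ℝ)) (μc := (volume : Measure ℝ)) (μd := (volume : Measure ℝ))
      (f := fun t : ℝ => t + a * q) (g := fun t l : ℝ => l + (2 * a * t + a ^ 2 * q))
      (measurePreserving_add_right volume (a * q))
      (by unfold Function.uncurry; fun_prop)
      (Filter.Eventually.of_forall fun t =>
        (measurePreserving_add_right volume (2 * a * t + a ^ 2 * q)).map_eq)
    exact h
  have h := MeasurePreserving.skew_product (μa := (volume : Measure ℝ))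
      (μb := (volume : Measure ℝ)) (μc := (volume : Measure (ℝ × ℝ)))
      (μd := (volume : Measure (ℝ × ℝ)))
      (f := fun q : ℝ => q)
      (g := fun (q : ℝ) (p : ℝ × ℝ) => (p.1 + a * q, p.2 + (2 * a * p.1 + a ^ 2 * q)))
      (MeasurePreserving.id volume)
      (by unfold Function.uncurry; fun_prop)
      (Filter.Eventually.of_forall fun q => (h2 q).map_eq)
  exact h

theorem shear_injective (a : ℝ) : Function.Injective (shear a) := by
  intro Y Z h
  simp only [shear, Prod.mk.injEq] at h
  obtain ⟨h1, h2, h3⟩ := h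
  rw [h1] at h2 h3
  have h2' : Y.2.1 = Z.2.1 := by linarith
  rw [h2'] at h3
  have h3' : Y.2.2 = Z.2.2 := by linarith
  exact Prod.ext h1 (Prod.ext h2' h3')

theorem shear_measurableEmbedding (a : ℝ) : MeasurableEmbedding (shear a) :=
  (continuous_shear a).measurableEmbedding (shear_injective a)

theorem integral_shear (a : ℝ) (f : R3 → ℂ) : ∫ X, f X = ∫ Y, f (shear a Y) :=
  ((shear_measurePreserving a).integral_comp (shear_measurableEmbedding a) f).symm

/-- `G` in shear coordinates is a product of a function of `q`, an indicator of `t` and an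
indicator of `l` times a phase. -/
theorem G_shear (K : ℕ) (N a b w : ℝ) (Y : R3) :
    G K N a b w (shear a Y) = AK K (Y.1 : ℂ) *
      ((Icc (b - w / 16) (b + w / 16)).indicator (fun _ => (1 : ℂ)) Y.2.1 *
        (Icc (0 : ℝ) 1).indicator (fun l : ℝ => Complex.exp (-(Complex.I * N * l))) Y.2.2) := by
  unfold G
  rw [linR_shear, tr_shear]
  have h1 : (shear a Y).1 = Y.1 := rfl
  rw [h1]
  have h3 : |Y.2.1 - b| ≤ w / 16 ↔ Y.2.1 ∈ Icc (b - w / 16) (b + w / 16) := by
    rw [abs_le, mem_Icc]
    constructor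
    · rintro ⟨h, h'⟩; constructor <;> linarith
    · rintro ⟨h, h'⟩; constructor <;> linarith
  by_cases hl : Y.2.2 ∈ Icc (0 : ℝ) 1
  · by_cases ht : Y.2.1 ∈ Icc (b - w / 16) (b + w / 16)
    · rw [if_pos ⟨hl.1, hl.2, h3.2 ht⟩, indicator_of_mem hl, indicator_of_mem ht, one_mul]
    · rw [if_neg (fun h => ht (h3.1 h.2.2)), indicator_of_notMem ht]
      simp
  · rw [if_neg (fun h => hl ⟨h.1, h.2.1⟩), indicator_of_notMem hl]
    simp

theorem norm_AK_le (K : ℕ) (hK : 2 ≤ K) (x : ℝ) : ‖AK K (x : ℂ)‖ ≤ (1 + x ^ 2)⁻¹ := by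
  unfold AK
  have hn : ‖(x : ℂ) + Complex.I‖ ^ 2 = 1 + x ^ 2 := by
    rw [← Complex.normSq_eq_norm_sq, Complex.normSq_apply]
    simp
    ring
  have hpos : 0 < 1 + x ^ 2 := by positivity
  rw [norm_pow, norm_div, norm_pow, hn, Complex.norm_real, Real.norm_eq_abs]
  have hle : |x| / (1 + x ^ 2) ≤ 1 := by
    rw [div_le_one hpos]
    nlinarith [sq_abs x, abs_nonneg x, sq_nonneg (|x| - 1)]
  have h0 : 0 ≤ |x| / (1 + x ^ 2) := by positivity
  calc (|x| / (1 + x ^ 2)) ^ K ≤ (|x| / (1 + x ^ 2)) ^ 2 := pow_le_pow_of_le_one h0 hle hK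
    _ = x ^ 2 / (1 + x ^ 2) * (1 + x ^ 2)⁻¹ := by
        rw [div_pow, sq_abs]; field_simp
    _ ≤ 1 * (1 + x ^ 2)⁻¹ := by
        apply mul_le_mul_of_nonneg_right _ (by positivity)
        rw [div_le_one hpos]; linarith
    _ = (1 + x ^ 2)⁻¹ := one_mul _

theorem AK_integrable (K : ℕ) (hK : 2 ≤ K) : Integrable (fun x : ℝ => AK K (x : ℂ)) := by
  have hne : ∀ x : ℝ, (x : ℂ) + Complex.I ≠ 0 := by
    intro x h
    have := congrArg Complex.im h
    simp at this
  have hc : Continuous (fun x : ℝ => AK K (x : ℂ)) := by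
    unfold AK
    apply Continuous.pow
    apply Continuous.div
    · fun_prop
    · fun_prop
    · intro x
      exact pow_ne_zero 2 (hne x)
  exact integrable_inv_one_add_sq.mono' hc.aestronglyMeasurable
    (Filter.Eventually.of_forall fun x => norm_AK_le K hK x)

/-- PROOF. Product of integrable functions (`Integrable.mul_prod` / `Integrable.prod_mul`),
transported by `shear_measurePreserving`. -/
theorem G_integrable (K : ℕ) (hK : 2 ≤ K) (N a b w : ℝ) : Integrable (G K N a b w) := by
  rw [← (shear_measurePreserving a).integrable_comp_emb (shear_measurableEmbedding a)]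
  have h1 : Integrable (fun t : ℝ => (Icc (b - w / 16) (b + w / 16)).indicator
      (fun _ => (1 : ℂ)) t) := by
    rw [integrable_indicator_iff measurableSet_Icc]
    exact (continuous_const (y := (1 : ℂ))).integrableOn_Icc
  have h2 : Integrable (fun l : ℝ => (Icc (0 : ℝ) 1).indicator
      (fun l : ℝ => Complex.exp (-(Complex.I * N * l))) l) := by
    rw [integrable_indicator_iff measurableSet_Icc]
    exact Continuous.integrableOn_Icc (by fun_prop)
  have h3 := (AK_integrable K hK).mul_prod (h1.mul_prod h2)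
  refine h3.congr (Filter.Eventually.of_forall fun Y => ?_)
  simp only [Function.comp]
  rw [G_shear]

end Pool.Agent.P9749df
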