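import Pool.Agent.Lib.P9749df.Cayley
import Pool.Agent.Lib.P9749df.Shear
import Pool.Agent.Lib.P9749df.AKint

/-!
# The measures `G dX` annihilate holomorphic functions
-/

open MeasureTheory Set

namespace Pool.Agent.P9749df

/-- Points of a complexified null ray: for `Im q ≥ 0` the matrix with entries
`(q, t + a q, l + 2 a t + a^2 q)` is in the closed tube. -/
theorem ray_mem (a t l : ℝ) (q : ℂ) (hq : 0 ≤ q.im) :
    ((q, (t : ℂ) + a * q, (l : ℂ) + (2 * a * t + a ^ 2 * q)) : C3) ∈ ClosedTube := by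
  have h1 : ((t : ℂ) + a * q).im = a * q.im := by
    simp [Complex.add_im, Complex.mul_im]
  have h2 : ((l : ℂ) + (2 * a * t + a ^ 2 * q)).im = a ^ 2 * q.im := by
    have e : ((l : ℂ) + (2 * a * t + a ^ 2 * q)) =
        ((l + 2 * a * t : ℝ) : ℂ) + ((a ^ 2 : ℝ) : ℂ) * q := by
      push_cast; ring
    rw [e, Complex.add_im, Complex.ofReal_im, Complex.im_ofReal_mul, zero_add]
  refine ⟨hq, ?_, ?_⟩
  · simp only
    rw [h2]; positivity
  · simp only
    rw [h1, h2]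
    apply le_of_eq
    ring

theorem psi_ray_differentiableAt (a t l : ℝ) {q : ℂ} (hq : 0 ≤ q.im) :
    DifferentiableAt ℂ (fun q : ℂ =>
      Psi ((q, (t : ℂ) + a * q, (l : ℂ) + (2 * a * t + a ^ 2 * q)) : C3)) q := by
  have hD := Del_ne_zero (ray_mem a t l q hq)
  have hDel : DifferentiableAt ℂ (fun q : ℂ =>
      Del ((q, (t : ℂ) + a * q, (l : ℂ) + (2 * a * t + a ^ 2 * q)) : C3)) q := by
    unfold Del
    simp only
    fun_prop
  unfold Psi
  simp only
  refine DifferentiableAt.prodMk ?_ (DifferentiableAt.prodMk ?_ ?_)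
  · refine (differentiableAt_const _).sub (DifferentiableAt.div ?_ hDel hD)
    fun_prop
  · refine DifferentiableAt.div ?_ hDel hD
    fun_prop
  · refine (differentiableAt_const _).sub (DifferentiableAt.div ?_ hDel hD)
    fun_prop

theorem exists_bound_F (F : C3 → ℂ) (U : Set C3)
    (hF : DifferentiableOn ℂ F U) (ϱ : ℝ) (hϱ : ∀ Z ∈ ClosedSymBall, (ϱ : ℂ) • Z ∈ U) :
    ∃ B : ℝ, ∀ Z ∈ ClosedSymBall, ‖F ((ϱ : ℂ) • Z)‖ ≤ B := by
  refine isCompact_closedSymBall.exists_bound_of_continuousOn (f := fun Z => F ((ϱ : ℂ) • Z)) ?_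
  exact hF.continuousOn.comp (by fun_prop) fun Z hZ => hϱ Z hZ

/-- The function `q ↦ F (ϱ Psi (ray q)) * A_K q` on the closed upper half-plane: its integral over
the real line vanishes.

PROOF. `halfPlane_integral_eq_zero`: on `Im q ≥ 0` the point `ϱ Psi (ray q)` stays in the compact
set `ϱ • ClosedSymBall ⊆ U` (`psi_mem`, `ray_mem`), on which `F` is bounded by some `B`; the
function is continuous on `Im q ≥ 0`, differentiable on `Im q > 0`, and bounded by
`B / (1 + |q|^2)` (`AK_norm_le`). -/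
theorem ray_integral (K : ℕ) (hK : 2 ≤ K) (F : C3 → ℂ) (U : Set C3) (hU : IsOpen U)
    (hF : DifferentiableOn ℂ F U) (ϱ : ℝ) (hϱ : ∀ Z ∈ ClosedSymBall, (ϱ : ℂ) • Z ∈ U)
    (a t l : ℝ) :
    ∫ q : ℝ, F ((ϱ : ℂ) • Psi ((q : ℂ), (t : ℂ) + a * q, (l : ℂ) + (2 * a * t + a ^ 2 * q))) *
      AK K (q : ℂ) = 0 := by
  obtain ⟨B, hB⟩ := exists_bound_F F U hF ϱ hϱ
  have hB0 : ∀ z : ℂ, 0 ≤ z.im → ‖F ((ϱ : ℂ) • Psi ((z, (t : ℂ) + a * z,
      (l : ℂ) + (2 * a * t + a ^ 2 * z)) : C3)) * AK K z‖ ≤ B / (1 + ‖z‖ ^ 2) := by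
    intro z hz
    rw [norm_mul]
    have h1 := hB _ (psi_mem (ray_mem a t l z hz))
    have h2 := AK_norm_le K hK z hz
    have h3 : 0 ≤ B := (norm_nonneg _).trans h1
    calc _ ≤ B * (1 / (1 + ‖z‖ ^ 2)) := mul_le_mul h1 h2 (norm_nonneg _) h3
      _ = B / (1 + ‖z‖ ^ 2) := by ring
  have hdiff : ∀ z : ℂ, 0 ≤ z.im → DifferentiableAt ℂ (fun z : ℂ => F ((ϱ : ℂ) •
      Psi ((z, (t : ℂ) + a * z, (l : ℂ) + (2 * a * t + a ^ 2 * z)) : C3)) * AK K z) z := by
    intro z hz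
    refine DifferentiableAt.mul ?_ (AK_differentiableAt K z (ne_neg_I_of_im hz))
    have h1 : DifferentiableAt ℂ F ((ϱ : ℂ) •
      Psi ((z, (t : ℂ) + a * z, (l : ℂ) + (2 * a * t + a ^ 2 * z)) : C3)) :=
      hF.differentiableAt (hU.mem_nhds (hϱ _ (psi_mem (ray_mem a t l z hz))))
    have h2 : DifferentiableAt ℂ (fun z : ℂ => (ϱ : ℂ) •
      Psi ((z, (t : ℂ) + a * z, (l : ℂ) + (2 * a * t + a ^ 2 * z)) : C3)) z :=
      (psi_ray_differentiableAt a t l hz).const_smul (ϱ : ℂ)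
    exact DifferentiableAt.comp (g := F) z h1 h2
  exact halfPlane_integral_eq_zero (fun z : ℂ => F ((ϱ : ℂ) •
      Psi ((z, (t : ℂ) + a * z, (l : ℂ) + (2 * a * t + a ^ 2 * z)) : C3)) * AK K z) B
    (fun z hz => (hdiff z hz).continuousAt.continuousWithinAt)
    (fun z hz => (hdiff z (le_of_lt hz)).differentiableWithinAt) hB0

/-- PROOF. `integral_shear`, `G_shear`, Fubini (`integral_prod` twice, after swapping so that the
`q`-integral is innermost), `ray_integral`. -/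
theorem annih (K : ℕ) (hK : 2 ≤ K) (N a b w : ℝ) (F : C3 → ℂ) (U : Set C3) (hU : IsOpen U)
    (hF : DifferentiableOn ℂ F U) (ϱ : ℝ) (hϱ : ∀ Z ∈ ClosedSymBall, (ϱ : ℂ) • Z ∈ U) :
    ∫ X : R3, F ((ϱ : ℂ) • Psi (toC X)) * G K N a b w X = 0 := by
  obtain ⟨B, hB⟩ := exists_bound_F F U hF ϱ hϱ
  have hcont : Continuous (fun X : R3 => F ((ϱ : ℂ) • Psi (toC X))) := by
    have h1 : Continuous (fun X : R3 => (ϱ : ℂ) • Psi (toC X)) :=
      (continuous_const_smul (ϱ : ℂ)).comp continuous_psi_toC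
    exact hF.continuousOn.comp_continuous h1 fun X => hϱ _ (psi_mem (toC_mem X))
  have hint : Integrable (fun X : R3 => F ((ϱ : ℂ) • Psi (toC X)) * G K N a b w X) := by
    refine (G_integrable K hK N a b w).bdd_mul (c := B) hcont.aestronglyMeasurable ?_
    exact Filter.Eventually.of_forall fun X => hB _ (psi_mem (toC_mem X))
  have hint2 : Integrable (fun Y : R3 => F ((ϱ : ℂ) • Psi (toC (shear a Y))) *
      G K N a b w (shear a Y)) :=
    ((shear_measurePreserving a).integrable_comp_emb (shear_measurableEmbedding a)).2 hint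
  rw [integral_shear a]
  have e : (volume : Measure R3) = (volume : Measure ℝ).prod (volume : Measure (ℝ × ℝ)) :=
    Measure.volume_eq_prod _ _
  rw [e] at hint2 ⊢
  rw [integral_prod_symm _ hint2]
  refine integral_eq_zero_of_ae (Filter.Eventually.of_forall fun y => ?_)
  have h := ray_integral K hK F U hU hF ϱ hϱ a y.1 y.2
  have h2 : ∀ q : ℝ, F ((ϱ : ℂ) • Psi (toC (shear a (q, y)))) * G K N a b w (shear a (q, y))
      = (F ((ϱ : ℂ) • Psi ((q : ℂ), (y.1 : ℂ) + a * q, (y.2 : ℂ) + (2 * a * y.1 + a ^ 2 * q))) *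
        AK K (q : ℂ)) * ((Icc (b - w / 16) (b + w / 16)).indicator (fun _ => (1 : ℂ)) y.1 *
        (Icc (0 : ℝ) 1).indicator (fun l : ℝ => Complex.exp (-(Complex.I * N * l))) y.2) := by
    intro q
    rw [G_shear]
    have h3 : toC (shear a (q, y)) = (((q : ℂ), (y.1 : ℂ) + a * q,
        (y.2 : ℂ) + (2 * a * y.1 + a ^ 2 * q)) : C3) := by
      unfold toC shear
      push_cast
      rfl
    rw [h3]
    ring
  show ∫ q : ℝ, F ((ϱ : ℂ) • Psi (toC (shear a (q, y)))) * G K N a b w (shear a (q, y)) = 0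
  simp_rw [h2]
  rw [integral_mul_const, h, zero_mul]

end Pool.Agent.P9749df
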