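import Pool.Agent.Lib.P9749df.Defs

/-!
# The matrix ball: elementary geometry
-/

open MeasureTheory Set
open scoped ContDiff Matrix ComplexOrder

namespace Pool.Agent.P9749df

/-- The square of the Euclidean norm of `Z v`. -/
private lemma star_dot {n : ℕ} (x : Fin n → ℂ) :
    star x ⬝ᵥ x = ((∑ j, ‖x j‖ ^ 2 : ℝ) : ℂ) := by
  rw [dotProduct]
  push_cast
  refine Finset.sum_congr rfl fun j _ => ?_
  rw [Pi.star_apply, ← starRingEnd_apply, Complex.conj_mul']

/-- Membership in the matrix ball in terms of vectors (`star v ⬝ᵥ v = ‖v‖^2`). -/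
theorem mem_matrixBall_iff {p q : ℕ} (z : Fin p × Fin q → ℂ) :
    z ∈ matrixBall p q ↔ ∀ v : Fin q → ℂ, v ≠ 0 →
      ∑ i, ‖∑ j, z (i, j) * v j‖ ^ 2 < ∑ j, ‖v j‖ ^ 2 := by
  have key : ∀ v : Fin q → ℂ, star v ⬝ᵥ ((1 - (toMat z)ᴴ * toMat z) *ᵥ v) =
      ((∑ j, ‖v j‖ ^ 2 - ∑ i, ‖∑ j, z (i, j) * v j‖ ^ 2 : ℝ) : ℂ) := by
    intro v
    rw [Matrix.sub_mulVec, Matrix.one_mulVec, dotProduct_sub, star_dot, Complex.ofReal_sub]
    congr 1
    rw [← Matrix.mulVec_mulVec, Matrix.dotProduct_mulVec, Matrix.vecMul_conjTranspose,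
      star_star, star_dot]
    rfl
  have hherm : (1 - (toMat z)ᴴ * toMat z).IsHermitian :=
    Matrix.isHermitian_one.sub (Matrix.isHermitian_conjTranspose_mul_self _)
  unfold matrixBall
  rw [Set.mem_ofPred_eq, Matrix.posDef_iff_dotProduct_mulVec]
  constructor
  · rintro ⟨-, h⟩ v hv
    have h1 := h hv
    rw [key, Complex.zero_lt_real] at h1
    linarith
  · intro h
    refine ⟨hherm, fun {v} hv => ?_⟩
    rw [key, Complex.zero_lt_real]
    have := h v hv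
    linarith

/-- It is enough to consider vectors of norm one. -/
theorem mem_matrixBall_iff_unit {p q : ℕ} (z : Fin p × Fin q → ℂ) :
    z ∈ matrixBall p q ↔ ∀ v ∈ {v : Fin q → ℂ | ∑ j, ‖v j‖ ^ 2 = 1},
      ∑ i, ‖∑ j, z (i, j) * v j‖ ^ 2 < 1 := by
  rw [mem_matrixBall_iff]
  constructor
  · intro h v hv
    rw [Set.mem_ofPred_eq] at hv
    rw [← hv]
    apply h
    rintro rfl
    simp at hv
  · intro h v hv
    set S : ℝ := ∑ j, ‖v j‖ ^ 2 with hS
    have hSpos : 0 < S := by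
      have h0 : 0 ≤ S := Finset.sum_nonneg fun j _ => sq_nonneg _
      rcases h0.lt_or_eq with h1 | h1
      · exact h1
      · exfalso
        apply hv
        funext j
        have := (Finset.sum_eq_zero_iff_of_nonneg (fun j _ => sq_nonneg ‖v j‖)).1 h1.symm j
          (Finset.mem_univ j)
        simpa using this
    set c : ℝ := (Real.sqrt S)⁻¹ with hc
    have hc2 : c ^ 2 = S⁻¹ := by
      rw [hc, inv_pow, Real.sq_sqrt hSpos.le]
    have h1 := h (fun j => (c : ℂ) * v j) (by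
      rw [Set.mem_ofPred_eq]
      have : ∀ j, ‖(c : ℂ) * v j‖ ^ 2 = c ^ 2 * ‖v j‖ ^ 2 := by
        intro j
        rw [norm_mul, mul_pow, Complex.norm_real, Real.norm_eq_abs, sq_abs]
      simp only [this]
      rw [← Finset.mul_sum, ← hS, hc2, inv_mul_cancel₀ hSpos.ne'])
    have h2 : ∀ i : Fin p, ‖∑ j, z (i, j) * ((c : ℂ) * v j)‖ ^ 2 =
        S⁻¹ * ‖∑ j, z (i, j) * v j‖ ^ 2 := by
      intro i
      have e : ∑ j, z (i, j) * ((c : ℂ) * v j) = (c : ℂ) * ∑ j, z (i, j) * v j := by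
        rw [Finset.mul_sum]
        refine Finset.sum_congr rfl fun j _ => ?_
        ring
      rw [e, norm_mul, mul_pow, Complex.norm_real, Real.norm_eq_abs, sq_abs, hc2]
    simp only [h2] at h1
    rw [← Finset.mul_sum, inv_mul_lt_iff₀ hSpos, mul_one] at h1
    exact h1

theorem isOpen_matrixBall (p q : ℕ) : IsOpen (matrixBall p q) := by
  have hK : IsCompact {v : Fin q → ℂ | ∑ j, ‖v j‖ ^ 2 = 1} := by
    refine Metric.isCompact_of_isClosed_isBounded ?_ ?_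
    · exact isClosed_eq (by fun_prop) continuous_const
    · refine (Metric.isBounded_closedBall (x := (0 : Fin q → ℂ)) (r := 1)).subset ?_
      intro v hv
      rw [Set.mem_ofPred_eq] at hv
      rw [mem_closedBall_zero_iff, pi_norm_le_iff_of_nonneg zero_le_one]
      intro j
      have h1 : ‖v j‖ ^ 2 ≤ ∑ j, ‖v j‖ ^ 2 :=
        Finset.single_le_sum (f := fun j => ‖v j‖ ^ 2) (fun j _ => sq_nonneg _)
          (Finset.mem_univ j)
      rw [hv] at h1
      exact (sq_le_one_iff₀ (norm_nonneg _)).1 h1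
  rw [isOpen_iff_eventually]
  intro z hz
  have h := (mem_matrixBall_iff_unit z).1 hz
  have h2 := hK.eventually_forall_of_forall_eventually (x₀ := z)
    (P := fun (w : Fin p × Fin q → ℂ) (v : Fin q → ℂ) =>
      ∑ i, ‖∑ j, w (i, j) * v j‖ ^ 2 < 1) (fun v hv => by
        have hcont : Continuous fun a : (Fin p × Fin q → ℂ) × (Fin q → ℂ) =>
            ∑ i, ‖∑ j, a.1 (i, j) * a.2 j‖ ^ 2 := by
          fun_prop
        exact hcont.continuousAt.eventually_lt continuousAt_const (h v hv))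
  filter_upwards [h2] with w hw
  exact (mem_matrixBall_iff_unit w).2 hw

theorem isBounded_matrixBall (p q : ℕ) : Bornology.IsBounded (matrixBall p q) := by
  refine (Metric.isBounded_closedBall (x := (0 : Fin p × Fin q → ℂ)) (r := 1)).subset ?_
  intro z hz
  rw [mem_closedBall_zero_iff, pi_norm_le_iff_of_nonneg zero_le_one]
  rintro ⟨i, j⟩
  have h := (mem_matrixBall_iff z).1 hz (Pi.single j 1) (by
    intro h0
    have := congrFun h0 j
    simp at this)
  have e1 : ∑ k, ‖(Pi.single j (1 : ℂ) : Fin q → ℂ) k‖ ^ 2 = 1 := by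
    rw [Finset.sum_eq_single j]
    · simp
    · intro k _ hk
      simp [hk]
    · intro hj
      exact absurd (Finset.mem_univ j) hj
  have e2 : ∀ i : Fin p, ∑ k, z (i, k) * (Pi.single j (1 : ℂ) : Fin q → ℂ) k = z (i, j) := by
    intro i
    rw [Finset.sum_eq_single j]
    · simp
    · intro k _ hk
      simp [hk]
    · intro hj
      exact absurd (Finset.mem_univ j) hj
  simp only [e2] at h
  rw [e1] at h
  have h1 : ‖z (i, j)‖ ^ 2 ≤ ∑ i, ‖z (i, j)‖ ^ 2 :=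
    Finset.single_le_sum (f := fun i => ‖z (i, j)‖ ^ 2) (fun i _ => sq_nonneg _)
      (Finset.mem_univ i)
  exact (sq_le_one_iff₀ (norm_nonneg _)).1 (h1.trans h.le)

theorem convex_matrixBall (p q : ℕ) : Convex ℝ (matrixBall p q) := by
  intro z hz w hw a b ha hb hab
  rw [mem_matrixBall_iff] at hz hw ⊢
  intro v hv
  have h1 := hz v hv
  have h2 := hw v hv
  have hS : 0 ≤ ∑ j, ‖v j‖ ^ 2 := Finset.sum_nonneg fun j _ => sq_nonneg _
  have h3 : ∀ i : Fin p, ‖∑ j, (a • z + b • w) (i, j) * v j‖ ^ 2 ≤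
      a * ‖∑ j, z (i, j) * v j‖ ^ 2 + b * ‖∑ j, w (i, j) * v j‖ ^ 2 := by
    intro i
    have e : ∑ j, (a • z + b • w) (i, j) * v j =
        (a : ℂ) * (∑ j, z (i, j) * v j) + (b : ℂ) * ∑ j, w (i, j) * v j := by
      rw [Finset.mul_sum, Finset.mul_sum, ← Finset.sum_add_distrib]
      refine Finset.sum_congr rfl fun j _ => ?_
      simp only [Pi.add_apply, Pi.smul_apply, Complex.real_smul]
      ring
    rw [e]
    set x := ∑ j, z (i, j) * v j
    set y := ∑ j, w (i, j) * v j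
    have h4 : ‖(a : ℂ) * x + (b : ℂ) * y‖ ≤ a * ‖x‖ + b * ‖y‖ := by
      refine (norm_add_le _ _).trans ?_
      rw [norm_mul, norm_mul, Complex.norm_real, Complex.norm_real, Real.norm_eq_abs,
        Real.norm_eq_abs, abs_of_nonneg ha, abs_of_nonneg hb]
    have h5 : 0 ≤ ‖(a : ℂ) * x + (b : ℂ) * y‖ := norm_nonneg _
    have h6 : ‖(a : ℂ) * x + (b : ℂ) * y‖ ^ 2 ≤ (a * ‖x‖ + b * ‖y‖) ^ 2 :=
      pow_le_pow_left₀ h5 h4 2
    have hb1 : b = 1 - a := by linarith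
    have h7 : (a * ‖x‖ + b * ‖y‖) ^ 2 ≤ a * ‖x‖ ^ 2 + b * ‖y‖ ^ 2 := by
      have h8 : a * ‖x‖ ^ 2 + b * ‖y‖ ^ 2 - (a * ‖x‖ + b * ‖y‖) ^ 2 =
          a * b * (‖x‖ - ‖y‖) ^ 2 := by
        rw [hb1]
        ring
      have h9 : 0 ≤ a * b * (‖x‖ - ‖y‖) ^ 2 := by positivity
      linarith
    exact h6.trans h7
  have h4 : ∑ i, ‖∑ j, (a • z + b • w) (i, j) * v j‖ ^ 2 ≤
      a * (∑ i, ‖∑ j, z (i, j) * v j‖ ^ 2) + b * ∑ i, ‖∑ j, w (i, j) * v j‖ ^ 2 := by
    rw [Finset.mul_sum, Finset.mul_sum, ← Finset.sum_add_distrib]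
    exact Finset.sum_le_sum fun i _ => h3 i
  refine h4.trans_lt ?_
  rcases ha.eq_or_lt with h0 | h0
  · have hb1 : b = 1 := by linarith
    rw [← h0, hb1, zero_mul, one_mul, zero_add]
    exact h2
  · have h5 : a * (∑ i, ‖∑ j, z (i, j) * v j‖ ^ 2) < a * ∑ j, ‖v j‖ ^ 2 :=
      mul_lt_mul_of_pos_left h1 h0
    have h6 : b * (∑ i, ‖∑ j, w (i, j) * v j‖ ^ 2) ≤ b * ∑ j, ‖v j‖ ^ 2 :=
      mul_le_mul_of_nonneg_left h2.le hb
    have h7 : a * (∑ j, ‖v j‖ ^ 2) + b * ∑ j, ‖v j‖ ^ 2 = ∑ j, ‖v j‖ ^ 2 := by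
      rw [← add_mul, hab, one_mul]
    linarith

theorem zero_mem_matrixBall (p q : ℕ) : (0 : Fin p × Fin q → ℂ) ∈ matrixBall p q := by
  rw [mem_matrixBall_iff_unit]
  intro v _
  simp

theorem circular_matrixBall (p q : ℕ) (θ : ℝ) (z : Fin p × Fin q → ℂ) (hz : z ∈ matrixBall p q) :
    Complex.exp (θ * Complex.I) • z ∈ matrixBall p q := by
  rw [mem_matrixBall_iff] at hz ⊢
  intro v hv
  refine lt_of_eq_of_lt ?_ (hz v hv)
  refine Finset.sum_congr rfl fun i _ => ?_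
  have e : ∑ j, (Complex.exp (θ * Complex.I) • z) (i, j) * v j =
      Complex.exp (θ * Complex.I) * ∑ j, z (i, j) * v j := by
    rw [Finset.mul_sum]
    refine Finset.sum_congr rfl fun j _ => ?_
    simp only [Pi.smul_apply, smul_eq_mul]
    ring
  rw [e, norm_mul, Complex.norm_exp_ofReal_mul_I, one_mul]

end Pool.Agent.P9749df
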