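import Pool.Agent.Lib.P9749df.BSDgeom

/-!
# The matrix ball is symmetric
-/

open MeasureTheory Set
open scoped ContDiff Matrix ComplexOrder

namespace Pool.Agent.P9749df

set_option linter.unusedSimpArgs false

section alg

variable {p q : ℕ} (A : Matrix (Fin p) (Fin q) ℂ)

/-- `R' = (1 - A* A)^(-1)` -/
noncomputable def symR' : Matrix (Fin q) (Fin q) ℂ := (1 - Aᴴ * A)⁻¹

/-- `R = 1 + A R' A*` -/
noncomputable def symR : Matrix (Fin p) (Fin p) ℂ := 1 + A * symR' A * Aᴴ

variable {A}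

theorem symR'_mul (hA : (1 - Aᴴ * A).PosDef) : symR' A * (1 - Aᴴ * A) = 1 :=
  Matrix.nonsing_inv_mul _ ((Matrix.isUnit_iff_isUnit_det _).1 hA.isUnit)

theorem mul_symR' (hA : (1 - Aᴴ * A).PosDef) : (1 - Aᴴ * A) * symR' A = 1 :=
  Matrix.mul_nonsing_inv _ ((Matrix.isUnit_iff_isUnit_det _).1 hA.isUnit)

/-- `R' A* A = R' - 1` -/
theorem symR'_AA (hA : (1 - Aᴴ * A).PosDef) : symR' A * (Aᴴ * A) = symR' A - 1 := by
  have h := symR'_mul hA
  rw [mul_sub, mul_one] at h
  rw [← h]; abel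

/-- `A* A R' = R' - 1` -/
theorem AA_symR' (hA : (1 - Aᴴ * A).PosDef) : Aᴴ * A * symR' A = symR' A - 1 := by
  have h := mul_symR' hA
  rw [sub_mul, one_mul] at h
  rw [← h]; abel

theorem symR'_herm (hA : (1 - Aᴴ * A).PosDef) : (symR' A)ᴴ = symR' A := by
  have h : (1 - Aᴴ * A)ᴴ = 1 - Aᴴ * A := hA.isHermitian
  rw [symR', Matrix.conjTranspose_nonsing_inv, h]

theorem symR_herm (hA : (1 - Aᴴ * A).PosDef) : (symR A)ᴴ = symR A := by
  simp only [symR, Matrix.conjTranspose_add, Matrix.conjTranspose_mul, Matrix.conjTranspose_one,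
    Matrix.conjTranspose_conjTranspose, symR'_herm hA, Matrix.mul_assoc]

/-- `R A = A R'` -/
theorem symR_A (hA : (1 - Aᴴ * A).PosDef) : symR A * A = A * symR' A := by
  have h := symR'_AA hA
  rw [symR, Matrix.add_mul, Matrix.one_mul, Matrix.mul_assoc, Matrix.mul_assoc, h,
    Matrix.mul_sub, Matrix.mul_one]
  abel

/-- `A* R = R' A*` -/
theorem A_symR (hA : (1 - Aᴴ * A).PosDef) : Aᴴ * symR A = symR' A * Aᴴ := by
  have h := congrArg Matrix.conjTranspose (symR_A hA)
  rw [Matrix.conjTranspose_mul, Matrix.conjTranspose_mul, symR_herm hA, symR'_herm hA] at h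
  exact h

/-- `A R' A* = R - 1` -/
theorem ARA (A : Matrix (Fin p) (Fin q) ℂ) : A * (symR' A * Aᴴ) = symR A - 1 := by
  rw [symR, Matrix.mul_assoc]; abel

/-- The block relations needed. -/
structure Blocks (a : Matrix (Fin p) (Fin p) ℂ) (b : Matrix (Fin p) (Fin q) ℂ)
    (c : Matrix (Fin q) (Fin p) ℂ) (d : Matrix (Fin q) (Fin q) ℂ) : Prop where
  aa : aᴴ * a = 1 + cᴴ * c
  ab : aᴴ * b = cᴴ * d
  dd : dᴴ * d = bᴴ * b + 1
  gaa : a * a + b * c = 1
  gab : a * b + b * d = 0
  gca : c * a + d * c = 0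
  gcb : c * b + d * d = 1

theorem blocks_of (hA : (1 - Aᴴ * A).PosDef) :
    Blocks ((2 : ℂ) • symR A - 1) (-(2 : ℂ) • (A * symR' A)) ((2 : ℂ) • (symR' A * Aᴴ))
      (1 - (2 : ℂ) • symR' A) := by
  have h1 := symR_A hA
  have h2 := A_symR hA
  have h3 := symR'_herm hA
  have h4 := symR_herm hA
  have h5 := AA_symR' hA
  have h6 := ARA A
  have c2 : star (2 : ℂ) = 2 := by simp
  have k1 : A * symR' A * (symR' A * Aᴴ) = symR A * symR A - symR A := by
    rw [← h2, ← h1]
    rw [Matrix.mul_assoc, ← Matrix.mul_assoc A, Matrix.mul_assoc A, h2, h6]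
    rw [mul_sub, mul_one]
  have k2 : symR' A * Aᴴ * (A * symR' A) = symR' A * symR' A - symR' A := by
    rw [Matrix.mul_assoc, ← Matrix.mul_assoc Aᴴ, h5, mul_sub, mul_one]
  refine ⟨?_, ?_, ?_, ?_, ?_, ?_, ?_⟩
  · simp only [Matrix.conjTranspose_sub, Matrix.conjTranspose_smul, Matrix.conjTranspose_one,
      Matrix.conjTranspose_mul, Matrix.conjTranspose_conjTranspose, h3, h4, c2]
    simp only [Matrix.smul_mul, Matrix.mul_smul, k1, mul_sub, sub_mul, mul_one, one_mul, smul_sub,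
      smul_smul]
    module
  · simp only [Matrix.conjTranspose_sub, Matrix.conjTranspose_smul, Matrix.conjTranspose_one,
      Matrix.conjTranspose_mul, Matrix.conjTranspose_conjTranspose, h3, h4, c2]
    simp only [Matrix.smul_mul, Matrix.mul_smul, Matrix.mul_sub, Matrix.sub_mul, Matrix.mul_one,
      Matrix.one_mul, smul_sub, smul_smul, neg_smul, Matrix.mul_neg, Matrix.neg_mul]
    rw [← Matrix.mul_assoc, h1]
    module
  · simp only [Matrix.conjTranspose_sub, Matrix.conjTranspose_smul, Matrix.conjTranspose_one,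
      Matrix.conjTranspose_mul, Matrix.conjTranspose_conjTranspose, h3, h4, c2,
      Matrix.conjTranspose_neg, star_neg]
    simp only [Matrix.smul_mul, Matrix.mul_smul, Matrix.mul_sub, Matrix.sub_mul, Matrix.mul_one,
      Matrix.one_mul, smul_sub, smul_smul, neg_smul, Matrix.mul_neg, Matrix.neg_mul, k2]
    module
  · simp only [Matrix.smul_mul, Matrix.mul_smul, Matrix.mul_sub, Matrix.sub_mul, Matrix.mul_one,
      Matrix.one_mul, smul_sub, smul_smul, neg_smul, Matrix.mul_neg, Matrix.neg_mul, k1]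
    module
  · simp only [Matrix.smul_mul, Matrix.mul_smul, Matrix.mul_sub, Matrix.sub_mul, Matrix.mul_one,
      Matrix.one_mul, smul_sub, smul_smul, neg_smul, Matrix.mul_neg, Matrix.neg_mul, k1]
    rw [← Matrix.mul_assoc (symR A), h1]
    module
  · simp only [Matrix.smul_mul, Matrix.mul_smul, Matrix.mul_sub, Matrix.sub_mul, Matrix.mul_one,
      Matrix.one_mul, smul_sub, smul_smul, neg_smul, Matrix.mul_neg, Matrix.neg_mul, k1]
    rw [Matrix.mul_assoc (symR' A), h2]
    module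
  · simp only [Matrix.smul_mul, Matrix.mul_smul, Matrix.mul_sub, Matrix.sub_mul, Matrix.mul_one,
      Matrix.one_mul, smul_sub, smul_smul, neg_smul, Matrix.mul_neg, Matrix.neg_mul, k2]
    module

theorem blocks_key {a : Matrix (Fin p) (Fin p) ℂ} {b : Matrix (Fin p) (Fin q) ℂ}
    {c : Matrix (Fin q) (Fin p) ℂ} {d : Matrix (Fin q) (Fin q) ℂ} (h : Blocks a b c d)
    (Z : Matrix (Fin p) (Fin q) ℂ) :
    (c * Z + d)ᴴ * (c * Z + d) = (a * Z + b)ᴴ * (a * Z + b) + (1 - Zᴴ * Z) := by
  have hba : bᴴ * a = dᴴ * c := by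
    have := congrArg Matrix.conjTranspose h.ab
    simpa [Matrix.conjTranspose_mul] using this
  simp only [Matrix.conjTranspose_add, Matrix.conjTranspose_mul, Matrix.add_mul, Matrix.mul_add]
  have e1 : Zᴴ * aᴴ * (a * Z) = Zᴴ * Z + Zᴴ * cᴴ * (c * Z) := by
    rw [Matrix.mul_assoc, ← Matrix.mul_assoc aᴴ, h.aa, Matrix.add_mul, Matrix.mul_add,
      Matrix.one_mul]
    simp only [Matrix.mul_assoc]
  have e2 : Zᴴ * aᴴ * b = Zᴴ * cᴴ * d := by
    rw [Matrix.mul_assoc, h.ab, Matrix.mul_assoc]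
  have e3 : bᴴ * (a * Z) = dᴴ * (c * Z) := by
    rw [← Matrix.mul_assoc, hba, Matrix.mul_assoc]
  rw [e1, e2, e3, h.dd]
  abel


/-- the fractional linear map -/
noncomputable def symMap (a : Matrix (Fin p) (Fin p) ℂ) (b : Matrix (Fin p) (Fin q) ℂ)
    (c : Matrix (Fin q) (Fin p) ℂ) (d : Matrix (Fin q) (Fin q) ℂ)
    (Z : Matrix (Fin p) (Fin q) ℂ) : Matrix (Fin p) (Fin q) ℂ :=
  (a * Z + b) * (c * Z + d)⁻¹

section
variable {a : Matrix (Fin p) (Fin p) ℂ} {b : Matrix (Fin p) (Fin q) ℂ}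
    {c : Matrix (Fin q) (Fin p) ℂ} {d : Matrix (Fin q) (Fin q) ℂ}

theorem blocks_isUnit (h : Blocks a b c d) {Z : Matrix (Fin p) (Fin q) ℂ}
    (hZ : (1 - Zᴴ * Z).PosDef) : IsUnit (c * Z + d) := by
  have h1 : ((c * Z + d)ᴴ * (c * Z + d)).PosDef := by
    rw [blocks_key h Z]
    exact Matrix.PosDef.posSemidef_add (Matrix.posSemidef_conjTranspose_mul_self _) hZ
  have h2 := (Matrix.isUnit_iff_isUnit_det _).1 h1.isUnit
  rw [Matrix.det_mul] at h2
  exact (Matrix.isUnit_iff_isUnit_det _).2 (isUnit_of_mul_isUnit_right h2)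

theorem blocks_mapsTo (h : Blocks a b c d) {Z : Matrix (Fin p) (Fin q) ℂ}
    (hZ : (1 - Zᴴ * Z).PosDef) :
    (1 - (symMap a b c d Z)ᴴ * symMap a b c d Z).PosDef := by
  have hu := blocks_isUnit h hZ
  have hd := (Matrix.isUnit_iff_isUnit_det _).1 hu
  have hkey := blocks_key h Z
  set M := c * Z + d with hM
  set N := a * Z + b with hN
  have e : 1 - (N * M⁻¹)ᴴ * (N * M⁻¹) = (M⁻¹)ᴴ * (1 - Zᴴ * Z) * M⁻¹ := by
    have e0 : 1 - Zᴴ * Z = Mᴴ * M - Nᴴ * N := by rw [hkey]; abel
    rw [e0, Matrix.conjTranspose_mul, Matrix.mul_sub, Matrix.sub_mul]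
    have e1 : M⁻¹ᴴ * (Mᴴ * M) * M⁻¹ = 1 := by
      have e2 : M⁻¹ᴴ * Mᴴ = 1 := by
        rw [← Matrix.conjTranspose_mul, Matrix.mul_nonsing_inv _ hd, Matrix.conjTranspose_one]
      rw [← Matrix.mul_assoc, e2, Matrix.one_mul, Matrix.mul_nonsing_inv _ hd]
    rw [e1]
    simp only [Matrix.mul_assoc]
  show (1 - (N * M⁻¹)ᴴ * (N * M⁻¹)).PosDef
  rw [e]
  refine hZ.conjTranspose_mul_mul_same ?_
  intro x y hxy
  have : M *ᵥ (M⁻¹ *ᵥ x) = M *ᵥ (M⁻¹ *ᵥ y) := by rw [hxy]
  simpa [Matrix.mulVec_mulVec, Matrix.mul_nonsing_inv _ hd] using this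

theorem blocks_invol (h : Blocks a b c d) {Z : Matrix (Fin p) (Fin q) ℂ}
    (hZ : (1 - Zᴴ * Z).PosDef) :
    symMap a b c d (symMap a b c d Z) = Z := by
  have hu := blocks_isUnit h hZ
  have hd := (Matrix.isUnit_iff_isUnit_det _).1 hu
  have hd' := (Matrix.isUnit_iff_isUnit_det _).1 hu
  unfold symMap
  set M := c * Z + d with hM
  have e1 : a * ((a * Z + b) * M⁻¹) + b = Z * M⁻¹ := by
    have : a * ((a * Z + b) * M⁻¹) + b = (a * (a * Z + b) + b * M) * M⁻¹ := by
      rw [Matrix.add_mul (a * (a * Z + b)), Matrix.mul_assoc b, Matrix.mul_nonsing_inv _ hd,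
        Matrix.mul_one, Matrix.mul_assoc]
    rw [this]
    congr 1
    rw [hM, Matrix.mul_add, Matrix.mul_add, ← Matrix.mul_assoc, ← Matrix.mul_assoc]
    calc a * a * Z + a * b + (b * c * Z + b * d)
        = (a * a + b * c) * Z + (a * b + b * d) := by rw [Matrix.add_mul]; abel
      _ = Z := by rw [h.gaa, h.gab, Matrix.one_mul, add_zero]
  have e2 : c * ((a * Z + b) * M⁻¹) + d = M⁻¹ := by
    have : c * ((a * Z + b) * M⁻¹) + d = (c * (a * Z + b) + d * M) * M⁻¹ := by
      rw [Matrix.add_mul (c * (a * Z + b)), Matrix.mul_assoc d, Matrix.mul_nonsing_inv _ hd,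
        Matrix.mul_one, Matrix.mul_assoc]
    rw [this]
    have e3 : c * (a * Z + b) + d * M = 1 := by
      rw [hM, Matrix.mul_add, Matrix.mul_add, ← Matrix.mul_assoc, ← Matrix.mul_assoc]
      calc c * a * Z + c * b + (d * c * Z + d * d)
          = (c * a + d * c) * Z + (c * b + d * d) := by rw [Matrix.add_mul]; abel
        _ = 1 := by rw [h.gca, h.gcb, Matrix.zero_mul, zero_add]
    rw [e3, Matrix.one_mul]
  rw [e1, e2, Matrix.nonsing_inv_nonsing_inv _ hd, Matrix.mul_assoc,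
    Matrix.nonsing_inv_mul _ hd, Matrix.mul_one]

end

theorem symMap_self_num (hA : (1 - Aᴴ * A).PosDef) :
    ((2 : ℂ) • symR A - 1) * A + -(2 : ℂ) • (A * symR' A) = -A := by
  rw [Matrix.sub_mul, Matrix.one_mul, Matrix.smul_mul, symR_A hA]
  module

theorem symMap_self_den (hA : (1 - Aᴴ * A).PosDef) :
    ((2 : ℂ) • (symR' A * Aᴴ)) * A + (1 - (2 : ℂ) • symR' A) = -1 := by
  rw [Matrix.smul_mul, Matrix.mul_assoc, symR'_AA hA]
  module

theorem symMap_sub (Z : Matrix (Fin p) (Fin q) ℂ) :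
    ((2 : ℂ) • symR A - 1) * Z + -(2 : ℂ) • (A * symR' A) -
      A * (((2 : ℂ) • (symR' A * Aᴴ)) * Z + (1 - (2 : ℂ) • symR' A)) = Z - A := by
  have h := ARA A
  rw [Matrix.mul_add, ← Matrix.mul_assoc, Matrix.mul_smul, h]
  simp only [Matrix.sub_mul, Matrix.smul_mul, Matrix.one_mul, Matrix.mul_sub, Matrix.mul_smul,
    Matrix.mul_one, smul_sub, neg_smul]
  module

/-- flatten -/
def ofMat (M : Matrix (Fin p) (Fin q) ℂ) : Fin p × Fin q → ℂ := fun x => M x.1 x.2

theorem toMat_ofMat (M : Matrix (Fin p) (Fin q) ℂ) : toMat (ofMat M) = M := rfl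

theorem ofMat_toMat (z : Fin p × Fin q → ℂ) : ofMat (toMat z) = z := rfl

theorem differentiable_det {E : Type*} [NormedAddCommGroup E] [NormedSpace ℂ E] {n : ℕ}
    {M : E → Matrix (Fin n) (Fin n) ℂ} (hM : ∀ i j, Differentiable ℂ fun z => M z i j) :
    Differentiable ℂ fun z => (M z).det := by
  simp only [Matrix.det_apply]
  refine Differentiable.fun_sum fun σ _ => ?_
  have h : Differentiable ℂ (fun z => ∏ i, M z (σ i) i) := fun z =>
    (HasFDerivAt.finsetProd (u := Finset.univ) (g := fun i z => M z (σ i) i)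
      (fun i _ => (hM (σ i) i z).hasFDerivAt)).differentiableAt
  exact h.const_smul _

theorem differentiable_adjugate {E : Type*} [NormedAddCommGroup E] [NormedSpace ℂ E] {n : ℕ}
    {M : E → Matrix (Fin n) (Fin n) ℂ} (hM : ∀ i j, Differentiable ℂ fun z => M z i j)
    (i j : Fin n) : Differentiable ℂ fun z => (M z).adjugate i j := by
  simp only [Matrix.adjugate_apply]
  refine differentiable_det fun k l => ?_
  by_cases h : k = j
  · subst h
    simp [Matrix.updateRow_self]
  · simp only [Matrix.updateRow_ne h]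
    exact hM _ _

theorem differentiable_mul_entry {E : Type*} [NormedAddCommGroup E] [NormedSpace ℂ E] {l m n : ℕ}
    {M : E → Matrix (Fin l) (Fin m) ℂ} {N : E → Matrix (Fin m) (Fin n) ℂ} {s : Set E}
    (hM : ∀ i j, DifferentiableOn ℂ (fun z => M z i j) s)
    (hN : ∀ i j, DifferentiableOn ℂ (fun z => N z i j) s) (i : Fin l) (j : Fin n) :
    DifferentiableOn ℂ (fun z => (M z * N z) i j) s := by
  simp only [Matrix.mul_apply]
  exact DifferentiableOn.fun_sum fun k _ => (hM _ _).mul (hN _ _)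

end alg

/-- The geodesic symmetry at `A`. -/
theorem exists_symmetry (p q : ℕ) (A : Fin p × Fin q → ℂ) (hA : A ∈ matrixBall p q) :
    ∃ s : (Fin p × Fin q → ℂ) → (Fin p × Fin q → ℂ),
      MapsTo s (matrixBall p q) (matrixBall p q) ∧ DifferentiableOn ℂ s (matrixBall p q) ∧
      (∀ z ∈ matrixBall p q, s (s z) = z) ∧ s A = A ∧
      ∃ ε > 0, ∀ z ∈ matrixBall p q, dist z A < ε → s z = z → z = A := by
  have hA' : (1 - (toMat A)ᴴ * toMat A).PosDef := hA
  set a : Matrix (Fin p) (Fin p) ℂ := (2 : ℂ) • symR (toMat A) - 1 with ha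
  set b : Matrix (Fin p) (Fin q) ℂ := -(2 : ℂ) • (toMat A * symR' (toMat A)) with hb
  set c : Matrix (Fin q) (Fin p) ℂ := (2 : ℂ) • (symR' (toMat A) * (toMat A)ᴴ) with hc
  set d : Matrix (Fin q) (Fin q) ℂ := 1 - (2 : ℂ) • symR' (toMat A) with hd
  have hB : Blocks a b c d := blocks_of hA'
  have hnum : a * toMat A + b = - toMat A := symMap_self_num hA'
  have hden : c * toMat A + d = -1 := symMap_self_den hA'
  have hsub : ∀ Z : Matrix (Fin p) (Fin q) ℂ, a * Z + b - toMat A * (c * Z + d) = Z - toMat A :=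
    fun Z => symMap_sub Z
  have hentry : ∀ i j, Differentiable ℂ fun z : Fin p × Fin q → ℂ => toMat z i j := by
    intro i j
    have := (ContinuousLinearMap.proj (R := ℂ) (φ := fun _ : Fin p × Fin q => ℂ)
      (i, j)).differentiable
    exact this
  have hlin : ∀ {m : ℕ} (L : Matrix (Fin m) (Fin p) ℂ) (K : Matrix (Fin m) (Fin q) ℂ) (i j),
      Differentiable ℂ fun z : Fin p × Fin q → ℂ => (L * toMat z + K) i j := by
    intro m L K i j
    simp only [Matrix.add_apply, Matrix.mul_apply]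
    exact (Differentiable.fun_sum fun k _ => (hentry k j).const_mul (L i k)).add_const (K i j)
  refine ⟨fun z => ofMat (symMap a b c d (toMat z)), ?_, ?_, ?_, ?_, ?_⟩
  · intro z hz
    exact blocks_mapsTo hB hz
  · rw [differentiableOn_pi]
    rintro ⟨i, j⟩
    show DifferentiableOn ℂ (fun z => ((a * toMat z + b) * (c * toMat z + d)⁻¹) i j)
      (matrixBall p q)
    refine differentiable_mul_entry (fun i j => (hlin a b i j).differentiableOn) ?_ i j
    intro i j
    simp only [Matrix.inv_def, Matrix.smul_apply, smul_eq_mul, Ring.inverse_eq_inv']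
    refine DifferentiableOn.mul ?_ (differentiable_adjugate (fun i j => hlin c d i j) i
      j).differentiableOn
    refine DifferentiableOn.inv (differentiable_det (fun i j => hlin c d i j)).differentiableOn ?_
    intro z hz
    exact ((Matrix.isUnit_iff_isUnit_det _).1 (blocks_isUnit hB hz)).ne_zero
  · intro z hz
    show ofMat (symMap a b c d (toMat (ofMat (symMap a b c d (toMat z))))) = z
    rw [toMat_ofMat, blocks_invol hB hz, ofMat_toMat]
  · show ofMat ((a * toMat A + b) * (c * toMat A + d)⁻¹) = A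
    rw [hnum, hden]
    have : (-1 : Matrix (Fin q) (Fin q) ℂ)⁻¹ = -1 := by
      apply Matrix.inv_eq_left_inv; simp
    rw [this, Matrix.mul_neg, Matrix.mul_one, neg_neg, ofMat_toMat]
  · -- isolated
    have hcont : Continuous fun z : Fin p × Fin q → ℂ => (c * toMat z + (d - 1)).det :=
      (differentiable_det (fun i j => hlin c (d - 1) i j)).continuous
    have hne : (c * toMat A + (d - 1)).det ≠ 0 := by
      have : c * toMat A + (d - 1) = (-2 : ℂ) • (1 : Matrix (Fin q) (Fin q) ℂ) := by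
        rw [← add_sub_assoc, hden]; module
      rw [this, Matrix.det_smul]
      simp
    have hev := hcont.continuousAt.eventually_ne hne
    rw [Metric.eventually_nhds_iff] at hev
    obtain ⟨ε, hε, hev⟩ := hev
    refine ⟨ε, hε, fun z hz hdist hfix => ?_⟩
    have hdet := hev hdist
    have hu := (Matrix.isUnit_iff_isUnit_det _).1 (blocks_isUnit hB hz)
    have hfix' : (a * toMat z + b) * (c * toMat z + d)⁻¹ = toMat z := by
      have := congrArg toMat hfix
      exact this
    have h1 : a * toMat z + b = toMat z * (c * toMat z + d) := by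
      calc a * toMat z + b = (a * toMat z + b) * (c * toMat z + d)⁻¹ * (c * toMat z + d) := by
            rw [Matrix.mul_assoc, Matrix.nonsing_inv_mul _ hu, Matrix.mul_one]
        _ = _ := by rw [hfix']
    have h2 := hsub (toMat z)
    rw [h1, ← Matrix.sub_mul] at h2
    have h3 : (toMat z - toMat A) * (c * toMat z + (d - 1)) = 0 := by
      rw [← add_sub_assoc, Matrix.mul_sub, h2, Matrix.mul_one, sub_self]
    have h4 : toMat z - toMat A = 0 := by
      have hu2 : IsUnit (c * toMat z + (d - 1)).det := hdet.isUnit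
      calc toMat z - toMat A = (toMat z - toMat A) * (c * toMat z + (d - 1)) *
            (c * toMat z + (d - 1))⁻¹ := by
            rw [Matrix.mul_assoc, Matrix.mul_nonsing_inv _ hu2, Matrix.mul_one]
        _ = 0 := by rw [h3, Matrix.zero_mul]
    have h5 : toMat z = toMat A := sub_eq_zero.1 h4
    rw [← ofMat_toMat z, h5, ofMat_toMat]

theorem matrixBall_isBoundedSymmetricDomain (p q : ℕ) :
    IsBoundedSymmetricDomain (matrixBall p q) where
  isOpen := isOpen_matrixBall p q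
  isBounded := isBounded_matrixBall p q
  convex := convex_matrixBall p q
  zero_mem := zero_mem_matrixBall p q
  circular := fun θ z hz => circular_matrixBall p q θ z hz
  symmetric := fun A hA => exists_symmetry p q A hA

end Pool.Agent.P9749df
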