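import Pool.Agent.Lib.P9749df.Defs

/-!
# Objects for the core construction on symmetric `2 × 2` matrices

A symmetric matrix `[[z1, z2], [z2, z3]]` is the triple `(z1, z2, z3) : ℂ × ℂ × ℂ`.
The tube coordinates of the Cayley transform `W = i (1 + Z) (1 - Z)^(-1) = [[q, r], [r, p]]`
are the triple `(q, r, p)`.
-/

open MeasureTheory Set

noncomputable section

namespace Pool.Agent.P9749df

/-- Symmetric `2 × 2` matrices. -/
abbrev C3 : Type := ℂ × ℂ × ℂ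

/-- Real symmetric `2 × 2` matrices `(q, r, p)`. -/
abbrev R3 : Type := ℝ × ℝ × ℝ

/-- The open unit ball (operator norm) of symmetric `2 × 2` matrices. -/
def SymBall : Set C3 :=
  {Z | ∀ ξ η : ℂ, ¬ (ξ = 0 ∧ η = 0) →
    ‖Z.1 * ξ + Z.2.1 * η‖ ^ 2 + ‖Z.2.1 * ξ + Z.2.2 * η‖ ^ 2 < ‖ξ‖ ^ 2 + ‖η‖ ^ 2}

/-- The closed unit ball (operator norm) of symmetric `2 × 2` matrices. -/
def ClosedSymBall : Set C3 :=
  {Z | ∀ ξ η : ℂ,
    ‖Z.1 * ξ + Z.2.1 * η‖ ^ 2 + ‖Z.2.1 * ξ + Z.2.2 * η‖ ^ 2 ≤ ‖ξ‖ ^ 2 + ‖η‖ ^ 2}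

/-- `det (1 - Z)`. -/
def del (Z : C3) : ℂ := (1 - Z.1) * (1 - Z.2.2) - Z.2.1 ^ 2

/-- The Cayley transform `W = i (1 + Z) (1 - Z)^(-1) = - i + 2 i (1 - Z)^(-1)`. -/
def Wof (Z : C3) : C3 :=
  (-Complex.I + 2 * Complex.I * (1 - Z.2.2) / del Z, 2 * Complex.I * Z.2.1 / del Z,
    -Complex.I + 2 * Complex.I * (1 - Z.1) / del Z)

/-- `det (W + i)`. -/
def Del (W : C3) : ℂ := (W.1 + Complex.I) * (W.2.2 + Complex.I) - W.2.1 ^ 2

/-- The inverse Cayley transform `Z = 1 - 2 i (W + i)^(-1)`. -/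
def Psi (W : C3) : C3 :=
  (1 - 2 * Complex.I * (W.2.2 + Complex.I) / Del W, 2 * Complex.I * W.2.1 / Del W,
    1 - 2 * Complex.I * (W.1 + Complex.I) / Del W)

/-- Real symmetric matrices as complex ones. -/
def toC (X : R3) : C3 := ((X.1 : ℂ), (X.2.1 : ℂ), (X.2.2 : ℂ))

/-- The closed tube: `Im W ≥ 0`. -/
def ClosedTube : Set C3 :=
  {W | 0 ≤ W.1.im ∧ 0 ≤ W.2.2.im ∧ W.2.1.im ^ 2 ≤ W.1.im * W.2.2.im}

/-- The null functional `p - 2 a r + a^2 q`. -/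
def lin (a : ℝ) (W : C3) : ℂ := W.2.2 - 2 * a * W.2.1 + a ^ 2 * W.1

/-- The transversal coordinate `r - a q - b`. -/
def tr (a b : ℝ) (W : C3) : ℂ := W.2.1 - a * W.1 - b

/-- The wave packet of the line `r = a q + b`. -/
def packet (N a b : ℝ) (W : C3) : ℂ :=
  Complex.exp (Complex.I * N * lin a W - (N / 4) * tr a b W ^ 2)

/-- Cut-off function of `q`. -/
def chi (q : ℂ) : ℝ :=
  Real.smoothTransition ((q.re + 16) / 8) * Real.smoothTransition ((1 / 8 - q.re) * 4) *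
    Real.smoothTransition (2 - q.im)

/-- The function `A_K(q) = (q / (q + i)^2)^K`. -/
def AK (K : ℕ) (z : ℂ) : ℂ := (z / (z + Complex.I) ^ 2) ^ K

/-- real version of `lin` -/
def linR (a : ℝ) (X : R3) : ℝ := X.2.2 - 2 * a * X.2.1 + a ^ 2 * X.1

/-- One piece of the annihilating measure. -/
def G (K : ℕ) (N a b w : ℝ) (X : R3) : ℂ :=
  if 0 ≤ linR a X ∧ linR a X ≤ 1 ∧ |X.2.1 - a * X.1 - b| ≤ w / 16 then
    AK K (X.1 : ℂ) * Complex.exp (-(Complex.I * N * linR a X)) else 0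

/-- The function of `W`: `chi(q) * ∑ ε_k packet_k`. -/
def Ufun {m : ℕ} (N : ℝ) (a b ε : Fin m → ℝ) (W : C3) : ℂ :=
  (chi W.1 : ℂ) * ∑ k, (ε k : ℂ) * packet N (a k) (b k) W

/-- `∂bar` of a function of three complex variables in direction `v`. -/
def dbarV (u : C3 → ℂ) (Z v : C3) : ℂ :=
  (1 / 2 : ℂ) * (fderiv ℝ u Z v + Complex.I * fderiv ℝ u Z (Complex.I • v))

/-- The rest set, where `A_K` is small. -/
def restSet : Set ℝ := {x | |x| < 1 / 4 ∨ 4 < |x|}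

end Pool.Agent.P9749df
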