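import Pool.Agent.Lib.P9749df.Basic

/-!
# The Cayley transform on symmetric `2 × 2` matrices
-/

open MeasureTheory Set Filter Topology

namespace Pool.Agent.P9749df

private lemma nsq (z : ℂ) : ‖z‖ ^ 2 = z.re ^ 2 + z.im ^ 2 := by
  rw [Complex.sq_norm, Complex.normSq_apply]
  ring

private lemma norm_sq_pos {ξ η : ℂ} (h : ¬ (ξ = 0 ∧ η = 0)) : 0 < ‖ξ‖ ^ 2 + ‖η‖ ^ 2 := by
  rcases not_and_or.mp h with h | h
  · have := norm_pos_iff.mpr h
    positivity
  · have := norm_pos_iff.mpr h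
    positivity

/-- the defect of norms -/
private noncomputable def dfct (Z : C3) (x : ℂ × ℂ) : ℝ :=
  ‖x.1‖ ^ 2 + ‖x.2‖ ^ 2 -
    (‖Z.1 * x.1 + Z.2.1 * x.2‖ ^ 2 + ‖Z.2.1 * x.1 + Z.2.2 * x.2‖ ^ 2)

private lemma continuous_dfct : Continuous (fun y : C3 × (ℂ × ℂ) => dfct y.1 y.2) := by
  unfold dfct
  fun_prop

private lemma dfct_smul (Z : C3) (x : ℂ × ℂ) (c : ℝ) :
    dfct Z ((c : ℂ) • x) = c ^ 2 * dfct Z x := by
  unfold dfct
  have e1 : Z.1 * ((c : ℂ) • x).1 + Z.2.1 * ((c : ℂ) • x).2 =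
      (c : ℂ) * (Z.1 * x.1 + Z.2.1 * x.2) := by
    simp only [Prod.smul_fst, Prod.smul_snd, smul_eq_mul]
    ring
  have e2 : Z.2.1 * ((c : ℂ) • x).1 + Z.2.2 * ((c : ℂ) • x).2 =
      (c : ℂ) * (Z.2.1 * x.1 + Z.2.2 * x.2) := by
    simp only [Prod.smul_fst, Prod.smul_snd, smul_eq_mul]
    ring
  rw [e1, e2]
  simp only [Prod.smul_fst, Prod.smul_snd, smul_eq_mul, norm_mul, Complex.norm_real,
    Real.norm_eq_abs, mul_pow, sq_abs]
  ring

private lemma mem_symBall_iff (Z : C3) :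
    Z ∈ SymBall ↔ ∀ x ∈ Metric.sphere (0 : ℂ × ℂ) 1, 0 < dfct Z x := by
  constructor
  · rintro hZ ⟨ξ, η⟩ hx
    have hne : ¬ (ξ = 0 ∧ η = 0) := by
      rintro ⟨rfl, rfl⟩
      simp at hx
    have := hZ ξ η hne
    unfold dfct
    simp only
    linarith
  · intro h ξ η hne
    set x : ℂ × ℂ := (ξ, η) with hx
    have hx0 : x ≠ 0 := by
      intro h0
      apply hne
      rw [hx, Prod.mk_eq_zero] at h0
      exact h0
    have hn : 0 < ‖x‖ := norm_pos_iff.mpr hx0
    have h1 := h (((‖x‖⁻¹ : ℝ) : ℂ) • x) (by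
      rw [mem_sphere_zero_iff_norm, norm_smul, Complex.norm_real, Real.norm_eq_abs,
        abs_of_pos (inv_pos.mpr hn), inv_mul_cancel₀ hn.ne'])
    rw [dfct_smul] at h1
    have h2 : 0 < dfct Z x := by
      rcases pos_and_pos_or_neg_and_neg_of_mul_pos h1 with h3 | h3
      · exact h3.2
      · exact absurd h3.1 (not_lt.mpr (by positivity))
    unfold dfct at h2
    rw [hx] at h2
    simp only at h2
    linarith

theorem isOpen_symBall : IsOpen SymBall := by
  rw [isOpen_iff_eventually]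
  intro Z hZ
  rw [mem_symBall_iff] at hZ
  have hK : IsCompact (Metric.sphere (0 : ℂ × ℂ) 1) := isCompact_sphere _ _
  have h1 : ∀ x ∈ Metric.sphere (0 : ℂ × ℂ) 1,
      ∀ᶠ y : C3 × (ℂ × ℂ) in 𝓝 (Z, x), 0 < dfct y.1 y.2 := by
    intro x hx
    exact continuous_dfct.continuousAt.eventually_const_lt (hZ x hx)
  have h2 := hK.eventually_forall_of_forall_eventually (P := fun Z x => 0 < dfct Z x) h1
  filter_upwards [h2] with Y hY
  rw [mem_symBall_iff]
  exact hY

theorem isCompact_closedSymBall : IsCompact ClosedSymBall := by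
  apply Metric.isCompact_of_isClosed_isBounded
  · have h : ClosedSymBall = ⋂ x : ℂ × ℂ, {Z : C3 | 0 ≤ dfct Z x} := by
      ext Z
      simp only [ClosedSymBall, mem_ofPred_eq, mem_iInter, dfct]
      constructor
      · rintro h ⟨ξ, η⟩
        have := h ξ η
        simp only
        linarith
      · intro h ξ η
        have := h (ξ, η)
        simp only at this
        linarith
    rw [h]
    apply isClosed_iInter
    intro x
    apply isClosed_le continuous_const
    exact continuous_dfct.comp (Continuous.prodMk continuous_id continuous_const)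
  · rw [isBounded_iff_forall_norm_le]
    refine ⟨1, fun Z hZ => ?_⟩
    have h1 := hZ 1 0
    have h2 := hZ 0 1
    simp only [mul_one, mul_zero, add_zero, zero_add, norm_one, norm_zero] at h1 h2
    have e1 : ‖Z.1‖ ≤ 1 := by nlinarith [norm_nonneg Z.1, sq_nonneg ‖Z.2.1‖]
    have e2 : ‖Z.2.1‖ ≤ 1 := by nlinarith [norm_nonneg Z.2.1, sq_nonneg ‖Z.1‖]
    have e3 : ‖Z.2.2‖ ≤ 1 := by nlinarith [norm_nonneg Z.2.2, sq_nonneg ‖Z.2.1‖]
    rw [Prod.norm_def, Prod.norm_def]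
    exact max_le e1 (max_le e2 e3)

theorem smul_mem_symBall {Z : C3} (hZ : Z ∈ ClosedSymBall) {ϱ : ℝ} (h0 : 0 ≤ ϱ) (h1 : ϱ < 1) :
    (ϱ : ℂ) • Z ∈ SymBall := by
  intro ξ η hne
  have hpos := norm_sq_pos hne
  have h2 := hZ ξ η
  have e1 : ((ϱ : ℂ) • Z).1 * ξ + ((ϱ : ℂ) • Z).2.1 * η = (ϱ : ℂ) * (Z.1 * ξ + Z.2.1 * η) := by
    simp only [Prod.smul_fst, Prod.smul_snd, smul_eq_mul]
    ring
  have e2 : ((ϱ : ℂ) • Z).2.1 * ξ + ((ϱ : ℂ) • Z).2.2 * η =
      (ϱ : ℂ) * (Z.2.1 * ξ + Z.2.2 * η) := by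
    simp only [Prod.smul_fst, Prod.smul_snd, smul_eq_mul]
    ring
  rw [e1, e2, norm_mul, norm_mul, Complex.norm_real, Real.norm_eq_abs, mul_pow, mul_pow, sq_abs,
    ← mul_add]
  have h3 : ϱ ^ 2 < 1 := by nlinarith
  have h4 : ϱ ^ 2 * (‖Z.1 * ξ + Z.2.1 * η‖ ^ 2 + ‖Z.2.1 * ξ + Z.2.2 * η‖ ^ 2) ≤
      ϱ ^ 2 * (‖ξ‖ ^ 2 + ‖η‖ ^ 2) := mul_le_mul_of_nonneg_left h2 (sq_nonneg _)
  nlinarith

/-- PROOF. If `det (1 - Z) = 0` there is `(ξ, η) ≠ 0` with `Z (ξ, η) = (ξ, η)`, contradicting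
`‖Z (ξ, η)‖ < ‖(ξ, η)‖`. (Explicitly: `ξ = z2, η = 1 - z1`, or `ξ = 1 - z3, η = z2`, or
`(1, 0)` if all these vanish.) -/
theorem del_ne_zero {Z : C3} (hZ : Z ∈ SymBall) : del Z ≠ 0 := by
  intro h
  unfold del at h
  have h1 := hZ Z.2.1 (1 - Z.1)
  have hne : ¬ (Z.2.1 = 0 ∧ 1 - Z.1 = 0) := by
    rintro ⟨h2, h3⟩
    have h4 := hZ 1 0 (by simp)
    have h5 : Z.1 = 1 := by linear_combination -h3
    rw [h2, h5] at h4
    simp at h4
  have h2 := h1 hne
  have e1 : Z.1 * Z.2.1 + Z.2.1 * (1 - Z.1) = Z.2.1 := by ring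
  have e2 : Z.2.1 * Z.2.1 + Z.2.2 * (1 - Z.1) = 1 - Z.1 := by linear_combination -h
  rw [e1, e2] at h2
  exact lt_irrefl _ h2

private lemma re_identity (u A : ℂ) :
    ((starRingEnd ℂ) (u - A) * (Complex.I * (u + A))).im = ‖u‖ ^ 2 - ‖A‖ ^ 2 := by
  rw [nsq, nsq]
  simp only [Complex.mul_im, Complex.mul_re, Complex.conj_re, Complex.conj_im, Complex.sub_re,
    Complex.sub_im, Complex.add_re, Complex.add_im, Complex.I_re, Complex.I_im]
  ring

/-- the quadratic form of `Wof Z` -/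
private lemma wof_form {Z : C3} (hZ : Z ∈ SymBall) (s t : ℝ) (hst : ¬ (s = 0 ∧ t = 0)) :
    0 < (Wof Z).1.im * s ^ 2 + 2 * (Wof Z).2.1.im * (s * t) + (Wof Z).2.2.im * t ^ 2 := by
  have hd := del_ne_zero hZ
  set d := del Z with hdd
  have hd2 : (1 - Z.1) * (1 - Z.2.2) - Z.2.1 ^ 2 = d := rfl
  set u : ℂ := ((1 - Z.2.2) * s + Z.2.1 * t) / d with hu
  set v : ℂ := (Z.2.1 * s + (1 - Z.1) * t) / d with hv
  set A : ℂ := Z.1 * u + Z.2.1 * v with hA
  set B : ℂ := Z.2.1 * u + Z.2.2 * v with hB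
  have hud : u * d = (1 - Z.2.2) * s + Z.2.1 * t := by rw [hu]; field_simp
  have hvd : v * d = Z.2.1 * s + (1 - Z.1) * t := by rw [hv]; field_simp
  have hs : (s : ℂ) = u - A := by
    apply mul_right_cancel₀ hd
    have : (u - A) * d = (1 - Z.1) * (u * d) - Z.2.1 * (v * d) := by rw [hA]; ring
    rw [this, hud, hvd, ← hd2]
    ring
  have ht : (t : ℂ) = v - B := by
    apply mul_right_cancel₀ hd
    have : (v - B) * d = (1 - Z.2.2) * (v * d) - Z.2.1 * (u * d) := by rw [hB]; ring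
    rw [this, hud, hvd, ← hd2]
    ring
  have hne : ¬ (u = 0 ∧ v = 0) := by
    rintro ⟨h1, h2⟩
    apply hst
    have h3 : A = 0 := by rw [hA, h1, h2]; ring
    have h4 : B = 0 := by rw [hB, h1, h2]; ring
    rw [h1, h3] at hs
    rw [h2, h4] at ht
    constructor
    · have : (s : ℂ) = 0 := by rw [hs]; ring
      exact_mod_cast this
    · have : (t : ℂ) = 0 := by rw [ht]; ring
      exact_mod_cast this
  have hW1 : (Wof Z).1 * s + (Wof Z).2.1 * t = Complex.I * (u + A) := by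
    have e1 : (Wof Z).1 = -Complex.I + 2 * Complex.I * (1 - Z.2.2) / d := rfl
    have e2 : (Wof Z).2.1 = 2 * Complex.I * Z.2.1 / d := rfl
    have e3 : (Wof Z).1 * s + (Wof Z).2.1 * t = -Complex.I * s + 2 * Complex.I * u := by
      rw [e1, e2, hu]
      field_simp
      ring
    rw [e3, hs]
    ring
  have hW2 : (Wof Z).2.1 * s + (Wof Z).2.2 * t = Complex.I * (v + B) := by
    have e1 : (Wof Z).2.2 = -Complex.I + 2 * Complex.I * (1 - Z.1) / d := rfl
    have e2 : (Wof Z).2.1 = 2 * Complex.I * Z.2.1 / d := rfl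
    have e3 : (Wof Z).2.1 * s + (Wof Z).2.2 * t = -Complex.I * t + 2 * Complex.I * v := by
      rw [e1, e2, hv]
      field_simp
      ring
    rw [e3, ht]
    ring
  have h5 := hZ u v hne
  have e1 : ((starRingEnd ℂ) (s : ℂ) * ((Wof Z).1 * s + (Wof Z).2.1 * t)).im =
      ‖u‖ ^ 2 - ‖A‖ ^ 2 := by
    rw [hW1, hs]
    exact re_identity u A
  have e2 : ((starRingEnd ℂ) (t : ℂ) * ((Wof Z).2.1 * s + (Wof Z).2.2 * t)).im =
      ‖v‖ ^ 2 - ‖B‖ ^ 2 := by
    rw [hW2, ht]
    exact re_identity v B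
  have e3 : ((starRingEnd ℂ) (s : ℂ) * ((Wof Z).1 * s + (Wof Z).2.1 * t)).im =
      (Wof Z).1.im * s ^ 2 + (Wof Z).2.1.im * (s * t) := by
    rw [Complex.conj_ofReal]
    simp only [Complex.mul_im, Complex.add_im, Complex.ofReal_re, Complex.ofReal_im,
      Complex.add_re, Complex.mul_re]
    ring
  have e4 : ((starRingEnd ℂ) (t : ℂ) * ((Wof Z).2.1 * s + (Wof Z).2.2 * t)).im =
      (Wof Z).2.1.im * (s * t) + (Wof Z).2.2.im * t ^ 2 := by
    rw [Complex.conj_ofReal]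
    simp only [Complex.mul_im, Complex.add_im, Complex.ofReal_re, Complex.ofReal_im,
      Complex.add_re, Complex.mul_re]
    ring
  rw [e3] at e1
  rw [e4] at e2
  linarith

/-- `W = Wof Z` has positive imaginary part.

PROOF. For real `(s, t) ≠ 0` let `η = (1 - Z)^(-1) (s, t)`, i.e.
`η = ((1 - z3) s + z2 t, z2 s + (1 - z1) t) / del Z`. Then `(s, t) = (1 - Z) η`,
`W (s, t) = i (1 + Z) η`, so `Im (q s^2 + 2 r s t + p t^2) = Im ⟨W (s,t), (s,t)⟩
= ‖η‖^2 - ‖Z η‖^2 > 0`. So the real quadratic form `q.im s^2 + 2 r.im s t + p.im t^2` is positive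
definite: take `(s, t) = (1, 0)` and `(s, t) = (-r.im, q.im)`. -/
theorem wof_tube {Z : C3} (hZ : Z ∈ SymBall) :
    0 < (Wof Z).1.im ∧ (Wof Z).2.1.im ^ 2 ≤ (Wof Z).1.im * (Wof Z).2.2.im := by
  have h1 : 0 < (Wof Z).1.im := by
    have := wof_form hZ 1 0 (by simp)
    simpa using this
  refine ⟨h1, ?_⟩
  have h2 := wof_form hZ (-(Wof Z).2.1.im) (Wof Z).1.im (fun h => h1.ne' h.2)
  set q := (Wof Z).1.im
  set r := (Wof Z).2.1.im
  set p := (Wof Z).2.2.im
  have h3 : 0 < q * (q * p - r ^ 2) := by nlinarith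
  have h4 : 0 < q * p - r ^ 2 := by
    rcases pos_and_pos_or_neg_and_neg_of_mul_pos h3 with h | h
    · exact h.2
    · exact absurd h.1 (not_lt.mpr h1.le)
  linarith

private lemma real_form {a b c : ℝ} (ha : 0 ≤ a) (hc : 0 ≤ c) (hb : b ^ 2 ≤ a * c) (x y : ℝ) :
    0 ≤ a * x ^ 2 + 2 * b * (x * y) + c * y ^ 2 := by
  rcases ha.eq_or_lt with h | h
  · rw [← h] at hb ⊢
    have hb0 : b = 0 := by
      have : b ^ 2 ≤ 0 := by linarith
      exact pow_eq_zero_iff (two_ne_zero) |>.mp (le_antisymm this (sq_nonneg b))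
    rw [hb0]
    have : 0 ≤ c * y ^ 2 := by positivity
    linarith
  · have h1 : 0 ≤ a * (a * x ^ 2 + 2 * b * (x * y) + c * y ^ 2) := by
      have : a * (a * x ^ 2 + 2 * b * (x * y) + c * y ^ 2) =
        (a * x + b * y) ^ 2 + (a * c - b ^ 2) * y ^ 2 := by ring
      rw [this]
      have h2 : 0 ≤ (a * c - b ^ 2) * y ^ 2 := mul_nonneg (by linarith) (sq_nonneg _)
      positivity
    exact nonneg_of_mul_nonneg_right h1 h

/-- `Im ζ* W ζ ≥ 0` on the closed tube -/
private lemma tube_form {W : C3} (hW : W ∈ ClosedTube) (u v : ℂ) :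
    0 ≤ ((starRingEnd ℂ) u * (W.1 * u + W.2.1 * v) +
      (starRingEnd ℂ) v * (W.2.1 * u + W.2.2 * v)).im := by
  obtain ⟨h1, h2, h3⟩ := hW
  have e : ((starRingEnd ℂ) u * (W.1 * u + W.2.1 * v) +
      (starRingEnd ℂ) v * (W.2.1 * u + W.2.2 * v)).im =
      (W.1.im * u.re ^ 2 + 2 * W.2.1.im * (u.re * v.re) + W.2.2.im * v.re ^ 2) +
      (W.1.im * u.im ^ 2 + 2 * W.2.1.im * (u.im * v.im) + W.2.2.im * v.im ^ 2) := by
    simp only [Complex.mul_im, Complex.mul_re, Complex.conj_re, Complex.conj_im,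
      Complex.add_re, Complex.add_im]
    ring
  rw [e]
  have a1 := real_form h1 h2 h3 u.re v.re
  have a2 := real_form h1 h2 h3 u.im v.im
  linarith

/-- PROOF. If `det (W + i) = 0` there is `ξ = (ξ1, ξ2) ≠ 0` in `ℂ^2` with `(W + i) ξ = 0`. Then
`0 = Im (ξ* (W + i) ξ) = ‖ξ‖^2 + (Im q |ξ1|^2 + 2 Im r Re (conj ξ1 ξ2) + Im p |ξ2|^2)`, and the
bracket is `≥ 0` since `Im r^2 ≤ Im q Im p`. -/
theorem Del_ne_zero {W : C3} (hW : W ∈ ClosedTube) : Del W ≠ 0 := by
  intro h
  unfold Del at h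
  set u : ℂ := W.2.1 with hu
  set v : ℂ := -(W.1 + Complex.I) with hv
  have hv0 : v ≠ 0 := by
    intro h0
    have h1 : W.1 + Complex.I = 0 := by
      have := congrArg Neg.neg h0
      simpa [hv] using this
    have h2 := congrArg Complex.im h1
    simp only [Complex.add_im, Complex.I_im, Complex.zero_im] at h2
    have := hW.1
    linarith
  have h1 : W.1 * u + W.2.1 * v = -Complex.I * u := by
    rw [hv, hu]
    ring
  have h2 : W.2.1 * u + W.2.2 * v = -Complex.I * v := by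
    rw [hv]
    linear_combination -h
  have h3 := tube_form hW u v
  rw [h1, h2] at h3
  have h4 : ((starRingEnd ℂ) u * (-Complex.I * u) + (starRingEnd ℂ) v * (-Complex.I * v)).im =
      -(‖u‖ ^ 2 + ‖v‖ ^ 2) := by
    rw [nsq, nsq]
    simp only [Complex.mul_im, Complex.mul_re, Complex.conj_re, Complex.conj_im,
      Complex.add_im, Complex.neg_re, Complex.neg_im, Complex.I_re, Complex.I_im]
    ring
  rw [h4] at h3
  have h5 := norm_sq_pos (ξ := u) (η := v) (fun hh => hv0 hh.2)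
  linarith

private lemma norm_diff (A u : ℂ) :
    ‖A + Complex.I * u‖ ^ 2 - ‖A - Complex.I * u‖ ^ 2 = 4 * ((starRingEnd ℂ) u * A).im := by
  rw [nsq, nsq]
  simp only [Complex.mul_im, Complex.mul_re, Complex.conj_re, Complex.conj_im, Complex.sub_re,
    Complex.sub_im, Complex.add_re, Complex.add_im, Complex.I_re, Complex.I_im]
  ring

/-- PROOF. For `ξ ∈ ℂ^2` put `ζ = (W + i)^(-1) ξ` (so `ξ = (W + i) ζ`); `Psi W ξ = (W - i) ζ`, and
`‖(W + i) ζ‖^2 - ‖(W - i) ζ‖^2 = 4 Im (ζ* W ζ) ≥ 0`. -/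
theorem psi_mem {W : C3} (hW : W ∈ ClosedTube) : Psi W ∈ ClosedSymBall := by
  intro ξ η
  have hd := Del_ne_zero hW
  set d := Del W with hdd
  have hd2 : (W.1 + Complex.I) * (W.2.2 + Complex.I) - W.2.1 ^ 2 = d := rfl
  set u : ℂ := ((W.2.2 + Complex.I) * ξ - W.2.1 * η) / d with hu
  set v : ℂ := (-W.2.1 * ξ + (W.1 + Complex.I) * η) / d with hv
  have hud : u * d = (W.2.2 + Complex.I) * ξ - W.2.1 * η := by rw [hu]; field_simp
  have hvd : v * d = -W.2.1 * ξ + (W.1 + Complex.I) * η := by rw [hv]; field_simp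
  set A : ℂ := W.1 * u + W.2.1 * v with hA
  set B : ℂ := W.2.1 * u + W.2.2 * v with hB
  have h1 : ξ = A + Complex.I * u := by
    apply mul_right_cancel₀ hd
    have : (A + Complex.I * u) * d = (W.1 + Complex.I) * (u * d) + W.2.1 * (v * d) := by
      rw [hA]; ring
    rw [this, hud, hvd, ← hd2]
    ring
  have h2 : η = B + Complex.I * v := by
    apply mul_right_cancel₀ hd
    have : (B + Complex.I * v) * d = W.2.1 * (u * d) + (W.2.2 + Complex.I) * (v * d) := by
      rw [hB]; ring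
    rw [this, hud, hvd, ← hd2]
    ring
  have h3 : (Psi W).1 * ξ + (Psi W).2.1 * η = A - Complex.I * u := by
    have e1 : (Psi W).1 = 1 - 2 * Complex.I * (W.2.2 + Complex.I) / d := rfl
    have e2 : (Psi W).2.1 = 2 * Complex.I * W.2.1 / d := rfl
    have e3 : (Psi W).1 * ξ + (Psi W).2.1 * η = ξ - 2 * Complex.I * u := by
      rw [e1, e2, hu]
      field_simp
      ring
    rw [e3, h1]
    ring
  have h4 : (Psi W).2.1 * ξ + (Psi W).2.2 * η = B - Complex.I * v := by
    have e1 : (Psi W).2.2 = 1 - 2 * Complex.I * (W.1 + Complex.I) / d := rfl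
    have e2 : (Psi W).2.1 = 2 * Complex.I * W.2.1 / d := rfl
    have e3 : (Psi W).2.1 * ξ + (Psi W).2.2 * η = η - 2 * Complex.I * v := by
      rw [e1, e2, hv]
      field_simp
      ring
    rw [e3, h2]
    ring
  rw [h3, h4]
  have h5 := tube_form hW u v
  have h6 := norm_diff A u
  have h7 := norm_diff B v
  rw [← h1] at h6
  rw [← h2] at h7
  rw [Complex.add_im, ← hA, ← hB] at h5
  linarith

theorem wof_psi {W : C3} (hW : Del W ≠ 0) : Wof (Psi W) = W := by
  have hI : Complex.I ^ 2 = -1 := Complex.I_sq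
  set d := Del W with hdd
  have hd2 : (W.1 + Complex.I) * (W.2.2 + Complex.I) - W.2.1 ^ 2 = d := rfl
  have e1 : (Psi W).1 = 1 - 2 * Complex.I * (W.2.2 + Complex.I) / d := rfl
  have e2 : (Psi W).2.1 = 2 * Complex.I * W.2.1 / d := rfl
  have e3 : (Psi W).2.2 = 1 - 2 * Complex.I * (W.1 + Complex.I) / d := rfl
  have hdel : del (Psi W) = -4 / d := by
    unfold del
    rw [e1, e2, e3]
    have : (1 - (1 - 2 * Complex.I * (W.2.2 + Complex.I) / d)) *
        (1 - (1 - 2 * Complex.I * (W.1 + Complex.I) / d)) - (2 * Complex.I * W.2.1 / d) ^ 2 =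
        (4 * Complex.I ^ 2) * ((W.1 + Complex.I) * (W.2.2 + Complex.I) - W.2.1 ^ 2) / d ^ 2 := by
      field_simp
      ring
    rw [this, hd2, hI]
    field_simp
  have f1 : (Wof (Psi W)).1 = W.1 := by
    show -Complex.I + 2 * Complex.I * (1 - (Psi W).2.2) / del (Psi W) = W.1
    rw [hdel, e3]
    have : 2 * Complex.I * (1 - (1 - 2 * Complex.I * (W.1 + Complex.I) / d)) / (-4 / d) =
        -(Complex.I ^ 2) * (W.1 + Complex.I) := by
      field_simp
      ring
    rw [this, hI]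
    ring
  have f2 : (Wof (Psi W)).2.1 = W.2.1 := by
    show 2 * Complex.I * (Psi W).2.1 / del (Psi W) = W.2.1
    rw [hdel, e2]
    have : 2 * Complex.I * (2 * Complex.I * W.2.1 / d) / (-4 / d) =
        -(Complex.I ^ 2) * W.2.1 := by
      field_simp
      ring
    rw [this, hI]
    ring
  have f3 : (Wof (Psi W)).2.2 = W.2.2 := by
    show -Complex.I + 2 * Complex.I * (1 - (Psi W).1) / del (Psi W) = W.2.2
    rw [hdel, e1]
    have : 2 * Complex.I * (1 - (1 - 2 * Complex.I * (W.2.2 + Complex.I) / d)) / (-4 / d) =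
        -(Complex.I ^ 2) * (W.2.2 + Complex.I) := by
      field_simp
      ring
    rw [this, hI]
    ring
  exact Prod.ext f1 (Prod.ext f2 f3)

theorem toC_mem (X : R3) : toC X ∈ ClosedTube := by
  simp [toC, ClosedTube]

private lemma continuousAt_wof {Z : C3} (hZ : del Z ≠ 0) : ContinuousAt Wof Z := by
  have hdel : Continuous del := by
    unfold del
    fun_prop
  have hc : ContinuousAt del Z := hdel.continuousAt
  unfold Wof
  refine ContinuousAt.prodMk ?_ (ContinuousAt.prodMk ?_ ?_)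
  · refine ContinuousAt.add continuousAt_const (ContinuousAt.div ?_ hc hZ)
    fun_prop
  · refine ContinuousAt.div ?_ hc hZ
    fun_prop
  · refine ContinuousAt.add continuousAt_const (ContinuousAt.div ?_ hc hZ)
    fun_prop

/-- PROOF. `Wof` is continuous at `Psi (toC X)` (`del (Psi W) = - 4 / Del W ≠ 0`). -/
theorem wof_tendsto (X : R3) :
    Tendsto (fun ϱ : ℝ => Wof ((ϱ : ℂ) • Psi (toC X))) (𝓝 1) (𝓝 (toC X)) := by
  have hD := Del_ne_zero (toC_mem X)
  have hw := wof_psi hD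
  have hdel : del (Psi (toC X)) ≠ 0 := by
    intro h0
    -- at a zero of `del` the transform degenerates
    have hI : Complex.I ^ 2 = -1 := Complex.I_sq
    set W := toC X with hW
    set d := Del W with hdd
    have hd2 : (W.1 + Complex.I) * (W.2.2 + Complex.I) - W.2.1 ^ 2 = d := rfl
    have : del (Psi W) = -4 / d := by
      unfold del
      have e1 : (Psi W).1 = 1 - 2 * Complex.I * (W.2.2 + Complex.I) / d := rfl
      have e2 : (Psi W).2.1 = 2 * Complex.I * W.2.1 / d := rfl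
      have e3 : (Psi W).2.2 = 1 - 2 * Complex.I * (W.1 + Complex.I) / d := rfl
      rw [e1, e2, e3]
      have : (1 - (1 - 2 * Complex.I * (W.2.2 + Complex.I) / d)) *
          (1 - (1 - 2 * Complex.I * (W.1 + Complex.I) / d)) - (2 * Complex.I * W.2.1 / d) ^ 2 =
          (4 * Complex.I ^ 2) * ((W.1 + Complex.I) * (W.2.2 + Complex.I) - W.2.1 ^ 2) / d ^ 2 := by
        field_simp
        ring
      rw [this, hd2, hI]
      field_simp
    rw [this] at h0
    have h4 : (-4 : ℂ) ≠ 0 := by norm_num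
    exact div_ne_zero h4 hD h0
  have hc : ContinuousAt Wof (((1 : ℝ) : ℂ) • Psi (toC X)) := by
    rw [Complex.ofReal_one, one_smul]
    exact continuousAt_wof hdel
  have hf : ContinuousAt (fun ϱ : ℝ => ((ϱ : ℂ) • Psi (toC X))) 1 := by
    have : Continuous (fun ϱ : ℝ => ((ϱ : ℂ) • Psi (toC X))) := by fun_prop
    exact this.continuousAt
  have h := ContinuousAt.comp (f := fun ϱ : ℝ => ((ϱ : ℂ) • Psi (toC X))) (x := (1:ℝ)) hc hf
  have h2 : Tendsto (fun ϱ : ℝ => Wof ((ϱ : ℂ) • Psi (toC X))) (𝓝 1)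
      (𝓝 (Wof (((1 : ℝ) : ℂ) • Psi (toC X)))) := h
  rw [Complex.ofReal_one, one_smul, hw] at h2
  exact h2

theorem wof_differentiableOn : DifferentiableOn ℂ Wof SymBall := by
  intro Z hZ
  have hd := del_ne_zero hZ
  have hdel : DifferentiableAt ℂ del Z := by
    unfold del
    fun_prop
  have hinv : DifferentiableAt ℂ (fun Y : C3 => (del Y)⁻¹) Z := hdel.fun_inv hd
  apply DifferentiableAt.differentiableWithinAt
  unfold Wof
  simp only [div_eq_mul_inv]
  refine DifferentiableAt.prodMk ?_ (DifferentiableAt.prodMk ?_ ?_)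
  · fun_prop
  · fun_prop
  · fun_prop

theorem continuous_psi_toC : Continuous (fun X : R3 => Psi (toC X)) := by
  have h1 : Continuous (fun X : R3 => (toC X).1) := by
    unfold toC
    fun_prop
  have h2 : Continuous (fun X : R3 => (toC X).2.1) := by
    unfold toC
    fun_prop
  have h3 : Continuous (fun X : R3 => (toC X).2.2) := by
    unfold toC
    fun_prop
  have hD : Continuous (fun X : R3 => Del (toC X)) := by
    unfold Del
    fun_prop
  have hne : ∀ X : R3, Del (toC X) ≠ 0 := fun X => Del_ne_zero (toC_mem X)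
  unfold Psi
  refine Continuous.prodMk ?_ (Continuous.prodMk ?_ ?_)
  · refine Continuous.sub continuous_const (Continuous.div ?_ hD hne)
    fun_prop
  · refine Continuous.div ?_ hD hne
    fun_prop
  · refine Continuous.sub continuous_const (Continuous.div ?_ hD hne)
    fun_prop

end Pool.Agent.P9749df
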