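import Pool.Agent.Lib.P9749df.Basic

/-!
# The cut-off function
-/

open MeasureTheory Set
open scoped ContDiff

namespace Pool.Agent.P9749df

theorem chi_nonneg (q : ℂ) : 0 ≤ chi q := by
  unfold chi
  exact mul_nonneg (mul_nonneg (Real.smoothTransition.nonneg _) (Real.smoothTransition.nonneg _))
    (Real.smoothTransition.nonneg _)

theorem chi_le_one (q : ℂ) : chi q ≤ 1 := by
  unfold chi
  have h1 := Real.smoothTransition.le_one ((q.re + 16) / 8)
  have h2 := Real.smoothTransition.le_one ((1 / 8 - q.re) * 4)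
  have h3 := Real.smoothTransition.le_one (2 - q.im)
  have g1 := Real.smoothTransition.nonneg ((q.re + 16) / 8)
  have g2 := Real.smoothTransition.nonneg ((1 / 8 - q.re) * 4)
  have g3 := Real.smoothTransition.nonneg (2 - q.im)
  exact mul_le_one₀ (mul_le_one₀ h1 g2 h2) g3 h3

theorem chi_contDiff : ContDiff ℝ ∞ chi := by
  unfold chi
  have hre : ContDiff ℝ ∞ (fun q : ℂ => q.re) := Complex.reCLM.contDiff
  have him : ContDiff ℝ ∞ (fun q : ℂ => q.im) := Complex.imCLM.contDiff
  have hs : ContDiff ℝ ∞ Real.smoothTransition := Real.smoothTransition.contDiff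
  exact ((hs.comp ((hre.add contDiff_const).div_const 8)).mul
    (hs.comp ((contDiff_const.sub hre).mul contDiff_const))).mul
      (hs.comp (contDiff_const.sub him))

theorem chi_eq_zero_of_im {q : ℂ} (h : 2 ≤ q.im) : chi q = 0 := by
  unfold chi
  rw [Real.smoothTransition.zero_of_nonpos (x := 2 - q.im) (by linarith), mul_zero]

theorem chi_eq_zero_of_re {q : ℂ} (h : 1 / 8 ≤ q.re) : chi q = 0 := by
  unfold chi
  rw [Real.smoothTransition.zero_of_nonpos (x := (1 / 8 - q.re) * 4) (by linarith), mul_zero,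
    zero_mul]

theorem chi_eq_zero_of_re' {q : ℂ} (h : q.re ≤ -16) : chi q = 0 := by
  unfold chi
  rw [Real.smoothTransition.zero_of_nonpos (x := (q.re + 16) / 8) (by linarith), zero_mul,
    zero_mul]

theorem chi_eq_one {q : ℂ} (h1 : -8 ≤ q.re) (h2 : q.re ≤ -(1 / 8)) (h3 : q.im ≤ 1) :
    chi q = 1 := by
  unfold chi
  rw [Real.smoothTransition.one_of_one_le (x := (q.re + 16) / 8) (by linarith),
    Real.smoothTransition.one_of_one_le (x := (1 / 8 - q.re) * 4) (by linarith),
    Real.smoothTransition.one_of_one_le (x := 2 - q.im) (by linarith)]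
  norm_num

/-- The derivative vanishes off the transition zone.

PROOF. `chi` is locally constant on the open set of the remaining points (values 0 or 1 on the
open sets `re < -16`, `re > 1/8`, `im > 2`, `-8 < re < -1/8 ∧ im < 1`). -/
theorem fderiv_chi_eq_zero {q : ℂ} (h : ¬ ((-16 ≤ q.re ∧ q.re ≤ 1 / 8) ∧ q.im ≤ 2 ∧
    (1 ≤ q.im ∨ q.re ≤ -8 ∨ -(1 / 8) ≤ q.re))) : fderiv ℝ chi q = 0 := by
  have key : ∀ c : ℝ, (chi =ᶠ[nhds q] fun _ => c) → fderiv ℝ chi q = 0 := by
    intro c hc
    rw [hc.fderiv_eq]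
    simp
  have hre : Continuous (fun z : ℂ => z.re) := Complex.continuous_re
  have him : Continuous (fun z : ℂ => z.im) := Complex.continuous_im
  by_cases h1 : q.re < -16
  · apply key 0
    filter_upwards [(isOpen_lt hre continuous_const).mem_nhds h1] with z hz
    exact chi_eq_zero_of_re' (le_of_lt hz)
  by_cases h2 : 1 / 8 < q.re
  · apply key 0
    filter_upwards [(isOpen_lt continuous_const hre).mem_nhds h2] with z hz
    exact chi_eq_zero_of_re (le_of_lt hz)
  by_cases h3 : 2 < q.im
  · apply key 0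
    filter_upwards [(isOpen_lt continuous_const him).mem_nhds h3] with z hz
    exact chi_eq_zero_of_im (le_of_lt hz)
  push Not at h1 h2 h3
  have h4 : ¬ (1 ≤ q.im ∨ q.re ≤ -8 ∨ -(1 / 8) ≤ q.re) := fun h4 => h ⟨⟨h1, h2⟩, h3, h4⟩
  push Not at h4
  obtain ⟨h5, h6, h7⟩ := h4
  apply key 1
  filter_upwards [(isOpen_lt him continuous_const).mem_nhds h5,
    (isOpen_lt continuous_const hre).mem_nhds h6,
    (isOpen_lt hre continuous_const).mem_nhds h7] with z hz1 hz2 hz3
  exact chi_eq_one (le_of_lt hz2) (le_of_lt hz3) (le_of_lt hz1)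

theorem exists_deriv_smoothTransition_bound :
    ∃ M : ℝ, 0 ≤ M ∧ ∀ x : ℝ, |deriv Real.smoothTransition x| ≤ M := by
  have hc : Continuous (deriv Real.smoothTransition) :=
    (Real.smoothTransition.contDiff (n := 1)).continuous_deriv le_rfl
  obtain ⟨M, hM⟩ := (isCompact_Icc (a := (0 : ℝ)) (b := 1)).exists_bound_of_continuousOn
    hc.continuousOn
  refine ⟨max M 0, le_max_right _ _, fun x => ?_⟩
  by_cases hx : x ∈ Icc (0 : ℝ) 1
  · exact le_trans (hM x hx) (le_max_left _ _)
  · have hd : deriv Real.smoothTransition x = 0 := by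
      rw [mem_Icc, not_and_or, not_le, not_le] at hx
      rcases hx with hx | hx
      · have : Real.smoothTransition =ᶠ[nhds x] fun _ => 0 := by
          filter_upwards [isOpen_Iio.mem_nhds hx] with y hy
          exact Real.smoothTransition.zero_of_nonpos (le_of_lt hy)
        rw [this.deriv_eq]
        simp
      · have : Real.smoothTransition =ᶠ[nhds x] fun _ => 1 := by
          filter_upwards [isOpen_Ioi.mem_nhds hx] with y hy
          exact Real.smoothTransition.one_of_one_le (le_of_lt hy)
        rw [this.deriv_eq]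
        simp
    rw [hd, abs_zero]
    exact le_max_right _ _

/-- PROOF. The derivative of `Real.smoothTransition` is continuous and vanishes outside `[0, 1]`,
so it is bounded; product rule. -/
theorem exists_fderiv_chi_bound : ∃ C : ℝ, 0 < C ∧ ∀ q : ℂ, ‖fderiv ℝ chi q‖ ≤ C := by
  obtain ⟨M, hM0, hM⟩ := exists_deriv_smoothTransition_bound
  have hdiff : Differentiable ℝ Real.smoothTransition :=
    (Real.smoothTransition.contDiff (n := 1)).differentiable (by norm_num)
  have hlip : LipschitzWith M.toNNReal Real.smoothTransition := by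
    apply lipschitzWith_of_nnnorm_deriv_le hdiff
    intro x
    rw [← NNReal.coe_le_coe, coe_nnnorm, Real.norm_eq_abs, Real.coe_toNNReal M hM0]
    exact hM x
  have hl : ∀ x y : ℝ, |Real.smoothTransition x - Real.smoothTransition y| ≤ M * |x - y| := by
    intro x y
    have := hlip.dist_le_mul x y
    rwa [Real.dist_eq, Real.dist_eq, Real.coe_toNNReal M hM0] at this
  have hchi : LipschitzWith (M * 6).toNNReal chi := by
    apply LipschitzWith.of_dist_le_mul
    intro z w
    rw [Real.dist_eq, Complex.dist_eq, Real.coe_toNNReal _ (by positivity)]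
    have hr : |z.re - w.re| ≤ ‖z - w‖ := by
      rw [← Complex.sub_re]; exact Complex.abs_re_le_norm _
    have hi : |z.im - w.im| ≤ ‖z - w‖ := by
      rw [← Complex.sub_im]; exact Complex.abs_im_le_norm _
    have a1 := hl ((z.re + 16) / 8) ((w.re + 16) / 8)
    have a2 := hl ((1 / 8 - z.re) * 4) ((1 / 8 - w.re) * 4)
    have a3 := hl (2 - z.im) (2 - w.im)
    have b1 : |(z.re + 16) / 8 - (w.re + 16) / 8| = |z.re - w.re| / 8 := by
      rw [show (z.re + 16) / 8 - (w.re + 16) / 8 = (z.re - w.re) / 8 by ring, abs_div]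
      norm_num
    have b2 : |(1 / 8 - z.re) * 4 - (1 / 8 - w.re) * 4| = |z.re - w.re| * 4 := by
      rw [show (1 / 8 - z.re) * 4 - (1 / 8 - w.re) * 4 = -((z.re - w.re) * 4) by ring, abs_neg,
        abs_mul]
      norm_num
    have b3 : |(2 - z.im) - (2 - w.im)| = |z.im - w.im| := by
      rw [show (2 - z.im) - (2 - w.im) = -(z.im - w.im) by ring, abs_neg]
    rw [b1] at a1
    rw [b2] at a2
    rw [b3] at a3
    have c1 := mul_le_mul_of_nonneg_left hr hM0
    have c2 := mul_le_mul_of_nonneg_left hi hM0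
    set p1 := Real.smoothTransition ((z.re + 16) / 8) with hp1
    set p2 := Real.smoothTransition ((1 / 8 - z.re) * 4) with hp2
    set p3 := Real.smoothTransition (2 - z.im) with hp3
    set q1 := Real.smoothTransition ((w.re + 16) / 8) with hq1
    set q2 := Real.smoothTransition ((1 / 8 - w.re) * 4) with hq2
    set q3 := Real.smoothTransition (2 - w.im) with hq3
    have p2l : |p2| ≤ 1 := by
      rw [abs_of_nonneg (Real.smoothTransition.nonneg _)]; exact Real.smoothTransition.le_one _
    have p3l : |p3| ≤ 1 := by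
      rw [abs_of_nonneg (Real.smoothTransition.nonneg _)]; exact Real.smoothTransition.le_one _
    have q1l : |q1| ≤ 1 := by
      rw [abs_of_nonneg (Real.smoothTransition.nonneg _)]; exact Real.smoothTransition.le_one _
    have q2l : |q2| ≤ 1 := by
      rw [abs_of_nonneg (Real.smoothTransition.nonneg _)]; exact Real.smoothTransition.le_one _
    have e : chi z - chi w = (p1 - q1) * p2 * p3 + q1 * (p2 - q2) * p3 + q1 * q2 * (p3 - q3) := by
      simp only [chi, hp1, hp2, hp3, hq1, hq2, hq3]; ring
    rw [e]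
    have d1 : |(p1 - q1) * p2 * p3| ≤ |p1 - q1| := by
      rw [abs_mul, abs_mul]
      calc |p1 - q1| * |p2| * |p3| ≤ |p1 - q1| * 1 * 1 := by gcongr
        _ = |p1 - q1| := by ring
    have d2 : |q1 * (p2 - q2) * p3| ≤ |p2 - q2| := by
      rw [abs_mul, abs_mul]
      calc |q1| * |p2 - q2| * |p3| ≤ 1 * |p2 - q2| * 1 := by gcongr
        _ = |p2 - q2| := by ring
    have d3 : |q1 * q2 * (p3 - q3)| ≤ |p3 - q3| := by
      rw [abs_mul, abs_mul]
      calc |q1| * |q2| * |p3 - q3| ≤ 1 * 1 * |p3 - q3| := by gcongr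
        _ = |p3 - q3| := by ring
    have t := abs_add_three ((p1 - q1) * p2 * p3) (q1 * (p2 - q2) * p3) (q1 * q2 * (p3 - q3))
    have hz := norm_nonneg (z - w)
    nlinarith
  refine ⟨M * 6 + 1, by positivity, fun q => ?_⟩
  have h := norm_fderiv_le_of_lipschitz ℝ hchi (x₀ := q)
  rw [Real.coe_toNNReal _ (by positivity)] at h
  linarith

end Pool.Agent.P9749df
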