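import Mathlib

/-!
# Gaussian sums over separated points
-/

namespace Pool.Agent.P9749df

private theorem geom_inj {m : ℕ} (T : Finset (Fin m)) (f : Fin m → ℕ) (hf : Set.InjOn f T) :
    ∑ j ∈ T, Real.exp (-(f j : ℝ)) ≤ 2 := by
  have hr0 : (0:ℝ) ≤ Real.exp (-1) := (Real.exp_pos _).le
  have hr : Real.exp (-1) ≤ 1 / 2 := by
    rw [Real.exp_neg, ← one_div]
    apply one_div_le_one_div_of_le (by norm_num)
    have := Real.add_one_le_exp (1:ℝ)
    linarith
  have hr1 : Real.exp (-1) < 1 := by linarith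
  have e1 : ∀ j, Real.exp (-(f j : ℝ)) = (Real.exp (-1)) ^ (f j) := by
    intro j
    rw [← Real.exp_nat_mul]
    congr 1
    ring
  simp_rw [e1]
  rw [← Finset.sum_image (g := f) (f := fun n => (Real.exp (-1)) ^ n) (by
    intro a ha b hb hab; exact hf ha hb hab)]
  have hsum := summable_geometric_of_lt_one hr0 hr1
  calc ∑ n ∈ T.image f, (Real.exp (-1)) ^ n ≤ ∑' n, (Real.exp (-1)) ^ n :=
        hsum.sum_le_tsum _ (fun n _ => pow_nonneg hr0 n)
    _ = (1 - Real.exp (-1))⁻¹ := tsum_geometric_of_lt_one hr0 hr1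
    _ ≤ 2 := by
        rw [inv_le_comm₀ (by linarith) (by norm_num)]
        linarith

/-- A Gaussian sum over `s`-separated points is bounded.

PROOF. Map `j ↦ i_j := ⌊(x j - ρ) / s⌋`; this is injective (equal floors force
`|x j - x k| < s`). If `i_j ≥ 0` then `x j - ρ ≥ i_j s ≥ 0`, so the term is at most
`exp (-c s^2 i_j^2) ≤ exp (-i_j)`; if `i_j < 0` then `x j - ρ < (i_j + 1) s ≤ 0`, so it is at
most `exp (-(i_j + 1)^2) ≤ exp (-|i_j + 1|)`. Hence the sum is at most
`2 * ∑_{i ≥ 0} exp (-i) = 2 / (1 - 1/e) ≤ 4`. -/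
theorem gauss_sum {m : ℕ} (x : Fin m → ℝ) (ρ s c : ℝ) (hs : 0 < s)
    (hsep : ∀ j k, j ≠ k → s ≤ |x j - x k|) (hc : 1 ≤ c * s ^ 2) :
    ∑ j, Real.exp (-c * (x j - ρ) ^ 2) ≤ 4 := by
  classical
  set y : Fin m → ℝ := fun j => (x j - ρ) / s with hy
  set i : Fin m → ℤ := fun j => ⌊y j⌋ with hi
  have hxy : ∀ j, x j - ρ = s * y j := by
    intro j; rw [hy]; field_simp
  have hinj : Function.Injective i := by
    intro j k hjk
    by_contra hne
    have h1 := Int.abs_sub_lt_one_of_floor_eq_floor (show ⌊y j⌋ = ⌊y k⌋ from hjk)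
    have h2 := hsep j k hne
    have h3 : x j - x k = s * (y j - y k) := by
      have := hxy j; have := hxy k; linarith
    rw [h3, abs_mul, abs_of_pos hs] at h2
    have : s * |y j - y k| < s * 1 := mul_lt_mul_of_pos_left h1 hs
    linarith
  have hterm : ∀ j, Real.exp (-c * (x j - ρ) ^ 2) ≤ Real.exp (-(y j) ^ 2) := by
    intro j
    apply Real.exp_le_exp.2
    rw [hxy j]
    have : (y j) ^ 2 ≤ (c * s ^ 2) * (y j) ^ 2 := by
      have := mul_le_mul_of_nonneg_right hc (sq_nonneg (y j))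
      linarith
    nlinarith
  rw [← Finset.sum_filter_add_sum_filter_not Finset.univ (fun j => 0 ≤ i j)]
  have hA : ∑ j ∈ Finset.univ.filter (fun j => 0 ≤ i j), Real.exp (-c * (x j - ρ) ^ 2) ≤ 2 := by
    refine le_trans (Finset.sum_le_sum (fun j hj => ?_))
      (geom_inj (Finset.univ.filter (fun j => 0 ≤ i j)) (fun j => (i j).toNat) ?_)
    · have hj0 : 0 ≤ i j := (Finset.mem_filter.1 hj).2
      refine le_trans (hterm j) (Real.exp_le_exp.2 ?_)
      have h1 : ((i j).toNat : ℝ) = (i j : ℝ) := by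
        have := Int.toNat_of_nonneg hj0
        exact_mod_cast this
      rw [h1]
      have h2 : (i j : ℝ) ≤ y j := Int.floor_le (y j)
      have h3 : (0:ℝ) ≤ (i j : ℝ) := by exact_mod_cast hj0
      have h4 : (i j : ℝ) ≤ (i j : ℝ) ^ 2 := by
        have : (i j) ≤ (i j) ^ 2 := by nlinarith [hj0, sq_nonneg (i j), Int.le_self_sq (i j)]
        exact_mod_cast this
      nlinarith
    · intro a ha b hb hab
      have ha0 : 0 ≤ i a := (Finset.mem_filter.1 ha).2
      have hb0 : 0 ≤ i b := (Finset.mem_filter.1 hb).2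
      apply hinj
      have : (i a).toNat = (i b).toNat := hab
      have e1 := Int.toNat_of_nonneg ha0
      have e2 := Int.toNat_of_nonneg hb0
      rw [← e1, ← e2, this]
  have hB : ∑ j ∈ Finset.univ.filter (fun j => ¬ 0 ≤ i j), Real.exp (-c * (x j - ρ) ^ 2) ≤ 2 := by
    refine le_trans (Finset.sum_le_sum (fun j hj => ?_))
      (geom_inj (Finset.univ.filter (fun j => ¬ 0 ≤ i j)) (fun j => (-(i j + 1)).toNat) ?_)
    · have hj0 : ¬ 0 ≤ i j := (Finset.mem_filter.1 hj).2
      have hj1 : 0 ≤ -(i j + 1) := by omega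
      refine le_trans (hterm j) (Real.exp_le_exp.2 ?_)
      have h1 : ((-(i j + 1)).toNat : ℝ) = -((i j : ℝ) + 1) := by
        have := Int.toNat_of_nonneg hj1
        have h : (((-(i j + 1)).toNat : ℤ) : ℝ) = ((-(i j + 1) : ℤ) : ℝ) := by rw [this]
        push_cast at h
        exact_mod_cast h
      rw [h1]
      have h2 : y j < (i j : ℝ) + 1 := Int.lt_floor_add_one (y j)
      have h3 : (0:ℝ) ≤ -((i j : ℝ) + 1) := by exact_mod_cast hj1
      have h4 : -((i j : ℝ) + 1) ≤ (-((i j : ℝ) + 1)) ^ 2 := by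
        have : (-(i j + 1)) ≤ (-(i j + 1)) ^ 2 := Int.le_self_sq _
        exact_mod_cast this
      nlinarith
    · intro a ha b hb hab
      have ha0 : ¬ 0 ≤ i a := (Finset.mem_filter.1 ha).2
      have hb0 : ¬ 0 ≤ i b := (Finset.mem_filter.1 hb).2
      apply hinj
      have h : (-(i a + 1)).toNat = (-(i b + 1)).toNat := hab
      omega
  linarith

end Pool.Agent.P9749df
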