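import Pool.Agent.Lib.P9749df.Basic
import Pool.Agent.Lib.P9749df.Gauss

/-!
# Bounds for the wave packets
-/

open MeasureTheory Set

namespace Pool.Agent.P9749df

theorem norm_packet_eq (N a b : ℝ) (W : C3) :
    ‖packet N a b W‖ = Real.exp (-(N * (W.2.2.im - 2 * a * W.2.1.im + a ^ 2 * W.1.im)) -
      (N / 4) * ((tr a b W).re ^ 2 - (tr a b W).im ^ 2)) := by
  unfold packet
  rw [Complex.norm_exp]
  congr 1
  have h1 : (Complex.I * (N : ℂ) * lin a W).re =
      -(N * (W.2.2.im - 2 * a * W.2.1.im + a ^ 2 * W.1.im)) := by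
    have : (lin a W).im = W.2.2.im - 2 * a * W.2.1.im + a ^ 2 * W.1.im := by
      unfold lin
      simp [pow_two]
    rw [← this]
    simp
  have h2 : (((N : ℂ) / 4) * tr a b W ^ 2).re =
      (N / 4) * ((tr a b W).re ^ 2 - (tr a b W).im ^ 2) := by
    have : ((N : ℂ) / 4) = ((N / 4 : ℝ) : ℂ) := by push_cast; ring
    rw [this, Complex.re_ofReal_mul]
    congr 1
    simp [pow_two]
  rw [Complex.sub_re, h1, h2]

theorem tr_im_eq (a b : ℝ) (W : C3) : (tr a b W).im = W.2.1.im - a * W.1.im := by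
  unfold tr
  simp

theorem tr_re_eq (a b : ℝ) (W : C3) : (tr a b W).re = W.2.1.re - a * W.1.re - b := by
  unfold tr
  simp

/-- PROOF. `‖packet‖ = exp (- N L - (N/4) (x^2 - y^2))` with `L = Im (lin a W)
= p.im - 2 a r.im + a^2 q.im`, `x = Re (tr a b W)`, `y = Im (tr a b W) = r.im - a q.im`, and
`y^2 ≤ q.im * L ≤ 2 L` (`q.im * L - y^2 = q.im p.im - r.im^2 ≥ 0`). -/
theorem packet_norm_le (N a b : ℝ) (hN : 0 ≤ N) (W : C3) (h1 : 0 < W.1.im) (h2 : W.1.im ≤ 2)
    (h3 : W.2.1.im ^ 2 ≤ W.1.im * W.2.2.im) :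
    ‖packet N a b W‖ ≤ Real.exp (-(N / 4) * ((tr a b W).re ^ 2 + (tr a b W).im ^ 2)) := by
  rw [norm_packet_eq]
  apply Real.exp_le_exp.mpr
  set L : ℝ := W.2.2.im - 2 * a * W.2.1.im + a ^ 2 * W.1.im with hL
  set y : ℝ := (tr a b W).im with hy
  have hyL : y ^ 2 ≤ W.1.im * L := by
    rw [hy, tr_im_eq, hL]
    nlinarith
  have hL0 : 0 ≤ L := by
    by_contra hneg
    have : W.1.im * L < 0 := mul_neg_of_pos_of_neg h1 (not_le.mp hneg)
    have := sq_nonneg y
    linarith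
  have h2L : y ^ 2 ≤ 2 * L := hyL.trans (mul_le_mul_of_nonneg_right h2 hL0)
  have : N * y ^ 2 ≤ N * (2 * L) := mul_le_mul_of_nonneg_left h2L hN
  nlinarith

theorem poly_exp_le (s N : ℝ) (hs : 0 ≤ s) (hN : 512 ≤ N) :
    (s + 1681) * Real.exp (-(N / 4) * s) ≤ 1682 * Real.exp (-(N / 8) * s) := by
  have e : Real.exp (-(N / 4) * s) = Real.exp (-(N / 8) * s) * Real.exp (-(N / 8) * s) := by
    rw [← Real.exp_add]; congr 1; ring
  have h1 : 1 + (N / 8) * s ≤ Real.exp ((N / 8) * s) := by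
    have := Real.add_one_le_exp ((N / 8) * s)
    linarith
  have h2 : Real.exp ((N / 8) * s) * Real.exp (-(N / 8) * s) = 1 := by
    rw [← Real.exp_add]
    have : N / 8 * s + -(N / 8) * s = 0 := by ring
    rw [this, Real.exp_zero]
  have h3 : 0 < Real.exp (-(N / 8) * s) := Real.exp_pos _
  have h4 : s + 1681 ≤ 1682 * Real.exp ((N / 8) * s) := by nlinarith
  have h5 : (s + 1681) * Real.exp (-(N / 8) * s) ≤ 1682 := by
    calc (s + 1681) * Real.exp (-(N / 8) * s)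
        ≤ (1682 * Real.exp ((N / 8) * s)) * Real.exp (-(N / 8) * s) :=
          mul_le_mul_of_nonneg_right h4 h3.le
      _ = 1682 := by rw [mul_assoc, h2, mul_one]
  rw [e, ← mul_assoc]
  exact mul_le_mul_of_nonneg_right h5 h3.le

/-- The weighted sum of the packets is bounded in the transition zone.

PROOF. With `x_k = Re tr_k`, `y_k = Im tr_k`: `‖q + i‖ ≤ 19`, `‖r‖ ≤ |x_k| + |y_k| + 22`
(`Re r = x_k + a_k Re q + b_k`, `Im r = y_k + a_k Im q`), so
`(‖r‖ + ‖q + i‖)^2 ≤ 3 (x_k^2 + y_k^2 + 1681)`. By `packet_norm_le` and `N ≥ 512`,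
`(‖r‖ + ‖q + i‖)^2 ‖packet_k‖ ≤ 3 * 1682 * exp (-(N/8) (x_k^2 + y_k^2))`.
If `1 ≤ Im q`: `y_k^2 = (Im q)^2 (a_k - Im r / Im q)^2 ≥ (a_k - Im r/Im q)^2`; use `gauss_sum` with
`s = w`, `c = N/8` (`c s^2 = 64`). Otherwise `Re q` is in the separated zone and
`x_k = Re r - (a_k Re q + b_k)`; use `gauss_sum` with `s = w/8` (`c s^2 = 1`). -/
theorem packet_sum_bound {m : ℕ} (a b : Fin m → ℝ) (w : ℝ) (hw : 0 < w) (hw1 : w ≤ 1)
    (ha : ∀ j, 0 ≤ a j ∧ a j ≤ 1) (hb : ∀ j, |b j| ≤ 4)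
    (hsl : ∀ j k, j ≠ k → w ≤ |a j - a k|)
    (hsep : ∀ x : ℝ, (|x| ≤ 1 / 8 ∨ (-16 ≤ x ∧ x ≤ -8)) → ∀ j k, j ≠ k →
      w / 8 ≤ |(a j * x + b j) - (a k * x + b k)|)
    (W : C3) (h1 : 0 < W.1.im) (h2 : W.1.im ≤ 2) (h3 : W.2.1.im ^ 2 ≤ W.1.im * W.2.2.im)
    (h4 : -16 ≤ W.1.re) (h5 : W.1.re ≤ 1 / 8)
    (h6 : 1 ≤ W.1.im ∨ W.1.re ≤ -8 ∨ -(1 / 8) ≤ W.1.re) :
    (‖W.2.1‖ + ‖W.1 + Complex.I‖) ^ 2 * ∑ k, ‖packet (512 / w ^ 2) (a k) (b k) W‖ ≤ 30000 := by
  have hw2 : 0 < w ^ 2 := by positivity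
  have hw3 : w ^ 2 ≤ 1 := pow_le_one₀ hw.le hw1
  set N : ℝ := 512 / w ^ 2 with hNdef
  have hN : 512 ≤ N := by
    rw [hNdef, le_div_iff₀ hw2]
    nlinarith
  have hN0 : 0 ≤ N := by linarith
  -- the weight
  have hq : ‖W.1 + Complex.I‖ ≤ 19 := by
    refine (Complex.norm_le_abs_re_add_abs_im _).trans ?_
    have e1 : |(W.1 + Complex.I).re| ≤ 16 := by
      rw [Complex.add_re, Complex.I_re, add_zero, abs_le]
      constructor <;> linarith
    have e2 : |(W.1 + Complex.I).im| ≤ 3 := by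
      rw [Complex.add_im, Complex.I_im, abs_le]
      constructor <;> linarith
    linarith
  have hterm : ∀ k, (‖W.2.1‖ + ‖W.1 + Complex.I‖) ^ 2 * ‖packet N (a k) (b k) W‖ ≤
      5046 * Real.exp (-(N / 8) * ((tr (a k) (b k) W).re ^ 2 + (tr (a k) (b k) W).im ^ 2)) := by
    intro k
    set x : ℝ := (tr (a k) (b k) W).re with hx
    set y : ℝ := (tr (a k) (b k) W).im with hy
    have hr : ‖W.2.1‖ ≤ |x| + |y| + 22 := by
      refine (Complex.norm_le_abs_re_add_abs_im _).trans ?_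
      have e1 : |W.2.1.re| ≤ |x| + 20 := by
        have : W.2.1.re = x + (a k * W.1.re + b k) := by
          rw [hx, tr_re_eq]; ring
        rw [this]
        refine (abs_add_le _ _).trans ?_
        have : |a k * W.1.re + b k| ≤ 20 := by
          refine (abs_add_le _ _).trans ?_
          rw [abs_mul]
          have h7 : |a k| ≤ 1 := by rw [abs_le]; constructor <;> linarith [(ha k).1, (ha k).2]
          have h8 : |W.1.re| ≤ 16 := by rw [abs_le]; constructor <;> linarith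
          have h9 := hb k
          have h10 : |a k| * |W.1.re| ≤ 1 * 16 :=
            mul_le_mul h7 h8 (abs_nonneg _) zero_le_one
          linarith
        linarith
      have e2 : |W.2.1.im| ≤ |y| + 2 := by
        have : W.2.1.im = y + a k * W.1.im := by
          rw [hy, tr_im_eq]; ring
        rw [this]
        refine (abs_add_le _ _).trans ?_
        have : |a k * W.1.im| ≤ 2 := by
          rw [abs_mul]
          have h7 : |a k| ≤ 1 := by rw [abs_le]; constructor <;> linarith [(ha k).1, (ha k).2]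
          have h8 : |W.1.im| ≤ 2 := by rw [abs_le]; constructor <;> linarith
          have h10 : |a k| * |W.1.im| ≤ 1 * 2 :=
            mul_le_mul h7 h8 (abs_nonneg _) zero_le_one
          linarith
        linarith
      linarith
    have hsum : (‖W.2.1‖ + ‖W.1 + Complex.I‖) ^ 2 ≤ 3 * ((x ^ 2 + y ^ 2) + 1681) := by
      have e1 : ‖W.2.1‖ + ‖W.1 + Complex.I‖ ≤ |x| + |y| + 41 := by linarith
      have e2 : 0 ≤ ‖W.2.1‖ + ‖W.1 + Complex.I‖ := by positivity
      have e3 : (‖W.2.1‖ + ‖W.1 + Complex.I‖) ^ 2 ≤ (|x| + |y| + 41) ^ 2 :=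
        pow_le_pow_left₀ e2 e1 2
      refine e3.trans ?_
      rw [← sq_abs x, ← sq_abs y]
      nlinarith [sq_nonneg (|x| - |y|), sq_nonneg (|x| - 41), sq_nonneg (|y| - 41)]
    have hp := packet_norm_le N (a k) (b k) hN0 W h1 h2 h3
    have hpe := poly_exp_le (x ^ 2 + y ^ 2) N (by positivity) hN
    calc (‖W.2.1‖ + ‖W.1 + Complex.I‖) ^ 2 * ‖packet N (a k) (b k) W‖
        ≤ (3 * ((x ^ 2 + y ^ 2) + 1681)) * Real.exp (-(N / 4) * (x ^ 2 + y ^ 2)) :=
          mul_le_mul hsum hp (norm_nonneg _) (by positivity)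
      _ = 3 * (((x ^ 2 + y ^ 2) + 1681) * Real.exp (-(N / 4) * (x ^ 2 + y ^ 2))) := by ring
      _ ≤ 3 * (1682 * Real.exp (-(N / 8) * (x ^ 2 + y ^ 2))) := by
          exact mul_le_mul_of_nonneg_left hpe (by norm_num)
      _ = 5046 * Real.exp (-(N / 8) * (x ^ 2 + y ^ 2)) := by ring
  have hgauss : ∑ k, Real.exp (-(N / 8) *
      ((tr (a k) (b k) W).re ^ 2 + (tr (a k) (b k) W).im ^ 2)) ≤ 4 := by
    by_cases hq1 : 1 ≤ W.1.im
    · have hg := gauss_sum a (W.2.1.im / W.1.im) w (N / 8) hw hsl (by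
        rw [hNdef]
        field_simp
        norm_num)
      refine le_trans (Finset.sum_le_sum fun k _ => ?_) hg
      apply Real.exp_le_exp.mpr
      have e1 : (a k - W.2.1.im / W.1.im) ^ 2 ≤ (tr (a k) (b k) W).im ^ 2 := by
        rw [tr_im_eq]
        have : W.2.1.im - a k * W.1.im = -(W.1.im * (a k - W.2.1.im / W.1.im)) := by
          field_simp
          ring
        rw [this, neg_sq, mul_pow]
        have h7 : 1 ≤ W.1.im ^ 2 := one_le_pow₀ hq1
        nlinarith [sq_nonneg (a k - W.2.1.im / W.1.im)]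
      have e2 : 0 ≤ (tr (a k) (b k) W).re ^ 2 := sq_nonneg _
      have e3 : 0 ≤ N / 8 := by linarith
      nlinarith
    · have hz : |W.1.re| ≤ 1 / 8 ∨ (-16 ≤ W.1.re ∧ W.1.re ≤ -8) := by
        rcases h6 with h6 | h6 | h6
        · exact absurd h6 hq1
        · exact Or.inr ⟨h4, h6⟩
        · exact Or.inl (by rw [abs_le]; constructor <;> linarith)
      have hg := gauss_sum (fun j => a j * W.1.re + b j) W.2.1.re (w / 8) (N / 8)
        (by positivity) (fun j k hjk => hsep W.1.re hz j k hjk) (by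
        rw [hNdef]
        field_simp
        norm_num)
      refine le_trans (Finset.sum_le_sum fun k _ => ?_) hg
      apply Real.exp_le_exp.mpr
      have e1 : (a k * W.1.re + b k - W.2.1.re) ^ 2 = (tr (a k) (b k) W).re ^ 2 := by
        rw [tr_re_eq]; ring
      have e2 : 0 ≤ (tr (a k) (b k) W).im ^ 2 := sq_nonneg _
      have e3 : 0 ≤ N / 8 := by linarith
      rw [e1]
      nlinarith
  calc (‖W.2.1‖ + ‖W.1 + Complex.I‖) ^ 2 * ∑ k, ‖packet N (a k) (b k) W‖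
      = ∑ k, (‖W.2.1‖ + ‖W.1 + Complex.I‖) ^ 2 * ‖packet N (a k) (b k) W‖ :=
        Finset.mul_sum _ _ _
    _ ≤ ∑ k, 5046 * Real.exp (-(N / 8) *
          ((tr (a k) (b k) W).re ^ 2 + (tr (a k) (b k) W).im ^ 2)) :=
        Finset.sum_le_sum fun k _ => hterm k
    _ = 5046 * ∑ k, Real.exp (-(N / 8) *
          ((tr (a k) (b k) W).re ^ 2 + (tr (a k) (b k) W).im ^ 2)) := by
        rw [Finset.mul_sum]
    _ ≤ 5046 * 4 := mul_le_mul_of_nonneg_left hgauss (by norm_num)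
    _ ≤ 30000 := by norm_num

end Pool.Agent.P9749df
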