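import Pool.Agent.Lib.P9749df.Cayley
import Pool.Agent.Lib.P9749df.ChiB
import Pool.Agent.Lib.P9749df.Packet

/-!
# The function `u_0` on the ball of symmetric matrices
-/

open MeasureTheory Set
open scoped ContDiff

namespace Pool.Agent.P9749df

theorem hasFDerivAt_q' {Z : C3} (hZ : Z ∈ SymBall) :
    ∃ L : C3 →L[ℂ] ℂ, HasFDerivAt (fun Z => (Wof Z).1) L Z ∧ ∀ v : C3, L v =
      (((Wof Z).1 + Complex.I) ^ 2 * v.1 + 2 * ((Wof Z).1 + Complex.I) * (Wof Z).2.1 * v.2.1 +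
        (Wof Z).2.1 ^ 2 * v.2.2) / (2 * Complex.I) := by
  have hne := del_ne_zero hZ
  have h1 : HasFDerivAt (fun Z : C3 => Z.1) (ContinuousLinearMap.fst ℂ ℂ (ℂ × ℂ)) Z :=
    hasFDerivAt_fst
  have h2 : HasFDerivAt (fun Z : C3 => Z.2.1)
      ((ContinuousLinearMap.fst ℂ ℂ ℂ).comp (ContinuousLinearMap.snd ℂ ℂ (ℂ × ℂ))) Z :=
    ((ContinuousLinearMap.fst ℂ ℂ ℂ).comp (ContinuousLinearMap.snd ℂ ℂ (ℂ × ℂ))).hasFDerivAt
  have h3 : HasFDerivAt (fun Z : C3 => Z.2.2)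
      ((ContinuousLinearMap.snd ℂ ℂ ℂ).comp (ContinuousLinearMap.snd ℂ ℂ (ℂ × ℂ))) Z :=
    ((ContinuousLinearMap.snd ℂ ℂ ℂ).comp (ContinuousLinearMap.snd ℂ ℂ (ℂ × ℂ))).hasFDerivAt
  have hdel : HasFDerivAt del _ Z :=
    ((h1.const_sub 1).mul (h3.const_sub 1)).sub (h2.pow 2)
  have hinv := (hasDerivAt_inv hne).comp_hasFDerivAt Z hdel
  have hf := (((h3.const_sub 1).const_mul (2 * Complex.I)).mul hinv).const_add (-Complex.I)
  refine ⟨_, hf, fun v => ?_⟩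
  unfold Wof
  simp only [add_apply, smul_apply, sub_apply, neg_apply, ContinuousLinearMap.comp_apply,
    ContinuousLinearMap.coe_fst', ContinuousLinearMap.coe_snd', smul_eq_mul, Function.comp_apply]
  have hI : (Complex.I : ℂ) ≠ 0 := Complex.I_ne_zero
  have e : ∀ x : ℂ, -Complex.I + x + Complex.I = x := fun x => by ring
  rw [e]
  field_simp
  unfold del
  ring_nf

/-- Derivative of the coordinate `q`.

PROOF. `q = -i + 2i (1 - z3) / del`, direct computation: with `r = 2 i z2 / del`,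
`q + i = 2 i (1 - z3) / del`: `∂q/∂z1 = 2 i (1-z3)^2/del^2 = (q+i)^2/(2i)`,
`∂q/∂z2 = 4 i (1-z3) z2/del^2 = 2 (q+i) r/(2i)`, `∂q/∂z3 = 2 i z2^2/del^2 = r^2/(2i)`. -/
theorem hasFDerivAt_q {Z : C3} (hZ : Z ∈ SymBall) (v : C3) :
    fderiv ℂ (fun Z => (Wof Z).1) Z v =
      (((Wof Z).1 + Complex.I) ^ 2 * v.1 + 2 * ((Wof Z).1 + Complex.I) * (Wof Z).2.1 * v.2.1 +
        (Wof Z).2.1 ^ 2 * v.2.2) / (2 * Complex.I) := by
  obtain ⟨L, hL, hLv⟩ := hasFDerivAt_q' hZ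
  rw [hL.fderiv, hLv]

theorem del_contDiff : ContDiff ℝ ∞ del := by
  unfold del
  fun_prop

theorem wof_contDiffOn : ContDiffOn ℝ ∞ Wof SymBall := by
  intro Z hZ
  have hne := del_ne_zero hZ
  have hinv : ContDiffAt ℝ ∞ (fun Z => (del Z)⁻¹) Z := del_contDiff.contDiffAt.inv hne
  have h : ContDiffAt ℝ ∞ Wof Z := by
    unfold Wof
    simp only [div_eq_mul_inv]
    refine ContDiffAt.prodMk ?_ (ContDiffAt.prodMk ?_ ?_)
    · exact contDiffAt_const.add ((by fun_prop : ContDiffAt ℝ ∞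
        (fun Z : C3 => 2 * Complex.I * (1 - Z.2.2)) Z).mul hinv)
    · exact (by fun_prop : ContDiffAt ℝ ∞ (fun Z : C3 => 2 * Complex.I * Z.2.1) Z).mul hinv
    · exact contDiffAt_const.add ((by fun_prop : ContDiffAt ℝ ∞
        (fun Z : C3 => 2 * Complex.I * (1 - Z.1)) Z).mul hinv)
  exact h.contDiffWithinAt

theorem packet_contDiff (N a b : ℝ) : ContDiff ℝ ∞ (packet N a b) := by
  unfold packet lin tr
  fun_prop

theorem Ufun_contDiff {m : ℕ} (N : ℝ) (a b ε : Fin m → ℝ) : ContDiff ℝ ∞ (Ufun N a b ε) := by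
  unfold Ufun
  have h1 : ContDiff ℝ ∞ (fun W : C3 => ((chi W.1 : ℝ) : ℂ)) :=
    Complex.ofRealCLM.contDiff.comp (chi_contDiff.comp contDiff_fst)
  refine h1.mul (ContDiff.sum fun k _ => ?_)
  exact contDiff_const.mul (packet_contDiff N (a k) (b k))

theorem packet_differentiable (N a b : ℝ) : Differentiable ℂ (packet N a b) := by
  unfold packet lin tr
  fun_prop

/-- `∂bar` of a real function of a holomorphic function times a holomorphic function. -/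
theorem dbarV_mul (q S : C3 → ℂ) (c : ℂ → ℝ) (Z v : C3) (hq : DifferentiableAt ℂ q Z)
    (hS : DifferentiableAt ℂ S Z) (hc : DifferentiableAt ℝ c (q Z)) :
    dbarV (fun Z => (c (q Z) : ℂ) * S Z) Z v =
      (1 / 2 : ℂ) * (((fderiv ℝ c (q Z) (fderiv ℂ q Z v) : ℝ) : ℂ) +
        Complex.I * ((fderiv ℝ c (q Z) (Complex.I • fderiv ℂ q Z v) : ℝ) : ℂ)) * S Z := by
  have hqR : HasFDerivAt q ((fderiv ℂ q Z).restrictScalars ℝ) Z :=
    hq.hasFDerivAt.restrictScalars ℝ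
  have hSR : HasFDerivAt S ((fderiv ℂ S Z).restrictScalars ℝ) Z :=
    hS.hasFDerivAt.restrictScalars ℝ
  have hcq : HasFDerivAt (fun Z => (c (q Z) : ℂ))
      (Complex.ofRealCLM.comp ((fderiv ℝ c (q Z)).comp ((fderiv ℂ q Z).restrictScalars ℝ))) Z :=
    Complex.ofRealCLM.hasFDerivAt.comp Z (hc.hasFDerivAt.comp Z hqR)
  have h : fderiv ℝ (fun Z => (c (q Z) : ℂ) * S Z) Z = _ := (hcq.mul hSR).fderiv
  unfold dbarV
  rw [h]
  simp only [add_apply, smul_apply, ContinuousLinearMap.comp_apply,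
    ContinuousLinearMap.coe_restrictScalars', Complex.ofRealCLM_apply, smul_eq_mul, map_smul]
  linear_combination (1 / 2 : ℂ) * (c (q Z) : ℂ) * (fderiv ℂ S Z v) * Complex.I_sq

/-- `∂bar` of `u_0 = Ufun ∘ Wof`.

PROOF. `packet ∘ Wof` is holomorphic on `SymBall`, so only the cut-off contributes:
`dbarV u_0 Z v = (∑ ε_k packet_k) * (1/2) (Dchi (Dq v) + i Dchi (i Dq v))`
(`fderiv ℝ` of the holomorphic map `q` is the restriction of scalars of `fderiv ℂ`;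
`Dq (i v) = i Dq v`), so its norm is at most `‖Dchi‖ ‖Dq v‖ ∑ ‖packet_k‖`, with
`‖Dq v‖ ≤ (1/2) (‖r‖ + ‖q + i‖)^2 ‖v‖` and `Dchi (q) = 0` unless `q` is in the transition zone,
where `packet_sum_bound` applies. So `C1 = 15000 * C_chi`. -/
theorem exists_dbarU_bound : ∃ C1 : ℝ, 0 < C1 ∧ ∀ (m : ℕ) (a b ε : Fin m → ℝ) (w : ℝ),
    0 < w → w ≤ 1 → (∀ j, 0 ≤ a j ∧ a j ≤ 1) → (∀ j, |b j| ≤ 4) → (∀ j, ε j = 1 ∨ ε j = -1) →
    (∀ j k, j ≠ k → w ≤ |a j - a k|) →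
    (∀ x : ℝ, (|x| ≤ 1 / 8 ∨ (-16 ≤ x ∧ x ≤ -8)) → ∀ j k, j ≠ k →
      w / 8 ≤ |(a j * x + b j) - (a k * x + b k)|) →
    ∀ Z ∈ SymBall, ∀ v : C3,
      ‖dbarV (fun Z => Ufun (512 / w ^ 2) a b ε (Wof Z)) Z v‖ ≤ C1 * ‖v‖ := by
  obtain ⟨Cc, hCc0, hCc⟩ := exists_fderiv_chi_bound
  refine ⟨15000 * Cc, by positivity, fun m a b ε w hw hw1 ha hb hε hsl hsep Z hZ v => ?_⟩
  set N : ℝ := 512 / w ^ 2 with hN
  set W := Wof Z with hW
  have hWd : DifferentiableAt ℂ Wof Z := wof_differentiableOn.differentiableAt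
    (isOpen_symBall.mem_nhds hZ)
  have hq : DifferentiableAt ℂ (fun Z => (Wof Z).1) Z := hWd.fst
  have hS : DifferentiableAt ℂ (fun Z => ∑ k, (ε k : ℂ) * packet N (a k) (b k) (Wof Z)) Z := by
    refine DifferentiableAt.fun_sum fun k _ => ?_
    refine DifferentiableAt.const_mul ?_ _
    exact DifferentiableAt.comp (g := packet N (a k) (b k)) Z
      (packet_differentiable N (a k) (b k)).differentiableAt hWd
  have hc : DifferentiableAt ℝ chi ((Wof Z).1) :=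
    (chi_contDiff.differentiable (by simp)).differentiableAt
  have hd := dbarV_mul (fun Z => (Wof Z).1)
    (fun Z => ∑ k, (ε k : ℂ) * packet N (a k) (b k) (Wof Z)) chi Z v hq hS hc
  have he : (fun Z => Ufun N a b ε (Wof Z)) = fun Z => (chi (Wof Z).1 : ℂ) *
      ∑ k, (ε k : ℂ) * packet N (a k) (b k) (Wof Z) := rfl
  rw [he, hd, hasFDerivAt_q hZ v]
  rw [← hW]
  set Dq : ℂ := ((W.1 + Complex.I) ^ 2 * v.1 + 2 * (W.1 + Complex.I) * W.2.1 * v.2.1 +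
        W.2.1 ^ 2 * v.2.2) / (2 * Complex.I) with hDq
  set S := ∑ k, (ε k : ℂ) * packet N (a k) (b k) W with hSdef
  have hSn : ‖S‖ ≤ ∑ k, ‖packet N (a k) (b k) W‖ := by
    refine (norm_sum_le _ _).trans (Finset.sum_le_sum fun k _ => ?_)
    rw [norm_mul, Complex.norm_real]
    rcases hε k with h | h
    · rw [h]; simp
    · rw [h]; simp
  have hDqn : ‖Dq‖ ≤ 1 / 2 * ((‖W.2.1‖ + ‖W.1 + Complex.I‖) ^ 2 * ‖v‖) := by
    have hv1 : ‖v.1‖ ≤ ‖v‖ := norm_fst_le v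
    have hv2 : ‖v.2.1‖ ≤ ‖v‖ := (norm_fst_le v.2).trans (norm_snd_le v)
    have hv3 : ‖v.2.2‖ ≤ ‖v‖ := (norm_snd_le v.2).trans (norm_snd_le v)
    rw [hDq, norm_div, norm_mul, Complex.norm_I, mul_one, Complex.norm_ofNat]
    rw [div_le_iff₀ (by norm_num)]
    have h1 : ‖(W.1 + Complex.I) ^ 2 * v.1 + 2 * (W.1 + Complex.I) * W.2.1 * v.2.1 +
        W.2.1 ^ 2 * v.2.2‖ ≤ ‖W.1 + Complex.I‖ ^ 2 * ‖v.1‖ +
          2 * ‖W.1 + Complex.I‖ * ‖W.2.1‖ * ‖v.2.1‖ + ‖W.2.1‖ ^ 2 * ‖v.2.2‖ := by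
      refine (norm_add_le _ _).trans (add_le_add ((norm_add_le _ _).trans (add_le_add ?_ ?_)) ?_)
      · rw [norm_mul, norm_pow]
      · rw [norm_mul, norm_mul, norm_mul, Complex.norm_ofNat]
      · rw [norm_mul, norm_pow]
    have h2 : ‖W.1 + Complex.I‖ ^ 2 * ‖v.1‖ +
          2 * ‖W.1 + Complex.I‖ * ‖W.2.1‖ * ‖v.2.1‖ + ‖W.2.1‖ ^ 2 * ‖v.2.2‖ ≤
        ‖W.1 + Complex.I‖ ^ 2 * ‖v‖ +
          2 * ‖W.1 + Complex.I‖ * ‖W.2.1‖ * ‖v‖ + ‖W.2.1‖ ^ 2 * ‖v‖ := by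
      gcongr
    calc _ ≤ _ := h1.trans h2
      _ = _ := by ring
  have hnorm : ‖(1 / 2 : ℂ) * (((fderiv ℝ chi W.1 Dq : ℝ) : ℂ) +
        Complex.I * ((fderiv ℝ chi W.1 (Complex.I • Dq) : ℝ) : ℂ)) * S‖ ≤
      ‖fderiv ℝ chi W.1‖ * ‖Dq‖ * ‖S‖ := by
    rw [norm_mul, norm_mul]
    refine mul_le_mul_of_nonneg_right ?_ (norm_nonneg _)
    have h1 : ‖((fderiv ℝ chi W.1 Dq : ℝ) : ℂ)‖ ≤ ‖fderiv ℝ chi W.1‖ * ‖Dq‖ := by
      rw [Complex.norm_real]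
      exact ContinuousLinearMap.le_opNorm _ _
    have h2 : ‖Complex.I * ((fderiv ℝ chi W.1 (Complex.I • Dq) : ℝ) : ℂ)‖ ≤
        ‖fderiv ℝ chi W.1‖ * ‖Dq‖ := by
      rw [norm_mul, Complex.norm_I, one_mul, Complex.norm_real]
      refine (ContinuousLinearMap.le_opNorm _ _).trans (le_of_eq ?_)
      rw [norm_smul, Complex.norm_I, one_mul]
    have h3 : ‖(1 / 2 : ℂ)‖ = 1 / 2 := by norm_num
    rw [h3]
    have h4 := norm_add_le ((fderiv ℝ chi W.1 Dq : ℝ) : ℂ)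
      (Complex.I * ((fderiv ℝ chi W.1 (Complex.I • Dq) : ℝ) : ℂ))
    linarith
  refine hnorm.trans ?_
  have hv0 : 0 ≤ ‖v‖ := norm_nonneg v
  by_cases hz : ((-16 ≤ W.1.re ∧ W.1.re ≤ 1 / 8) ∧ W.1.im ≤ 2 ∧
    (1 ≤ W.1.im ∨ W.1.re ≤ -8 ∨ -(1 / 8) ≤ W.1.re))
  · obtain ⟨ht1, ht2⟩ := wof_tube hZ
    have hb := packet_sum_bound a b w hw hw1 ha hb hsl hsep W ht1 hz.2.1 ht2 hz.1.1 hz.1.2 hz.2.2
    rw [← hN] at hb
    have hP : 0 ≤ ∑ k, ‖packet N (a k) (b k) W‖ := Finset.sum_nonneg fun k _ => norm_nonneg _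
    calc ‖fderiv ℝ chi W.1‖ * ‖Dq‖ * ‖S‖
        ≤ Cc * (1 / 2 * ((‖W.2.1‖ + ‖W.1 + Complex.I‖) ^ 2 * ‖v‖)) *
          ∑ k, ‖packet N (a k) (b k) W‖ := by
          refine mul_le_mul (mul_le_mul (hCc _) hDqn (norm_nonneg _) hCc0.le) hSn (norm_nonneg _)
            (by positivity)
      _ = Cc * (1 / 2) * ‖v‖ * ((‖W.2.1‖ + ‖W.1 + Complex.I‖) ^ 2 *
          ∑ k, ‖packet N (a k) (b k) W‖) := by ring
      _ ≤ Cc * (1 / 2) * ‖v‖ * 30000 := mul_le_mul_of_nonneg_left hb (by positivity)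
      _ = 15000 * Cc * ‖v‖ := by ring
  · rw [fderiv_chi_eq_zero hz, norm_zero, zero_mul, zero_mul]
    positivity

theorem U_contDiffOn {m : ℕ} (N : ℝ) (a b ε : Fin m → ℝ) :
    ContDiffOn ℝ ∞ (fun Z => Ufun N a b ε (Wof Z)) SymBall :=
  (Ufun_contDiff N a b ε).comp_contDiffOn wof_contDiffOn

/-- PROOF. `chi q = 0` if `Im q ≥ 2`; otherwise every packet has norm `≤ 1` by
`packet_norm_le` and `wof_tube`. -/
theorem U_norm_le {m : ℕ} (N : ℝ) (hN : 0 ≤ N) (a b ε : Fin m → ℝ)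
    (hε : ∀ j, ε j = 1 ∨ ε j = -1) {Z : C3} (hZ : Z ∈ SymBall) :
    ‖Ufun N a b ε (Wof Z)‖ ≤ m := by
  unfold Ufun
  rcases le_total 2 (Wof Z).1.im with h | h
  · rw [chi_eq_zero_of_im h]
    simp
  · obtain ⟨ht1, ht2⟩ := wof_tube hZ
    have h1 : ‖∑ k, (ε k : ℂ) * packet N (a k) (b k) (Wof Z)‖ ≤ m := by
      refine (norm_sum_le _ _).trans ?_
      have h2 : ∀ k ∈ (Finset.univ : Finset (Fin m)),
          ‖(ε k : ℂ) * packet N (a k) (b k) (Wof Z)‖ ≤ 1 := by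
        intro k _
        rw [norm_mul, Complex.norm_real]
        have h3 : ‖ε k‖ = 1 := by
          rcases hε k with h | h
          · rw [h]; simp
          · rw [h]; simp
        rw [h3, one_mul]
        refine (packet_norm_le N (a k) (b k) hN (Wof Z) ht1 h ht2).trans ?_
        rw [Real.exp_le_one_iff]
        have : 0 ≤ (tr (a k) (b k) (Wof Z)).re ^ 2 + (tr (a k) (b k) (Wof Z)).im ^ 2 := by
          positivity
        nlinarith
      refine (Finset.sum_le_sum h2).trans (le_of_eq ?_)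
      simp
    rw [norm_mul, Complex.norm_real, Real.norm_of_nonneg (chi_nonneg _)]
    calc chi (Wof Z).1 * ‖∑ k, (ε k : ℂ) * packet N (a k) (b k) (Wof Z)‖ ≤ 1 * m :=
          mul_le_mul (chi_le_one _) h1 (norm_nonneg _) zero_le_one
      _ = m := one_mul _

theorem continuous_Ufun {m : ℕ} (N : ℝ) (a b ε : Fin m → ℝ) :
    Continuous (Ufun N a b ε) :=
  (Ufun_contDiff N a b ε).continuous

end Pool.Agent.P9749df
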