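import Pool.Agent.Lib.P9749df.Shear
import Pool.Agent.Lib.P9749df.ChiB
import Pool.Agent.Lib.P9749df.AKint

/-!
# The diagonal pairings
-/

open MeasureTheory Set

namespace Pool.Agent.P9749df

private theorem lin_toC_shear (a : ℝ) (Y : R3) : lin a (toC (shear a Y)) = (Y.2.2 : ℂ) := by
  simp only [lin, toC, shear]
  push_cast
  ring

private theorem tr_toC_shear (a b : ℝ) (Y : R3) :
    tr a b (toC (shear a Y)) = ((Y.2.1 - b : ℝ) : ℂ) := by
  simp only [tr, toC, shear]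
  push_cast
  ring

private theorem integrand_shear (K : ℕ) (N a b w : ℝ) (Y : R3) :
    (chi ((shear a Y).1 : ℂ) : ℂ) * packet N a b (toC (shear a Y)) * G K N a b w (shear a Y) =
      ((chi (Y.1 : ℂ) : ℂ) * AK K (Y.1 : ℂ)) *
        ((((Icc (b - w / 16) (b + w / 16)).indicator
            (fun t : ℝ => Real.exp (-(N / 4) * (t - b) ^ 2)) Y.2.1 : ℝ) : ℂ) *
          (Icc (0 : ℝ) 1).indicator (fun _ => (1 : ℂ)) Y.2.2) := by
  rw [G_shear, packet, lin_toC_shear, tr_toC_shear]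
  have h1 : (shear a Y).1 = Y.1 := rfl
  rw [h1]
  by_cases ht : Y.2.1 ∈ Icc (b - w / 16) (b + w / 16)
  · by_cases hl : Y.2.2 ∈ Icc (0 : ℝ) 1
    · rw [indicator_of_mem ht, indicator_of_mem hl, indicator_of_mem ht, indicator_of_mem hl]
      have e : Complex.exp (Complex.I * N * (Y.2.2 : ℂ) - (N / 4) * ((Y.2.1 - b : ℝ) : ℂ) ^ 2) *
          Complex.exp (-(Complex.I * N * (Y.2.2 : ℂ))) =
          ((Real.exp (-(N / 4) * (Y.2.1 - b) ^ 2) : ℝ) : ℂ) := by
        rw [← Complex.exp_add, Complex.ofReal_exp]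
        congr 1
        push_cast
        ring
      rw [← e]
      ring
    · rw [indicator_of_notMem hl, indicator_of_notMem hl]
      ring
  · rw [indicator_of_notMem ht, indicator_of_notMem ht]
    simp

/-- PROOF. `integral_shear`; on the shear coordinates `packet = exp (i N l - (N/4)(t - b)^2)`,
`G = A_K(q) 1[|t - b| ≤ w/16] 1[0 ≤ l ≤ 1] exp (-i N l)`, so the integrand is a product and the
`l`-integral is 1. -/
theorem diag_eq (K : ℕ) (hK : 2 ≤ K) (N a b w : ℝ) (hw : 0 < w) :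
    ∫ X : R3, (chi (X.1 : ℂ) : ℂ) * packet N a b (toC X) * G K N a b w X =
      (∫ x : ℝ, (chi (x : ℂ) : ℂ) * AK K (x : ℂ)) *
        ((∫ t in Icc (-(w / 16)) (w / 16), Real.exp (-(N / 4) * t ^ 2) : ℝ) : ℂ) := by
  rw [integral_shear a]
  simp_rw [integrand_shear]
  have h1 : ∫ Y : R3, ((chi (Y.1 : ℂ) : ℂ) * AK K (Y.1 : ℂ)) *
        ((((Icc (b - w / 16) (b + w / 16)).indicator
            (fun t : ℝ => Real.exp (-(N / 4) * (t - b) ^ 2)) Y.2.1 : ℝ) : ℂ) *
          (Icc (0 : ℝ) 1).indicator (fun _ => (1 : ℂ)) Y.2.2) =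
      (∫ x : ℝ, (chi (x : ℂ) : ℂ) * AK K (x : ℂ)) *
        ∫ Z : ℝ × ℝ, ((((Icc (b - w / 16) (b + w / 16)).indicator
            (fun t : ℝ => Real.exp (-(N / 4) * (t - b) ^ 2)) Z.1 : ℝ) : ℂ) *
          (Icc (0 : ℝ) 1).indicator (fun _ => (1 : ℂ)) Z.2) :=
    integral_prod_mul (fun x : ℝ => (chi (x : ℂ) : ℂ) * AK K (x : ℂ))
      (fun Z : ℝ × ℝ => ((((Icc (b - w / 16) (b + w / 16)).indicator
            (fun t : ℝ => Real.exp (-(N / 4) * (t - b) ^ 2)) Z.1 : ℝ) : ℂ) *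
          (Icc (0 : ℝ) 1).indicator (fun _ => (1 : ℂ)) Z.2))
  have h2 : ∫ Z : ℝ × ℝ, ((((Icc (b - w / 16) (b + w / 16)).indicator
            (fun t : ℝ => Real.exp (-(N / 4) * (t - b) ^ 2)) Z.1 : ℝ) : ℂ) *
          (Icc (0 : ℝ) 1).indicator (fun _ => (1 : ℂ)) Z.2) =
      (∫ t : ℝ, (((Icc (b - w / 16) (b + w / 16)).indicator
            (fun t : ℝ => Real.exp (-(N / 4) * (t - b) ^ 2)) t : ℝ) : ℂ)) *
        ∫ l : ℝ, (Icc (0 : ℝ) 1).indicator (fun _ => (1 : ℂ)) l :=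
    integral_prod_mul (fun t : ℝ => (((Icc (b - w / 16) (b + w / 16)).indicator
            (fun t : ℝ => Real.exp (-(N / 4) * (t - b) ^ 2)) t : ℝ) : ℂ))
      (fun l : ℝ => (Icc (0 : ℝ) 1).indicator (fun _ => (1 : ℂ)) l)
  have h3 : ∫ l : ℝ, (Icc (0 : ℝ) 1).indicator (fun _ => (1 : ℂ)) l = 1 := by
    rw [integral_indicator measurableSet_Icc]
    simp
  have h4 : ∫ t : ℝ, (((Icc (b - w / 16) (b + w / 16)).indicator
            (fun t : ℝ => Real.exp (-(N / 4) * (t - b) ^ 2)) t : ℝ) : ℂ) =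
      ((∫ t in Icc (-(w / 16)) (w / 16), Real.exp (-(N / 4) * t ^ 2) : ℝ) : ℂ) := by
    rw [integral_complex_ofReal]
    congr 1
    rw [← integral_indicator measurableSet_Icc,
      ← integral_sub_right_eq_self
        ((Icc (-(w / 16)) (w / 16)).indicator fun t : ℝ => Real.exp (-(N / 4) * t ^ 2)) b]
    congr 1
    funext t
    by_cases ht : t ∈ Icc (b - w / 16) (b + w / 16)
    · have ht' : t - b ∈ Icc (-(w / 16)) (w / 16) := by
        rw [mem_Icc] at ht ⊢
        constructor <;> linarith [ht.1, ht.2]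
      rw [indicator_of_mem ht, indicator_of_mem ht']
    · have ht' : t - b ∉ Icc (-(w / 16)) (w / 16) := by
        rw [mem_Icc] at ht ⊢
        intro h
        exact ht ⟨by linarith [h.1], by linarith [h.2]⟩
      rw [indicator_of_notMem ht, indicator_of_notMem ht']
  rw [h1, h2, h3, h4, mul_one]

/-- PROOF. `chi (x : ℂ) = 1` for `-4 ≤ x ≤ -1/4`, `= 0` for `x ≥ 1/4`, `0 ≤ chi ≤ 1`, so
`|chi x - 1_(x ≤ 0)| ≤ 1_rest(x)`. -/
theorem chiAK_lower (K : ℕ) (hK : 2 ≤ K) :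
    ‖∫ x in Iic (0 : ℝ), AK K (x : ℂ)‖ - ∫ x in restSet, ‖AK K (x : ℂ)‖ ≤
      ‖∫ x : ℝ, (chi (x : ℂ) : ℂ) * AK K (x : ℂ)‖ := by
  have hA := AK_integrable K hK
  have hrest : MeasurableSet restSet := by
    have h1 : MeasurableSet {x : ℝ | |x| < 1 / 4} := (isOpen_lt continuous_abs continuous_const).measurableSet
    have h2 : MeasurableSet {x : ℝ | 4 < |x|} := (isOpen_lt continuous_const continuous_abs).measurableSet
    exact h1.union h2
  have hchi : Continuous fun x : ℝ => (chi (x : ℂ) : ℂ) :=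
    Complex.continuous_ofReal.comp (chi_contDiff.continuous.comp Complex.continuous_ofReal)
  have hchiA : Integrable fun x : ℝ => (chi (x : ℂ) : ℂ) * AK K (x : ℂ) := by
    refine hA.bdd_mul (c := 1) hchi.aestronglyMeasurable (Filter.Eventually.of_forall fun x => ?_)
    rw [Complex.norm_real, Real.norm_eq_abs, abs_of_nonneg (chi_nonneg _)]
    exact chi_le_one _
  have e1 : ∫ x in Iic (0 : ℝ), AK K (x : ℂ) =
      ∫ x : ℝ, (Iic (0 : ℝ)).indicator (fun x : ℝ => AK K (x : ℂ)) x :=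
    (integral_indicator measurableSet_Iic).symm
  have hI : Integrable ((Iic (0 : ℝ)).indicator fun x : ℝ => AK K (x : ℂ)) :=
    hA.indicator measurableSet_Iic
  have e2 : ∫ x in restSet, ‖AK K (x : ℂ)‖ =
      ∫ x : ℝ, restSet.indicator (fun x : ℝ => ‖AK K (x : ℂ)‖) x :=
    (integral_indicator hrest).symm
  have hR : Integrable (restSet.indicator fun x : ℝ => ‖AK K (x : ℂ)‖) :=
    hA.norm.indicator hrest
  have key : ∀ x : ℝ, ‖(Iic (0 : ℝ)).indicator (fun x : ℝ => AK K (x : ℂ)) x -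
      (chi (x : ℂ) : ℂ) * AK K (x : ℂ)‖ ≤ restSet.indicator (fun x : ℝ => ‖AK K (x : ℂ)‖) x := by
    intro x
    have hc0 := chi_nonneg (x : ℂ)
    have hc1 := chi_le_one (x : ℂ)
    by_cases hx : x ∈ restSet
    · rw [indicator_of_mem hx]
      by_cases h0 : x ∈ Iic (0 : ℝ)
      · rw [indicator_of_mem h0]
        have : AK K (x : ℂ) - (chi (x : ℂ) : ℂ) * AK K (x : ℂ) =
            ((1 - chi (x : ℂ) : ℝ) : ℂ) * AK K (x : ℂ) := by
          push_cast
          ring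
        rw [this, norm_mul, Complex.norm_real, Real.norm_eq_abs, abs_of_nonneg (by linarith)]
        have := norm_nonneg (AK K (x : ℂ))
        nlinarith
      · rw [indicator_of_notMem h0, zero_sub, norm_neg, norm_mul, Complex.norm_real,
          Real.norm_eq_abs, abs_of_nonneg hc0]
        have := norm_nonneg (AK K (x : ℂ))
        nlinarith
    · rw [indicator_of_notMem hx]
      have hx1 : 1 / 4 ≤ |x| := by
        by_contra h
        exact hx (Or.inl (not_le.mp h))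
      have hx2 : |x| ≤ 4 := by
        by_contra h
        exact hx (Or.inr (not_le.mp h))
      rcases le_or_gt x 0 with h | h
      · rw [abs_of_nonpos h] at hx1 hx2
        have hx0 : x ∈ Iic (0 : ℝ) := h
        rw [indicator_of_mem hx0, chi_eq_one]
        · simp
        · rw [Complex.ofReal_re]; linarith
        · rw [Complex.ofReal_re]; linarith
        · rw [Complex.ofReal_im]; norm_num
      · rw [abs_of_pos h] at hx1
        have hx0 : x ∉ Iic (0 : ℝ) := not_le.mpr h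
        rw [indicator_of_notMem hx0, chi_eq_zero_of_re]
        · simp
        · rw [Complex.ofReal_re]; linarith
  have h1 : ‖(∫ x : ℝ, (Iic (0 : ℝ)).indicator (fun x : ℝ => AK K (x : ℂ)) x) -
      ∫ x : ℝ, (chi (x : ℂ) : ℂ) * AK K (x : ℂ)‖ ≤
      ∫ x : ℝ, restSet.indicator (fun x : ℝ => ‖AK K (x : ℂ)‖) x := by
    rw [← integral_sub hI hchiA]
    exact norm_integral_le_of_norm_le hR (Filter.Eventually.of_forall key)
  rw [e1, e2]
  have h2 := norm_sub_norm_le (∫ x : ℝ, (Iic (0 : ℝ)).indicator (fun x : ℝ => AK K (x : ℂ)) x)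
    (∫ x : ℝ, (chi (x : ℂ) : ℂ) * AK K (x : ℂ))
  linarith

/-- PROOF. For `N = 512/w^2` and `|t| ≤ w/16`: `(N/4) t^2 ≤ 1/2`, and `exp (-1/2) ≥ 1/2`. -/
theorem gauss_lower (w : ℝ) (hw : 0 < w) :
    w / 16 ≤ ∫ t in Icc (-(w / 16)) (w / 16), Real.exp (-((512 / w ^ 2) / 4) * t ^ 2) := by
  have h1 : ∫ t in Icc (-(w / 16)) (w / 16), (1 / 2 : ℝ) = w / 16 := by
    rw [setIntegral_const, smul_eq_mul, measureReal_def, Real.volume_Icc,
      ENNReal.toReal_ofReal (by linarith)]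
    ring
  refine h1.symm.le.trans ?_
  have hi1 : IntegrableOn (fun _ : ℝ => (1 / 2 : ℝ)) (Icc (-(w / 16)) (w / 16)) :=
    Continuous.integrableOn_Icc continuous_const
  have hi2 : IntegrableOn (fun t : ℝ => Real.exp (-((512 / w ^ 2) / 4) * t ^ 2))
      (Icc (-(w / 16)) (w / 16)) := Continuous.integrableOn_Icc (by fun_prop)
  refine setIntegral_mono_on hi1 hi2 measurableSet_Icc ?_
  · intro t ht
    have h2 : t ^ 2 ≤ (w / 16) ^ 2 := sq_le_sq' ht.1 ht.2
    have h3 : -(1 / 2 : ℝ) ≤ -((512 / w ^ 2) / 4) * t ^ 2 := by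
      have : (512 / w ^ 2) / 4 * t ^ 2 ≤ (512 / w ^ 2) / 4 * (w / 16) ^ 2 := by gcongr
      have e : (512 / w ^ 2) / 4 * (w / 16) ^ 2 = 1 / 2 := by
        field_simp
        norm_num
      linarith
    calc (1 / 2 : ℝ) = -(1 / 2) + 1 := by norm_num
      _ ≤ Real.exp (-(1 / 2)) := Real.add_one_le_exp _
      _ ≤ _ := Real.exp_le_exp.mpr h3

end Pool.Agent.P9749df
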