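import Mathlib

/-!
# Random signs
-/

open MeasureTheory

namespace Pool.Agent.P9749df

/-- The sign of a bit. -/
noncomputable def sgnb (b : Bool) : ℝ := if b then 1 else -1

lemma sgnb_or (b : Bool) : sgnb b = 1 ∨ sgnb b = -1 := by
  cases b <;> simp [sgnb]

lemma sgnb_mul_self (b : Bool) : sgnb b * sgnb b = 1 := by
  cases b <;> simp [sgnb]

lemma sgnb_not (b : Bool) : sgnb (!b) = - sgnb b := by
  cases b <;> simp [sgnb]

lemma sgnb_ne_zero (b : Bool) : sgnb b ≠ 0 := by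
  cases b <;> simp [sgnb]

lemma sum_sgnb {m : ℕ} (j k : Fin m) :
    ∑ ω : Fin m → Bool, ((sgnb (ω j) : ℂ) * (sgnb (ω k) : ℂ)) = if j = k then (2 : ℂ) ^ m else 0 := by
  classical
  by_cases h : j = k
  · subst h
    simp only [if_true]
    have : ∀ ω : Fin m → Bool, ((sgnb (ω j) : ℂ) * (sgnb (ω j) : ℂ)) = 1 := by
      intro ω
      rw [← Complex.ofReal_mul, sgnb_mul_self]; simp
    simp [this]
  · rw [if_neg h]
    refine Finset.sum_involution (fun (ω : Fin m → Bool) _ => Function.update ω j (!(ω j)))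
      ?_ ?_ (fun _ _ => Finset.mem_univ _) ?_
    · intro ω _
      have hk : k ≠ j := fun e => h e.symm
      simp only [Function.update_self, Function.update_of_ne hk]
      rw [sgnb_not]; push_cast; ring
    · intro ω _ _ e
      have := congrFun e j
      simp at this
    · intro ω _
      simp

lemma sum_quad {m : ℕ} (β : Fin m → Fin m → ℂ) :
    ∑ ω : Fin m → Bool, ∑ j : Fin m, ∑ k : Fin m,
        (sgnb (ω j) : ℂ) * (sgnb (ω k) : ℂ) * β j k
      = (2 : ℂ) ^ m * ∑ j, β j j := by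
  classical
  rw [Finset.sum_comm]
  rw [Finset.mul_sum]
  apply Finset.sum_congr rfl
  intro j _
  rw [Finset.sum_comm]
  have : ∀ k : Fin m, ∑ ω : Fin m → Bool, (sgnb (ω j) : ℂ) * (sgnb (ω k) : ℂ) * β j k
      = (if j = k then (2 : ℂ) ^ m else 0) * β j k := by
    intro k
    rw [← Finset.sum_mul, sum_sgnb]
  simp only [this]
  simp [ite_mul]

lemma sum_sq {m : ℕ} (z : Fin m → ℂ) :
    ∑ ω : Fin m → Bool, ‖∑ j, (sgnb (ω j) : ℂ) * z j‖ ^ 2 = (2 : ℝ) ^ m * ∑ j, ‖z j‖ ^ 2 := by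
  have h := sum_quad (fun j k => z j * (starRingEnd ℂ) (z k))
  have e1 : ∀ ω : Fin m → Bool,
      ∑ j, ∑ k, (sgnb (ω j) : ℂ) * (sgnb (ω k) : ℂ) * (z j * (starRingEnd ℂ) (z k))
        = ((‖∑ j, (sgnb (ω j) : ℂ) * z j‖ ^ 2 : ℝ) : ℂ) := by
    intro ω
    rw [← Complex.normSq_eq_norm_sq, ← Complex.mul_conj, map_sum, Finset.sum_mul_sum]
    apply Finset.sum_congr rfl
    intro j _
    apply Finset.sum_congr rfl
    intro k _
    rw [map_mul, Complex.conj_ofReal]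
    ring
  have e2 : ∀ j : Fin m, z j * (starRingEnd ℂ) (z j) = ((‖z j‖ ^ 2 : ℝ) : ℂ) := by
    intro j
    rw [Complex.mul_conj, Complex.normSq_eq_norm_sq]
  simp only [e1, e2] at h
  exact_mod_cast h

lemma sum_norm_le {m : ℕ} (z : Fin m → ℂ) :
    ∑ ω : Fin m → Bool, ‖∑ j, (sgnb (ω j) : ℂ) * z j‖
      ≤ (2 : ℝ) ^ m * Real.sqrt (∑ j, ‖z j‖ ^ 2) := by
  have h := sq_sum_le_card_mul_sum_sq (s := (Finset.univ : Finset (Fin m → Bool)))
    (f := fun ω => ‖∑ j, (sgnb (ω j) : ℂ) * z j‖)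
  rw [sum_sq] at h
  have hc : ((Finset.univ : Finset (Fin m → Bool)).card : ℝ) = (2 : ℝ) ^ m := by
    simp
  rw [hc] at h
  have h0 : 0 ≤ ∑ j, ‖z j‖ ^ 2 := Finset.sum_nonneg (fun j _ => by positivity)
  have h2 : (∑ ω : Fin m → Bool, ‖∑ j, (sgnb (ω j) : ℂ) * z j‖) ^ 2
      ≤ ((2 : ℝ) ^ m * Real.sqrt (∑ j, ‖z j‖ ^ 2)) ^ 2 := by
    rw [mul_pow, Real.sq_sqrt h0]
    calc _ ≤ _ := h
      _ = _ := by ring
  exact (sq_le_sq₀ (Finset.sum_nonneg (fun _ _ => norm_nonneg _)) (by positivity)).mp h2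

/-- Choice of signs.

PROOF. Average over all `ε : Fin m → {1,-1}` (e.g. `Fin m → Bool`, `2^m` elements):
the average of `∑_j ∑_k ε_j ε_k β_jk` is `∑_j β_jj` (`ε_j ε_k` has average `δ_jk`: flip the sign
`j`), so the average of its norm is `≥ ‖∑ β_jj‖`. For every `x` the average of
`‖∑ ε_j G_j x‖` is at most the square root of the average of `‖∑ ε_j G_j x‖^2 = ∑ ‖G_j x‖^2`
(Cauchy-Schwarz for finite sums, e.g. `inner_mul_le_norm_mul_norm` or `Finset.inner_mul_le...`),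
hence the average of `∫ ‖∑ ε_j G_j x‖` is `≤ ∫ √(∑ ‖G_j x‖^2)`. So the average of
`‖∑∑ ε_j ε_k β_jk‖ - C ∫ ‖∑ ε_j G_j‖` is positive, and some `ε` has a positive value. -/
theorem exists_signs {m : ℕ} {α : Type} [MeasurableSpace α] (μ : Measure α)
    (G : Fin m → α → ℂ) (hG : ∀ j, Integrable (G j) μ) (β : Fin m → Fin m → ℂ) (C : ℝ)
    (hC : 0 ≤ C) (h : C * ∫ x, Real.sqrt (∑ j, ‖G j x‖ ^ 2) ∂μ < ‖∑ j, β j j‖) :
    ∃ ε : Fin m → ℝ, (∀ j, ε j = 1 ∨ ε j = -1) ∧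
      C * ∫ x, ‖∑ j, (ε j : ℂ) * G j x‖ ∂μ < ‖∑ j, ∑ k, (ε j : ℂ) * (ε k : ℂ) * β j k‖ := by
  classical
  by_contra hcon
  push Not at hcon
  have hω : ∀ ω : Fin m → Bool,
      ‖∑ j, ∑ k, (sgnb (ω j) : ℂ) * (sgnb (ω k) : ℂ) * β j k‖
        ≤ C * ∫ x, ‖∑ j, (sgnb (ω j) : ℂ) * G j x‖ ∂μ :=
    fun ω => hcon (fun j => sgnb (ω j)) (fun j => sgnb_or (ω j))
  have hint : ∀ ω : Fin m → Bool, Integrable (fun x => ∑ j, (sgnb (ω j) : ℂ) * G j x) μ := by
    intro ω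
    apply integrable_finsetSum
    intro j _
    exact (hG j).const_mul _
  have hsqrt : Integrable (fun x => Real.sqrt (∑ j, ‖G j x‖ ^ 2)) μ := by
    have hb : Integrable (fun x => ∑ j, ‖G j x‖) μ :=
      integrable_finsetSum _ (fun j _ => (hG j).norm)
    apply hb.mono'
    · have hm : AEStronglyMeasurable (fun x => ∑ j, ‖G j x‖ ^ 2) μ := by
        apply Finset.aestronglyMeasurable_fun_sum
        intro j _
        exact (hG j).aestronglyMeasurable.norm.pow 2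
      exact Real.continuous_sqrt.comp_aestronglyMeasurable hm
    · filter_upwards with x
      rw [Real.norm_of_nonneg (Real.sqrt_nonneg _)]
      apply Real.sqrt_le_iff.mpr
      refine ⟨Finset.sum_nonneg (fun j _ => norm_nonneg _), ?_⟩
      rw [sq, Finset.sum_mul]
      apply Finset.sum_le_sum
      intro j _
      rw [sq]
      exact mul_le_mul_of_nonneg_left
        (Finset.single_le_sum (f := fun j => ‖G j x‖) (fun i _ => norm_nonneg _) (Finset.mem_univ j))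
        (norm_nonneg _)
  have hsum : ∑ ω : Fin m → Bool, ∫ x, ‖∑ j, (sgnb (ω j) : ℂ) * G j x‖ ∂μ
      ≤ (2 : ℝ) ^ m * ∫ x, Real.sqrt (∑ j, ‖G j x‖ ^ 2) ∂μ := by
    rw [← integral_finsetSum _ (fun ω _ => (hint ω).norm), ← integral_const_mul]
    apply integral_mono
    · exact integrable_finsetSum _ (fun ω _ => (hint ω).norm)
    · exact hsqrt.const_mul _
    · intro x
      exact sum_norm_le (fun j => G j x)
  have hnorm : (2 : ℝ) ^ m * ‖∑ j, β j j‖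
      ≤ ∑ ω : Fin m → Bool, ‖∑ j, ∑ k, (sgnb (ω j) : ℂ) * (sgnb (ω k) : ℂ) * β j k‖ := by
    have := norm_sum_le (Finset.univ : Finset (Fin m → Bool))
      (fun ω => ∑ j, ∑ k, (sgnb (ω j) : ℂ) * (sgnb (ω k) : ℂ) * β j k)
    rw [sum_quad, norm_mul, norm_pow] at this
    simpa using this
  have h1 : ∑ ω : Fin m → Bool, ‖∑ j, ∑ k, (sgnb (ω j) : ℂ) * (sgnb (ω k) : ℂ) * β j k‖
      ≤ C * ∑ ω : Fin m → Bool, ∫ x, ‖∑ j, (sgnb (ω j) : ℂ) * G j x‖ ∂μ := by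
    rw [Finset.mul_sum]
    exact Finset.sum_le_sum (fun ω _ => hω ω)
  have h2 : (2 : ℝ) ^ m * ‖∑ j, β j j‖
      ≤ (2 : ℝ) ^ m * (C * ∫ x, Real.sqrt (∑ j, ‖G j x‖ ^ 2) ∂μ) := by
    calc _ ≤ _ := hnorm
      _ ≤ _ := h1
      _ ≤ C * ((2 : ℝ) ^ m * ∫ x, Real.sqrt (∑ j, ‖G j x‖ ^ 2) ∂μ) :=
        mul_le_mul_of_nonneg_left hsum hC
      _ = _ := by ring
  have h3 := le_of_mul_le_mul_left h2 (by positivity)
  exact absurd h3 (not_le.mpr h)

end Pool.Agent.P9749df
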