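import Pool.Agent.Lib.P9749df.Shear
import Pool.Agent.Lib.P9749df.AKint

/-!
# The square function of the annihilating measure
-/

open MeasureTheory Set
open scoped ENNReal

namespace Pool.Agent.P9749df

/-- `‖G‖` is `|A_K(q)|` times an indicator. -/
theorem G_norm_sq (K : ℕ) (N a b w : ℝ) (X : R3) :
    ‖G K N a b w X‖ ^ 2 = if 0 ≤ linR a X ∧ linR a X ≤ 1 ∧ |X.2.1 - a * X.1 - b| ≤ w / 16 then
      ‖AK K (X.1 : ℂ)‖ ^ 2 else 0 := by
  unfold G
  split_ifs with h
  · rw [norm_mul]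
    have : ‖Complex.exp (-(Complex.I * N * linR a X))‖ = 1 := by
      rw [Complex.norm_exp]
      simp [Complex.mul_re, Complex.mul_im]
    rw [this, mul_one]
  · simp

namespace SqNorm

/-- The condition in `p`, `r`. -/
def cond (a b w : ℝ) (X : R3) : Prop :=
  0 ≤ linR a X ∧ linR a X ≤ 1 ∧ |X.2.1 - a * X.1 - b| ≤ w / 16

theorem measurableSet_cond (a b w : ℝ) : MeasurableSet {X : R3 | cond a b w X} := by
  have h1 : Continuous (fun X : R3 => linR a X) := by unfold linR; fun_prop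
  have h2 : Continuous (fun X : R3 => |X.2.1 - a * X.1 - b|) := by fun_prop
  have e : {X : R3 | cond a b w X} = {X | 0 ≤ linR a X} ∩ ({X | linR a X ≤ 1} ∩
      {X | |X.2.1 - a * X.1 - b| ≤ w / 16}) := by
    ext X; simp [cond]
  rw [e]
  exact ((isClosed_le continuous_const h1).inter
    ((isClosed_le h1 continuous_const).inter (isClosed_le h2 continuous_const))).measurableSet

/-- the number of lines at `X`. -/
noncomputable def num {m : ℕ} (a b : Fin m → ℝ) (w : ℝ) (X : R3) : ℝ≥0∞ :=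
  ∑ k, {X : R3 | cond (a k) (b k) w X}.indicator (fun _ => (1 : ℝ≥0∞)) X

theorem num_measurable {m : ℕ} (a b : Fin m → ℝ) (w : ℝ) : Measurable (num a b w) := by
  unfold num
  refine Finset.measurable_sum _ fun k _ => ?_
  exact measurable_const.indicator (measurableSet_cond _ _ _)

/-- the square function -/
theorem sqrt_eq {m : ℕ} (K : ℕ) (N : ℝ) (a b : Fin m → ℝ) (w : ℝ) (X : R3) :
    ENNReal.ofReal (Real.sqrt (∑ k, ‖G K N (a k) (b k) w X‖ ^ 2)) =
      ‖AK K (X.1 : ℂ)‖ₑ * (num a b w X) ^ (1 / 2 : ℝ) := by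
  classical
  set c : ℝ := ‖AK K (X.1 : ℂ)‖ with hc
  have hc0 : 0 ≤ c := norm_nonneg _
  set s : Fin m → ℝ := fun k => if cond (a k) (b k) w X then 1 else 0 with hs
  have hs0 : ∀ k, 0 ≤ s k := by intro k; simp only [hs]; split_ifs <;> norm_num
  have h1 : ∑ k, ‖G K N (a k) (b k) w X‖ ^ 2 = c ^ 2 * ∑ k, s k := by
    rw [Finset.mul_sum]
    refine Finset.sum_congr rfl fun k _ => ?_
    rw [G_norm_sq]
    by_cases h : cond (a k) (b k) w X
    · have h' : 0 ≤ linR (a k) X ∧ linR (a k) X ≤ 1 ∧ |X.2.1 - a k * X.1 - b k| ≤ w / 16 := h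
      rw [if_pos h']
      simp only [hs]
      rw [if_pos h, mul_one]
    · have h' : ¬ (0 ≤ linR (a k) X ∧ linR (a k) X ≤ 1 ∧
          |X.2.1 - a k * X.1 - b k| ≤ w / 16) := h
      rw [if_neg h']
      simp only [hs]
      rw [if_neg h, mul_zero]
  have h2 : num a b w X = ENNReal.ofReal (∑ k, s k) := by
    rw [ENNReal.ofReal_sum_of_nonneg (fun k _ => hs0 k)]
    unfold num
    refine Finset.sum_congr rfl fun k _ => ?_
    by_cases h : cond (a k) (b k) w X
    · simp [hs, h, Set.indicator]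
    · simp [hs, h, Set.indicator]
  have hS : 0 ≤ ∑ k, s k := Finset.sum_nonneg fun k _ => hs0 k
  rw [h1, Real.sqrt_mul (sq_nonneg c), Real.sqrt_sq hc0, ENNReal.ofReal_mul hc0, h2,
    ENNReal.ofReal_rpow_of_nonneg hS (by norm_num), ← Real.sqrt_eq_rpow, hc,
    ofReal_norm]

theorem inner_p (a b w q r : ℝ) :
    ∫⁻ p : ℝ, {X : R3 | cond a b w X}.indicator (fun _ => (1 : ℝ≥0∞)) (q, r, p) =
      (Icc (a * q + b - w / 16) (a * q + b + w / 16)).indicator (fun _ => (1 : ℝ≥0∞)) r := by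
  by_cases hr : r ∈ Icc (a * q + b - w / 16) (a * q + b + w / 16)
  · rw [indicator_of_mem hr]
    have e : (fun p : ℝ => {X : R3 | cond a b w X}.indicator (fun _ => (1 : ℝ≥0∞)) (q, r, p)) =
        (Icc (2 * a * r - a ^ 2 * q) (2 * a * r - a ^ 2 * q + 1)).indicator
          (fun _ => (1 : ℝ≥0∞)) := by
      funext p
      by_cases hp : p ∈ Icc (2 * a * r - a ^ 2 * q) (2 * a * r - a ^ 2 * q + 1)
      · rw [indicator_of_mem hp, indicator_of_mem]
        simp only [mem_Icc] at hp hr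
        simp only [mem_ofPred_eq, cond, linR, abs_le]
        refine ⟨by linarith [hp.1], by linarith [hp.2], by linarith [hr.1], by linarith [hr.2]⟩
      · rw [indicator_of_notMem hp, indicator_of_notMem]
        simp only [mem_Icc, not_and_or, not_le] at hp
        simp only [mem_ofPred_eq, cond, linR]
        rintro ⟨h1, h2, -⟩
        rcases hp with hp | hp <;> linarith
    rw [e, lintegral_indicator measurableSet_Icc, lintegral_const, Measure.restrict_apply_univ,
      Real.volume_Icc, one_mul]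
    norm_num
  · rw [indicator_of_notMem hr]
    have e : (fun p : ℝ => {X : R3 | cond a b w X}.indicator (fun _ => (1 : ℝ≥0∞)) (q, r, p)) =
        fun _ => 0 := by
      funext p
      rw [indicator_of_notMem]
      simp only [mem_Icc, not_and_or, not_le] at hr
      simp only [mem_ofPred_eq, cond, linR, abs_le]
      rintro ⟨-, -, h1, h2⟩
      rcases hr with hr | hr <;> linarith
    rw [e, lintegral_zero]

/-- number of lines at `(q, r)`. -/
noncomputable def nu {m : ℕ} (a b : Fin m → ℝ) (w q r : ℝ) : ℝ≥0∞ :=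
  ∑ k, (Icc (a k * q + b k - w / 16) (a k * q + b k + w / 16)).indicator (fun _ => (1 : ℝ≥0∞)) r

theorem nu_measurable {m : ℕ} (a b : Fin m → ℝ) (w q : ℝ) : Measurable (nu a b w q) := by
  unfold nu
  exact Finset.measurable_sum _ fun k _ => measurable_const.indicator measurableSet_Icc

theorem lintegral_nu {m : ℕ} (a b : Fin m → ℝ) (w q : ℝ) :
    ∫⁻ r, nu a b w q r = ENNReal.ofReal (m * w / 8) := by
  unfold nu
  rw [lintegral_finsetSum _ fun k _ => measurable_const.indicator measurableSet_Icc]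
  have : ∀ k : Fin m, ∫⁻ r, (Icc (a k * q + b k - w / 16) (a k * q + b k + w / 16)).indicator
      (fun _ => (1 : ℝ≥0∞)) r = ENNReal.ofReal (w / 8) := by
    intro k
    rw [lintegral_indicator measurableSet_Icc, lintegral_const, Measure.restrict_apply_univ,
      Real.volume_Icc, one_mul]
    congr 1; ring
  rw [Finset.sum_congr rfl fun k _ => this k, Finset.sum_const, Finset.card_univ,
    Fintype.card_fin, nsmul_eq_mul, ← ENNReal.ofReal_natCast, ← ENNReal.ofReal_mul (by positivity)]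
  congr 1; ring

theorem num_slice {m : ℕ} (a b : Fin m → ℝ) (w q r : ℝ) :
    Measurable fun p : ℝ => num a b w (q, r, p) :=
  (num_measurable a b w).comp (by fun_prop)

theorem lintegral_num {m : ℕ} (a b : Fin m → ℝ) (w q r : ℝ) :
    ∫⁻ p : ℝ, num a b w (q, r, p) = nu a b w q r := by
  unfold num nu
  rw [lintegral_finsetSum]
  · exact Finset.sum_congr rfl fun k _ => inner_p _ _ _ _ _
  · intro k _
    exact (measurable_const.indicator (measurableSet_cond _ _ _)).comp (by fun_prop)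

/-- `n` is zero or at least one. -/
theorem num_zero_or {m : ℕ} (a b : Fin m → ℝ) (w : ℝ) (X : R3) :
    num a b w X = 0 ∨ 1 ≤ num a b w X := by
  by_cases h : ∃ k, cond (a k) (b k) w X
  · right
    obtain ⟨k, hk⟩ := h
    unfold num
    calc (1 : ℝ≥0∞) = {X : R3 | cond (a k) (b k) w X}.indicator (fun _ => (1 : ℝ≥0∞)) X := by
          rw [indicator_of_mem]; exact hk
      _ ≤ _ := Finset.single_le_sum (f := fun k =>
          {X : R3 | cond (a k) (b k) w X}.indicator (fun _ => (1 : ℝ≥0∞)) X)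
          (fun _ _ => zero_le) (Finset.mem_univ k)
  · left
    push Not at h
    unfold num
    refine Finset.sum_eq_zero fun k _ => ?_
    rw [indicator_of_notMem]; exact h k

theorem rpow_half_le {x : ℝ≥0∞} (h : x = 0 ∨ 1 ≤ x) : x ^ (1 / 2 : ℝ) ≤ x := by
  rcases h with h | h
  · rw [h]; simp
  · calc x ^ (1 / 2 : ℝ) ≤ x ^ (1 : ℝ) := ENNReal.rpow_le_rpow_of_exponent_le h (by norm_num)
      _ = x := ENNReal.rpow_one x

/-- the bound for all `q`. -/
theorem all_q {m : ℕ} (a b : Fin m → ℝ) (w q : ℝ) (_hw : 0 < w) :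
    ∫⁻ r : ℝ, ∫⁻ p : ℝ, (num a b w (q, r, p)) ^ (1 / 2 : ℝ) ≤ ENNReal.ofReal (m * w / 8) := by
  rw [← lintegral_nu a b w q]
  refine lintegral_mono fun r => ?_
  rw [← lintegral_num]
  exact lintegral_mono fun p => rpow_half_le (num_zero_or _ _ _ _)

theorem num_le {m : ℕ} (a b : Fin m → ℝ) (w q r p : ℝ) (hw1 : w ≤ 1)
    (hq : |q| ≤ 4) (ha : ∀ j, 0 ≤ a j ∧ a j ≤ 1) (hb : ∀ j, |b j| ≤ 4) :
    num a b w (q, r, p) ≤ (Icc (-23 : ℝ) 23).indicator (fun _ => nu a b w q r) p := by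
  have key : ∀ k, cond (a k) (b k) w (q, r, p) →
      r ∈ Icc (a k * q + b k - w / 16) (a k * q + b k + w / 16) ∧ p ∈ Icc (-23 : ℝ) 23 := by
    intro k hk
    obtain ⟨h1, h2, h3⟩ := hk
    simp only [linR] at h1 h2 h3
    obtain ⟨h4, h5⟩ := abs_le.1 h3
    obtain ⟨b1, b2⟩ := abs_le.1 (hb k)
    obtain ⟨q1, q2⟩ := abs_le.1 hq
    obtain ⟨a1, a2⟩ := ha k
    refine ⟨⟨by linarith, by linarith⟩, ?_⟩
    set t := r - a k * q - b k with ht
    have hr : r = a k * q + b k + t := by rw [ht]; ring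
    have e : 2 * a k * r - a k ^ 2 * q = a k * (a k * q + 2 * b k + 2 * t) := by rw [hr]; ring
    have f1 : |a k * q + 2 * b k + 2 * t| ≤ 22 := by
      rw [abs_le]
      constructor <;> nlinarith
    have f2 : |2 * a k * r - a k ^ 2 * q| ≤ 22 := by
      rw [e, abs_mul, abs_of_nonneg a1]
      nlinarith [abs_nonneg (a k * q + 2 * b k + 2 * t)]
    obtain ⟨g1, g2⟩ := abs_le.1 f2
    constructor <;> linarith
  by_cases hp : p ∈ Icc (-23 : ℝ) 23
  · rw [indicator_of_mem hp]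
    unfold num nu
    refine Finset.sum_le_sum fun k _ => ?_
    by_cases h : cond (a k) (b k) w (q, r, p)
    · rw [indicator_of_mem (show (q, r, p) ∈ {X : R3 | cond (a k) (b k) w X} from h),
        indicator_of_mem (key k h).1]
    · rw [indicator_of_notMem (show (q, r, p) ∉ {X : R3 | cond (a k) (b k) w X} from h)]
      exact zero_le
  · rw [indicator_of_notMem hp]
    unfold num
    refine le_of_eq (Finset.sum_eq_zero fun k _ => ?_)
    rw [indicator_of_notMem]
    exact fun h => hp (key k h).2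

/-- the bound for middle `q`. -/
theorem mid_q {m : ℕ} (a b : Fin m → ℝ) (w q η : ℝ) (hw : 0 < w) (hw1 : w ≤ 1)
    (hη : 0 ≤ η)
    (hq : |q| ≤ 4) (ha : ∀ j, 0 ≤ a j ∧ a j ≤ 1) (hb : ∀ j, |b j| ≤ 4)
    (hE : volume (⋃ j, Icc (a j * q + b j - w / 16) (a j * q + b j + w / 16)) ≤
        ENNReal.ofReal η) :
    ∫⁻ r : ℝ, ∫⁻ p : ℝ, (num a b w (q, r, p)) ^ (1 / 2 : ℝ) ≤
      ENNReal.ofReal (46 * Real.sqrt (η * (m * w / 8))) := by
  set E : Set ℝ := ⋃ j, Icc (a j * q + b j - w / 16) (a j * q + b j + w / 16) with hEd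
  have hEm : MeasurableSet E := MeasurableSet.iUnion fun j => measurableSet_Icc
  have s1 : ∀ r : ℝ, ∫⁻ p : ℝ, (num a b w (q, r, p)) ^ (1 / 2 : ℝ) ≤
      46 * (nu a b w q r) ^ (1 / 2 : ℝ) := by
    intro r
    calc ∫⁻ p : ℝ, (num a b w (q, r, p)) ^ (1 / 2 : ℝ)
        ≤ ∫⁻ p : ℝ, (Icc (-23 : ℝ) 23).indicator (fun _ => (nu a b w q r) ^ (1 / 2 : ℝ)) p := by
          refine lintegral_mono fun p => ?_
          have h := num_le a b w q r p hw1 hq ha hb
          by_cases hp : p ∈ Icc (-23 : ℝ) 23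
          · rw [indicator_of_mem hp] at h
            simp only []
            rw [indicator_of_mem hp]
            exact ENNReal.rpow_le_rpow h (by norm_num)
          · rw [indicator_of_notMem hp] at h
            simp only []
            rw [indicator_of_notMem hp, nonpos_iff_eq_zero.1 h]
            simp
      _ = 46 * (nu a b w q r) ^ (1 / 2 : ℝ) := by
          rw [lintegral_indicator measurableSet_Icc, lintegral_const, Measure.restrict_apply_univ,
            Real.volume_Icc, mul_comm]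
          congr 1
          norm_num
  have s2 : ∀ r : ℝ, (nu a b w q r) ^ (1 / 2 : ℝ) =
      (nu a b w q r) ^ (1 / 2 : ℝ) * E.indicator (fun _ => (1 : ℝ≥0∞)) r := by
    intro r
    by_cases hr : r ∈ E
    · rw [indicator_of_mem hr, mul_one]
    · rw [indicator_of_notMem hr, mul_zero]
      have : nu a b w q r = 0 := by
        unfold nu
        refine Finset.sum_eq_zero fun k _ => ?_
        rw [indicator_of_notMem]
        exact fun h => hr (mem_iUnion.2 ⟨k, h⟩)
      rw [this]; simp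
  have s3 : ∫⁻ r : ℝ, (nu a b w q r) ^ (1 / 2 : ℝ) ≤
      (ENNReal.ofReal (m * w / 8)) ^ (1 / 2 : ℝ) * (ENNReal.ofReal η) ^ (1 / 2 : ℝ) := by
    calc ∫⁻ r : ℝ, (nu a b w q r) ^ (1 / 2 : ℝ)
        = ∫⁻ r : ℝ, ((fun r => (nu a b w q r) ^ (1 / 2 : ℝ)) *
            (E.indicator (fun _ => (1 : ℝ≥0∞)))) r := lintegral_congr fun r => s2 r
      _ ≤ (∫⁻ r : ℝ, ((nu a b w q r) ^ (1 / 2 : ℝ)) ^ (2 : ℝ)) ^ (1 / (2 : ℝ)) *
          (∫⁻ r : ℝ, (E.indicator (fun _ => (1 : ℝ≥0∞)) r) ^ (2 : ℝ)) ^ (1 / (2 : ℝ)) := by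
          apply ENNReal.lintegral_mul_le_Lp_mul_Lq
          · rw [Real.holderConjugate_iff]; norm_num
          · exact ((nu_measurable a b w q).pow_const _).aemeasurable
          · exact (measurable_const.indicator hEm).aemeasurable
      _ ≤ _ := by
          refine mul_le_mul' (ENNReal.rpow_le_rpow ?_ (by norm_num))
            (ENNReal.rpow_le_rpow ?_ (by norm_num))
          · rw [← lintegral_nu a b w q]
            refine lintegral_mono fun r => ?_
            rw [← ENNReal.rpow_mul]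
            norm_num
          · refine le_trans (le_of_eq ?_) hE
            calc ∫⁻ r : ℝ, (E.indicator (fun _ => (1 : ℝ≥0∞)) r) ^ (2 : ℝ)
                = ∫⁻ r : ℝ, E.indicator (fun _ => (1 : ℝ≥0∞)) r := by
                  refine lintegral_congr fun r => ?_
                  by_cases hr : r ∈ E
                  · rw [indicator_of_mem hr]; simp
                  · rw [indicator_of_notMem hr]; simp
              _ = volume E := by
                  rw [lintegral_indicator hEm, lintegral_const, Measure.restrict_apply_univ,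
                    one_mul]
  calc ∫⁻ r : ℝ, ∫⁻ p : ℝ, (num a b w (q, r, p)) ^ (1 / 2 : ℝ)
      ≤ ∫⁻ r : ℝ, 46 * (nu a b w q r) ^ (1 / 2 : ℝ) := lintegral_mono s1
    _ = 46 * ∫⁻ r : ℝ, (nu a b w q r) ^ (1 / 2 : ℝ) :=
        lintegral_const_mul _ ((nu_measurable a b w q).pow_const _)
    _ ≤ 46 * ((ENNReal.ofReal (m * w / 8)) ^ (1 / 2 : ℝ) * (ENNReal.ofReal η) ^ (1 / 2 : ℝ)) :=
        mul_le_mul_right s3 _
    _ = ENNReal.ofReal (46 * Real.sqrt (η * (m * w / 8))) := by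
        have hm : 0 ≤ (m : ℝ) * w / 8 := by positivity
        rw [ENNReal.ofReal_mul (by norm_num), Real.sqrt_mul hη, ENNReal.ofReal_mul (Real.sqrt_nonneg _),
          ENNReal.ofReal_rpow_of_nonneg hm (by norm_num),
          ENNReal.ofReal_rpow_of_nonneg hη (by norm_num), ← Real.sqrt_eq_rpow,
          ← Real.sqrt_eq_rpow]
        rw [mul_comm (ENNReal.ofReal √(m * w / 8))]
        congr 1
        norm_num

end SqNorm

open SqNorm in
/-- For fixed `q` the square function is controlled by the number of lines: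

if `1/4 ≤ |q| ≤ 4`: put `n(r,p) = #{k : 0 ≤ l_k ≤ 1, |r - a_k q - b_k| ≤ w/16}` and
`ν(r) = #{k : |r - a_k q - b_k| ≤ w/16}`. Then `n ≤ ν(r) 1[|p| ≤ 23]` (`|r| ≤ 9`,
`|2 a r - a^2 q| ≤ 22`), so `∫∫ √n ≤ 46 ∫ √ν ≤ 46 √(|E_q|) √(∫ ν)`, `∫ ν = m w/8`,
`|E_q| ≤ η` (`ν` is supported in the union `E_q`). For all `q`: `√n ≤ n` and `∫∫ n = m w/8`.
Integrate over `q` against `|A_K(q)|` (Fubini). -/
theorem sqNorm_bound {m : ℕ} (K : ℕ) (hK : 2 ≤ K) (N : ℝ) (a b : Fin m → ℝ) (w η : ℝ)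
    (hw : 0 < w) (hw1 : w ≤ 1) (hη : 0 ≤ η) (ha : ∀ j, 0 ≤ a j ∧ a j ≤ 1) (hb : ∀ j, |b j| ≤ 4)
    (hE : ∀ x : ℝ, 1 / 4 ≤ |x| → |x| ≤ 4 →
      volume (⋃ j, Icc (a j * x + b j - w / 16) (a j * x + b j + w / 16)) ≤
        ENNReal.ofReal η) :
    ∫ X : R3, Real.sqrt (∑ k, ‖G K N (a k) (b k) w X‖ ^ 2) ≤
      46 * Real.sqrt (η * (m * w / 8)) * (∫ x : ℝ, ‖AK K (x : ℂ)‖) +
        m * w / 8 * ∫ x in restSet, ‖AK K (x : ℂ)‖ := by
  have hm : 0 ≤ (m : ℝ) * w / 8 := by positivity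
  have hRm : MeasurableSet restSet := by
    have e : restSet = {x : ℝ | |x| < 1 / 4} ∪ {x | 4 < |x|} := by
      ext x; simp [restSet]
    rw [e]
    exact ((isOpen_lt continuous_abs continuous_const).union
      (isOpen_lt continuous_const continuous_abs)).measurableSet
  have hAi := AK_integrable K hK
  have hI1 : ENNReal.ofReal (∫ x : ℝ, ‖AK K (x : ℂ)‖) = ∫⁻ x : ℝ, ‖AK K (x : ℂ)‖ₑ :=
    ofReal_integral_norm_eq_lintegral_enorm hAi
  have hI2 : ENNReal.ofReal (∫ x in restSet, ‖AK K (x : ℂ)‖) =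
      ∫⁻ x in restSet, ‖AK K (x : ℂ)‖ₑ :=
    ofReal_integral_norm_eq_lintegral_enorm hAi.integrableOn
  have hAm : Measurable fun x : ℝ => ‖AK K (x : ℂ)‖ₑ := by
    unfold AK
    refine Measurable.enorm (Measurable.pow_const ?_ K)
    exact Complex.measurable_ofReal.div ((Complex.measurable_ofReal.add_const _).pow_const 2)
  have hn0 : 0 ≤ ∫ x : ℝ, ‖AK K (x : ℂ)‖ := integral_nonneg fun x => norm_nonneg _
  have hn1 : 0 ≤ ∫ x in restSet, ‖AK K (x : ℂ)‖ := integral_nonneg fun x => norm_nonneg _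
  have hnum := num_measurable a b w
  have hF : Measurable fun X : R3 => ‖AK K (X.1 : ℂ)‖ₑ * (num a b w X) ^ (1 / 2 : ℝ) :=
    (hAm.comp measurable_fst).mul (hnum.pow_const _)
  have hsm : AEStronglyMeasurable (fun X : R3 =>
      Real.sqrt (∑ k, ‖G K N (a k) (b k) w X‖ ^ 2)) volume := by
    have : (fun X : R3 => Real.sqrt (∑ k, ‖G K N (a k) (b k) w X‖ ^ 2)) =
        fun X : R3 => (‖AK K (X.1 : ℂ)‖ₑ * (num a b w X) ^ (1 / 2 : ℝ)).toReal := by
      funext X
      rw [← sqrt_eq K N a b w X, ENNReal.toReal_ofReal (Real.sqrt_nonneg _)]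
    rw [this]
    exact hF.ennreal_toReal.aestronglyMeasurable
  rw [integral_eq_lintegral_of_nonneg_ae (Filter.Eventually.of_forall fun X => Real.sqrt_nonneg _)
    hsm]
  refine ENNReal.toReal_le_of_le_ofReal (by positivity) ?_
  have e1 : ∫⁻ X : R3, ENNReal.ofReal (Real.sqrt (∑ k, ‖G K N (a k) (b k) w X‖ ^ 2)) =
      ∫⁻ q : ℝ, ‖AK K (q : ℂ)‖ₑ * ∫⁻ r : ℝ, ∫⁻ p : ℝ, (num a b w (q, r, p)) ^ (1 / 2 : ℝ) := by
    rw [lintegral_congr fun X => sqrt_eq K N a b w X]
    rw [Measure.volume_eq_prod, lintegral_prod _ hF.aemeasurable]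
    refine lintegral_congr fun q => ?_
    have hFq : Measurable fun y : ℝ × ℝ => ‖AK K (q : ℂ)‖ₑ * (num a b w (q, y)) ^ (1 / 2 : ℝ) :=
      ((hnum.comp (measurable_const.prodMk measurable_id)).pow_const _).const_mul _
    rw [Measure.volume_eq_prod, lintegral_prod _ hFq.aemeasurable]
    have h2 : ∀ r : ℝ, ∫⁻ p : ℝ, ‖AK K (q : ℂ)‖ₑ * (num a b w (q, r, p)) ^ (1 / 2 : ℝ) =
        ‖AK K (q : ℂ)‖ₑ * ∫⁻ p : ℝ, (num a b w (q, r, p)) ^ (1 / 2 : ℝ) := fun r =>
      lintegral_const_mul _ ((num_slice a b w q r).pow_const _)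
    rw [lintegral_congr h2]
    refine lintegral_const_mul _ ?_
    have : Measurable fun X : ℝ × ℝ => (num a b w (q, X.1, X.2)) ^ (1 / 2 : ℝ) :=
      (hnum.comp (by fun_prop)).pow_const _
    exact this.lintegral_prod_right'
  rw [e1]
  set C1 : ℝ := 46 * Real.sqrt (η * (m * w / 8)) with hC1
  have hC10 : 0 ≤ C1 := by positivity
  calc ∫⁻ q : ℝ, ‖AK K (q : ℂ)‖ₑ * ∫⁻ r : ℝ, ∫⁻ p : ℝ, (num a b w (q, r, p)) ^ (1 / 2 : ℝ)
      ≤ ∫⁻ q : ℝ, (ENNReal.ofReal C1 * ‖AK K (q : ℂ)‖ₑ +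
          restSet.indicator (fun q => ENNReal.ofReal (m * w / 8) * ‖AK K (q : ℂ)‖ₑ) q) := by
        refine lintegral_mono fun q => ?_
        simp only []
        by_cases hq : q ∈ restSet
        · rw [indicator_of_mem hq]
          refine le_trans ?_ le_add_self
          rw [mul_comm]
          exact mul_le_mul_left (all_q a b w q hw) _
        · rw [indicator_of_notMem hq, add_zero, mul_comm]
          simp only [restSet, mem_ofPred_eq, not_or, not_lt] at hq
          exact mul_le_mul_left (mid_q a b w q η hw hw1 hη hq.2 ha hb (hE q hq.1 hq.2)) _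
    _ = ENNReal.ofReal C1 * (∫⁻ q : ℝ, ‖AK K (q : ℂ)‖ₑ) +
          ENNReal.ofReal (m * w / 8) * ∫⁻ q in restSet, ‖AK K (q : ℂ)‖ₑ := by
        rw [lintegral_add_left (hAm.const_mul _), lintegral_const_mul _ hAm,
          lintegral_indicator hRm, lintegral_const_mul _ hAm]
    _ = ENNReal.ofReal (C1 * (∫ x : ℝ, ‖AK K (x : ℂ)‖) +
          m * w / 8 * ∫ x in restSet, ‖AK K (x : ℂ)‖) := by
        rw [← hI1, ← hI2, ENNReal.ofReal_add (by positivity) (by positivity),
          ENNReal.ofReal_mul hC10, ENNReal.ofReal_mul hm]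

end Pool.Agent.P9749df
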