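import Pool.Agent.Lib.P9749df.Kakeya
import Pool.Agent.Lib.P9749df.Signs
import Pool.Agent.Lib.P9749df.DbarU
import Pool.Agent.Lib.P9749df.Annih
import Pool.Agent.Lib.P9749df.Diag
import Pool.Agent.Lib.P9749df.SqNorm

/-!
# The core construction on symmetric `2 × 2` matrices
-/

open MeasureTheory Set Filter Topology
open scoped ContDiff

namespace Pool.Agent.P9749df

/-- Multiplying by a constant. -/
theorem dbarV_const_mul (c : ℂ) (u : C3 → ℂ) (Z v : C3) (hu : DifferentiableAt ℝ u Z) :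
    dbarV (fun Z => c * u Z) Z v = c * dbarV u Z v := by
  unfold dbarV
  have h : fderiv ℝ (fun Z => c * u Z) Z = c • fderiv ℝ u Z := by
    exact (hu.hasFDerivAt.const_mul c).fderiv
  rw [h]
  simp only [smul_apply, smul_eq_mul]
  ring

theorem norm_packet_toC (N a b : ℝ) (hN : 0 ≤ N) (X : R3) : ‖packet N a b (toC X)‖ ≤ 1 := by
  unfold packet
  rw [Complex.norm_exp]
  have : (Complex.I * N * lin a (toC X) - (N / 4) * tr a b (toC X) ^ 2) =
      Complex.I * ((N * (X.2.2 - 2 * a * X.2.1 + a ^ 2 * X.1) : ℝ) : ℂ) -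
        (((N / 4) * (X.2.1 - a * X.1 - b) ^ 2 : ℝ) : ℂ) := by
    simp only [lin, tr, toC]
    push_cast
    ring
  rw [this]
  rw [Complex.sub_re, Complex.ofReal_re, Complex.I_mul_re, Complex.ofReal_im]
  apply Real.exp_le_one_iff.mpr
  have : 0 ≤ (N / 4) * (X.2.1 - a * X.1 - b) ^ 2 := by positivity
  linarith

theorem continuous_packet_toC (N a b : ℝ) : Continuous (fun X : R3 => packet N a b (toC X)) := by
  unfold packet lin tr toC
  fun_prop

theorem continuous_toC : Continuous (fun X : R3 => toC X) := by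
  unfold toC
  fun_prop

theorem norm_chi_le (q : ℂ) (h : 0 ≤ chi q) (h' : chi q ≤ 1) : ‖(chi q : ℂ)‖ ≤ 1 := by
  rw [Complex.norm_real, Real.norm_eq_abs, abs_of_nonneg h]
  exact h'

theorem integrable_pair (K : ℕ) (hK : 2 ≤ K) (N a b a' b' w : ℝ) (hN : 0 ≤ N) :
    Integrable (fun X : R3 => (chi (X.1 : ℂ) : ℂ) * packet N a b (toC X) * G K N a' b' w X) := by
  refine Integrable.bdd_mul (c := 1) (G_integrable K hK N a' b' w) ?_ ?_
  · apply Continuous.aestronglyMeasurable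
    apply Continuous.mul _ (continuous_packet_toC N a b)
    exact Complex.continuous_ofReal.comp (chi_contDiff.continuous.comp
      (Complex.continuous_ofReal.comp continuous_fst))
  · refine Filter.Eventually.of_forall fun X => ?_
    rw [norm_mul]
    calc ‖(chi (X.1 : ℂ) : ℂ)‖ * ‖packet N a b (toC X)‖ ≤ 1 * 1 :=
          mul_le_mul (norm_chi_le _ (chi_nonneg _) (chi_le_one _)) (norm_packet_toC N a b hN X)
            (norm_nonneg _) zero_le_one
      _ = 1 := by norm_num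

/-- Integrability of the products with holomorphic functions. -/
theorem integrable_hol (K : ℕ) (hK : 2 ≤ K) (N a b w : ℝ) (F : C3 → ℂ) (U : Set C3)
    (hF : DifferentiableOn ℂ F U) (ϱ : ℝ) (hϱ : ∀ Z ∈ ClosedSymBall, (ϱ : ℂ) • Z ∈ U) :
    Integrable (fun X : R3 => F ((ϱ : ℂ) • Psi (toC X)) * G K N a b w X) := by
  have hc : IsCompact ((fun Z : C3 => (ϱ : ℂ) • Z) '' ClosedSymBall) :=
    isCompact_closedSymBall.image (by fun_prop)
  have hcU : (fun Z : C3 => (ϱ : ℂ) • Z) '' ClosedSymBall ⊆ U := by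
    rintro _ ⟨Z, hZ, rfl⟩
    exact hϱ Z hZ
  obtain ⟨B, hB⟩ := hc.exists_bound_of_continuousOn (hF.continuousOn.mono hcU)
  have hmem : ∀ X : R3, (ϱ : ℂ) • Psi (toC X) ∈ (fun Z : C3 => (ϱ : ℂ) • Z) '' ClosedSymBall :=
    fun X => ⟨Psi (toC X), psi_mem (toC_mem X), rfl⟩
  refine Integrable.bdd_mul (c := B) (G_integrable K hK N a b w) ?_ ?_
  · apply Continuous.aestronglyMeasurable
    have h1 : Continuous (fun X : R3 => (ϱ : ℂ) • Psi (toC X)) :=
      (continuous_const_smul (ϱ : ℂ)).comp continuous_psi_toC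
    exact (hF.continuousOn.mono hcU).comp_continuous h1 hmem
  · exact Filter.Eventually.of_forall fun X => hB _ (hmem X)

/-- The numerical estimate behind the choice of the parameters. -/
theorem core_numeric (C' I R δ m w η c0 J : ℝ) (hC' : 0 ≤ C') (hc0 : 0 < c0)
    (hδ : 0 ≤ δ) (hη : η = 8 * c0 * δ ^ 2) (hmw : c0 ≤ m * w)
    (hI : 2 * (1 + 2 * C') * R < I) (hT : 736 * C' * Real.pi * δ < I / 2)
    (hJ0 : 0 ≤ J) (hJ : J ≤ Real.pi) :
    C' * (46 * Real.sqrt (η * (m * w / 8)) * J + m * w / 8 * R) <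
      m * ((I - R) * (w / 16)) := by
  have hmw0 : 0 < m * w := lt_of_lt_of_le hc0 hmw
  have h1 : Real.sqrt (η * (m * w / 8)) ≤ m * w * δ := by
    apply Real.sqrt_le_iff.mpr
    refine ⟨by positivity, ?_⟩
    rw [hη]
    have : 8 * c0 * δ ^ 2 * (m * w / 8) = c0 * ((m * w) * δ ^ 2) := by ring
    rw [this]
    calc c0 * ((m * w) * δ ^ 2) ≤ (m * w) * ((m * w) * δ ^ 2) :=
          mul_le_mul_of_nonneg_right hmw (by positivity)
      _ = (m * w * δ) ^ 2 := by ring
  have h2 : 46 * Real.sqrt (η * (m * w / 8)) * J ≤ 46 * (m * w * δ) * Real.pi := by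
    have hs := Real.sqrt_nonneg (η * (m * w / 8))
    apply mul_le_mul _ hJ hJ0 (by positivity)
    linarith
  have h3 : C' * (46 * Real.sqrt (η * (m * w / 8)) * J + m * w / 8 * R) ≤
      C' * (46 * (m * w * δ) * Real.pi + m * w / 8 * R) := by
    apply mul_le_mul_of_nonneg_left _ hC'
    linarith
  refine lt_of_le_of_lt h3 ?_
  have h4 : C' * (46 * (m * w * δ) * Real.pi + m * w / 8 * R) =
      (m * w) / 16 * (736 * C' * Real.pi * δ + 2 * C' * R) := by ring
  have h5 : m * ((I - R) * (w / 16)) = (m * w) / 16 * (I - R) := by ring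
  rw [h4, h5]
  apply mul_lt_mul_of_pos_left _ (by positivity)
  linarith

/-- For every constant `C` there are a smooth bounded function `u0` on the ball of symmetric
matrices with `|∂bar u0| ≤ 1` and an integrable density `g` on real symmetric matrices (the Shilov
boundary in Cayley coordinates) which annihilates all holomorphic functions, such that the pairing
of the boundary values of `u0` with `g` is bigger than `C ∫ |g|`. -/
theorem core (C : ℝ) : ∃ (u0 : C3 → ℂ) (g : R3 → ℂ) (B : ℝ) (L : ℂ),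
    ContDiffOn ℝ ∞ u0 SymBall ∧ (∀ Z ∈ SymBall, ‖u0 Z‖ ≤ B) ∧
    (∀ Z ∈ SymBall, ∀ v : C3, ‖dbarV u0 Z v‖ ≤ ‖v‖) ∧
    Integrable g ∧
    (∀ (F : C3 → ℂ) (U : Set C3) (ϱ : ℝ), IsOpen U → DifferentiableOn ℂ F U →
      (∀ Z ∈ ClosedSymBall, (ϱ : ℂ) • Z ∈ U) →
      ∫ X : R3, F ((ϱ : ℂ) • Psi (toC X)) * g X = 0) ∧
    Tendsto (fun ϱ : ℝ => ∫ X : R3, u0 ((ϱ : ℂ) • Psi (toC X)) * g X) (𝓝[<] 1) (𝓝 L) ∧
    C * ∫ X : R3, ‖g X‖ < ‖L‖ := by
  obtain ⟨C1, hC1, hdb⟩ := exists_dbarU_bound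
  set C' : ℝ := max C 0 * C1 with hC'def
  have hC' : 0 ≤ C' := mul_nonneg (le_max_right _ _) hC1.le
  obtain ⟨K, hK, hKI⟩ := AK_choice (2 * (1 + 2 * C'))
  set I : ℝ := ‖∫ x in Iic (0 : ℝ), AK K (x : ℂ)‖ with hIdef
  set R : ℝ := ∫ x in restSet, ‖AK K (x : ℂ)‖ with hRdef
  have hR : 0 ≤ R := by
    rw [hRdef]
    exact integral_nonneg fun x => norm_nonneg _
  have hIpos : 0 < I := by
    refine lt_of_le_of_lt ?_ hKI
    positivity
  obtain ⟨c0, hc0, hkak⟩ := kakeya
  set T : ℝ := 736 * C' * Real.pi with hTdef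
  have hT0 : 0 ≤ T := by
    have := Real.pi_pos
    positivity
  set δ : ℝ := I / (2 * (T + 1)) with hδdef
  have hδ : 0 < δ := by positivity
  have hTδ : T * δ < I / 2 := by
    rw [hδdef]
    have h : I / 2 - T * (I / (2 * (T + 1))) = I / (2 * (T + 1)) := by
      field_simp
      ring
    have h2 : 0 < I / (2 * (T + 1)) := by positivity
    linarith
  obtain ⟨m, a, b, w, hw, hw1, hmw, ha, hb, hsl, hsep, hE⟩ := hkak (8 * c0 * δ ^ 2) (by positivity)
  set N : ℝ := 512 / w ^ 2 with hNdef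
  have hN : 0 ≤ N := by positivity
  have hG : ∀ j : Fin m, Integrable (G K N (a j) (b j) w) := fun j => G_integrable K hK _ _ _ _
  have hdiag : ∀ j : Fin m, ∫ X : R3, (chi (X.1 : ℂ) : ℂ) * packet N (a j) (b j) (toC X) *
      G K N (a j) (b j) w X = (∫ x : ℝ, (chi (x : ℂ) : ℂ) * AK K (x : ℂ)) *
        ((∫ t in Icc (-(w / 16)) (w / 16), Real.exp (-(N / 4) * t ^ 2) : ℝ) : ℂ) :=
    fun j => diag_eq K hK N (a j) (b j) w hw
  have hmain : C' * ∫ X : R3, Real.sqrt (∑ j, ‖G K N (a j) (b j) w X‖ ^ 2) <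
      ‖∑ j : Fin m, ∫ X : R3, (chi (X.1 : ℂ) : ℂ) * packet N (a j) (b j) (toC X) *
        G K N (a j) (b j) w X‖ := by
    have hsq := sqNorm_bound K hK N a b w (8 * c0 * δ ^ 2) hw hw1 (by positivity) ha hb hE
    have hnum := core_numeric C' I R δ m w (8 * c0 * δ ^ 2) c0
      (∫ x : ℝ, ‖AK K (x : ℂ)‖) hC' hc0 hδ.le rfl hmw
      hKI hTδ (integral_nonneg fun x => norm_nonneg _) (AK_integral_norm_le K hK)
    have hlow := chiAK_lower K hK
    have hgl := gauss_lower w hw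
    rw [Finset.sum_congr rfl (fun j _ => hdiag j), Finset.sum_const, Finset.card_univ,
      Fintype.card_fin, nsmul_eq_mul, norm_mul, norm_mul, Complex.norm_real, Real.norm_eq_abs]
    have hcast : ‖((m : ℕ) : ℂ)‖ = (m : ℝ) := by simp
    rw [hcast]
    refine lt_of_le_of_lt (mul_le_mul_of_nonneg_left hsq hC') (lt_of_lt_of_le hnum ?_)
    apply mul_le_mul_of_nonneg_left _ (Nat.cast_nonneg m)
    apply mul_le_mul hlow (le_trans hgl (le_abs_self _)) (by positivity) (norm_nonneg _)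
  obtain ⟨ε, hε, hlt⟩ := exists_signs volume (fun j => G K N (a j) (b j) w) hG
    (fun j k => ∫ X : R3, (chi (X.1 : ℂ) : ℂ) * packet N (a j) (b j) (toC X) *
        G K N (a k) (b k) w X) C' hC' hmain
  have hC1' : (C1 : ℂ) ≠ 0 := by exact_mod_cast hC1.ne'
  have hnC1 : ‖((1 / C1 : ℝ) : ℂ)‖ = 1 / C1 := by
    rw [Complex.norm_real, Real.norm_eq_abs, abs_of_pos (by positivity)]
  have hgint : Integrable (fun X : R3 => ∑ j, (ε j : ℂ) * G K N (a j) (b j) w X) :=
    integrable_finsetSum _ fun j _ => (hG j).const_mul _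
  refine ⟨fun Z => ((1 / C1 : ℝ) : ℂ) * Ufun N a b ε (Wof Z),
    fun X => ∑ j, (ε j : ℂ) * G K N (a j) (b j) w X, 1 / C1 * m,
    ∫ X : R3, (((1 / C1 : ℝ) : ℂ) * Ufun N a b ε (toC X)) *
      ∑ j, (ε j : ℂ) * G K N (a j) (b j) w X, ?_, ?_, ?_, hgint, ?_, ?_, ?_⟩
  · exact contDiffOn_const.mul (U_contDiffOn N a b ε)
  · intro Z hZ
    rw [norm_mul, hnC1]
    exact mul_le_mul_of_nonneg_left (U_norm_le N hN a b ε hε hZ) (by positivity)
  · intro Z hZ v
    have hd : DifferentiableAt ℝ (fun Z => Ufun N a b ε (Wof Z)) Z :=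
      ((U_contDiffOn N a b ε).differentiableOn (by simp)).differentiableAt
        (isOpen_symBall.mem_nhds hZ)
    rw [dbarV_const_mul _ _ _ _ hd, norm_mul, hnC1]
    calc 1 / C1 * ‖dbarV (fun Z => Ufun N a b ε (Wof Z)) Z v‖ ≤ 1 / C1 * (C1 * ‖v‖) :=
          mul_le_mul_of_nonneg_left (hdb m a b ε w hw hw1 ha hb hε hsl hsep Z hZ v)
            (by positivity)
      _ = ‖v‖ := by field_simp
  · intro F U ϱ hU hF hϱ
    have h1 : (fun X : R3 => F ((ϱ : ℂ) • Psi (toC X)) *
        ∑ j, (ε j : ℂ) * G K N (a j) (b j) w X) =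
        fun X => ∑ j, (ε j : ℂ) * (F ((ϱ : ℂ) • Psi (toC X)) * G K N (a j) (b j) w X) := by
      funext X
      rw [Finset.mul_sum]
      exact Finset.sum_congr rfl fun j _ => by ring
    rw [h1, integral_finsetSum _ fun j _ =>
      (integrable_hol K hK N (a j) (b j) w F U hF ϱ hϱ).const_mul _]
    apply Finset.sum_eq_zero
    intro j _
    rw [integral_const_mul, annih K hK N (a j) (b j) w F U hU hF ϱ hϱ, mul_zero]
  · have hmem : ∀ᶠ ϱ : ℝ in 𝓝[<] 1, 0 ≤ ϱ ∧ ϱ < 1 := by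
      filter_upwards [Ioo_mem_nhdsLT (show (0 : ℝ) < 1 by norm_num)] with x hx
      exact ⟨hx.1.le, hx.2⟩
    apply tendsto_integral_filter_of_dominated_convergence
      (fun X => 1 / C1 * m * ‖∑ j, (ε j : ℂ) * G K N (a j) (b j) w X‖)
    · filter_upwards [hmem] with ϱ hϱ
      apply AEStronglyMeasurable.mul _ hgint.aestronglyMeasurable
      apply AEStronglyMeasurable.const_mul
      apply Continuous.aestronglyMeasurable
      have h1 : Continuous (fun X : R3 => (ϱ : ℂ) • Psi (toC X)) :=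
        (continuous_const_smul (ϱ : ℂ)).comp continuous_psi_toC
      exact (U_contDiffOn N a b ε).continuousOn.comp_continuous h1
        fun X => smul_mem_symBall (psi_mem (toC_mem X)) hϱ.1 hϱ.2
    · filter_upwards [hmem] with ϱ hϱ
      refine Filter.Eventually.of_forall fun X => ?_
      rw [norm_mul, norm_mul, hnC1]
      apply mul_le_mul_of_nonneg_right _ (norm_nonneg _)
      exact mul_le_mul_of_nonneg_left (U_norm_le N hN a b ε hε
        (smul_mem_symBall (psi_mem (toC_mem X)) hϱ.1 hϱ.2)) (by positivity)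
    · exact hgint.norm.const_mul _
    · refine Filter.Eventually.of_forall fun X => ?_
      apply Tendsto.mul_const
      apply Tendsto.const_mul
      exact ((continuous_Ufun N a b ε).tendsto (toC X)).comp
        ((wof_tendsto X).mono_left nhdsWithin_le_nhds)
  · have hpair : ∫ X : R3, (((1 / C1 : ℝ) : ℂ) * Ufun N a b ε (toC X)) *
        ∑ j, (ε j : ℂ) * G K N (a j) (b j) w X = ((1 / C1 : ℝ) : ℂ) *
        ∑ j, ∑ k, (ε j : ℂ) * (ε k : ℂ) * ∫ X : R3, (chi (X.1 : ℂ) : ℂ) *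
          packet N (a j) (b j) (toC X) * G K N (a k) (b k) w X := by
      have h1 : (fun X : R3 => (((1 / C1 : ℝ) : ℂ) * Ufun N a b ε (toC X)) *
          ∑ j, (ε j : ℂ) * G K N (a j) (b j) w X) = fun X => ((1 / C1 : ℝ) : ℂ) *
          ∑ j, ∑ k, (ε j : ℂ) * (ε k : ℂ) * ((chi (X.1 : ℂ) : ℂ) *
            packet N (a j) (b j) (toC X) * G K N (a k) (b k) w X) := by
        funext X
        have h2 : Ufun N a b ε (toC X) = (chi (X.1 : ℂ) : ℂ) *
          ∑ k, (ε k : ℂ) * packet N (a k) (b k) (toC X) := rfl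
        rw [h2, mul_assoc, mul_assoc, Finset.sum_mul_sum, Finset.mul_sum]
        congr 1
        refine Finset.sum_congr rfl fun j _ => ?_
        rw [Finset.mul_sum]
        exact Finset.sum_congr rfl fun k _ => by ring
      rw [h1, integral_const_mul]
      congr 1
      have hi : ∀ j k : Fin m, Integrable (fun X : R3 => (ε j : ℂ) * (ε k : ℂ) *
          ((chi (X.1 : ℂ) : ℂ) * packet N (a j) (b j) (toC X) * G K N (a k) (b k) w X)) :=
        fun j k => (integrable_pair K hK N (a j) (b j) (a k) (b k) w hN).const_mul _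
      rw [integral_finsetSum _ fun j _ => integrable_finsetSum _ fun k _ => hi j k]
      refine Finset.sum_congr rfl fun j _ => ?_
      rw [integral_finsetSum _ fun k _ => hi j k]
      exact Finset.sum_congr rfl fun k _ => integral_const_mul _ _
    rw [hpair, norm_mul, hnC1]
    have hgn : 0 ≤ ∫ X : R3, ‖∑ j, (ε j : ℂ) * G K N (a j) (b j) w X‖ :=
      integral_nonneg fun X => norm_nonneg _
    calc C * ∫ X : R3, ‖∑ j, (ε j : ℂ) * G K N (a j) (b j) w X‖ ≤
        max C 0 * ∫ X : R3, ‖∑ j, (ε j : ℂ) * G K N (a j) (b j) w X‖ :=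
          mul_le_mul_of_nonneg_right (le_max_left _ _) hgn
      _ = 1 / C1 * (C' * ∫ X : R3, ‖∑ j, (ε j : ℂ) * G K N (a j) (b j) w X‖) := by
          rw [hC'def]
          field_simp
      _ < _ := mul_lt_mul_of_pos_left hlt (by positivity)

end Pool.Agent.P9749df
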