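import Mathlib

/-!
# MP_9749df_an: definitions for the main statement

The Cauchy-Riemann operator, sup-norm estimates, bounded symmetric domains (in the
Harish-Chandra realisation used in the problem) and the matrix balls.
-/

open MeasureTheory Set
open scoped ContDiff Matrix ENNReal NNReal ComplexOrder

noncomputable section

namespace Pool.Agent.P9749df

/-- The Wirtinger derivative `∂φ/∂(conj z_j)` of a function on `ℂ^ι`. -/
def dbar {ι : Type} [Fintype ι] [DecidableEq ι] (j : ι) (φ : (ι → ℂ) → ℂ) (z : ι → ℂ) : ℂ :=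
  (1 / 2 : ℂ) * (fderiv ℝ φ z (Pi.single j 1) + Complex.I * fderiv ℝ φ z (Pi.single j Complex.I))

/-- Test functions on `Ω`: smooth functions with compact support contained in `Ω`. -/
structure IsTest {ι : Type} [Fintype ι] (Ω : Set (ι → ℂ)) (φ : (ι → ℂ) → ℂ) : Prop where
  smooth : ContDiff ℝ ∞ φ
  compact : HasCompactSupport φ
  supp : tsupport φ ⊆ Ω

/-- The `(0,1)`-form `∑ f_j d(conj z_j)` is `∂bar`-closed on `Ω` in the sense of distributions. -/
def DbarClosed {ι : Type} [Fintype ι] [DecidableEq ι] (Ω : Set (ι → ℂ))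
    (f : ι → (ι → ℂ) → ℂ) : Prop :=
  ∀ φ : (ι → ℂ) → ℂ, IsTest Ω φ → ∀ j k : ι,
    ∫ z in Ω, f j z * dbar k φ z = ∫ z in Ω, f k z * dbar j φ z

/-- `u` is a locally integrable solution of `∂bar u = f` on `Ω` in the sense of distributions. -/
def DbarSolves {ι : Type} [Fintype ι] [DecidableEq ι] (Ω : Set (ι → ℂ))
    (f : ι → (ι → ℂ) → ℂ) (u : (ι → ℂ) → ℂ) : Prop :=
  LocallyIntegrableOn u Ω ∧
    ∀ φ : (ι → ℂ) → ℂ, IsTest Ω φ → ∀ j : ι,
      ∫ z in Ω, u z * dbar j φ z = - ∫ z in Ω, f j z * φ z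

/-- `Ω` admits sup-norm estimates for `∂bar`: there is a constant `c` such that every
`∂bar`-closed `(0,1)`-form with bounded coefficients has a solution `u` with
`‖u‖_∞ ≤ c ‖f‖_∞`, where `‖f‖_∞ = ess sup (∑ |f_j|^2)^(1/2)`. -/
def AdmitsSupNormEstimates {ι : Type} [Fintype ι] [DecidableEq ι] (Ω : Set (ι → ℂ)) : Prop :=
  ∃ c : ℝ≥0, ∀ f : ι → (ι → ℂ) → ℂ, (∀ j, MemLp (f j) ⊤ (volume.restrict Ω)) →
    DbarClosed Ω f → ∃ u : (ι → ℂ) → ℂ, DbarSolves Ω f u ∧
      eLpNorm u ⊤ (volume.restrict Ω) ≤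
        c * eLpNorm (fun z => Real.sqrt (∑ j, ‖f j z‖ ^ 2)) ⊤ (volume.restrict Ω)

/-- Bounded symmetric domains in the Harish-Chandra realisation: bounded convex circular
domains containing `0` such that every point is an isolated fixed point of some involutive
biholomorphic self-map. -/
structure IsBoundedSymmetricDomain {ι : Type} [Fintype ι] (Ω : Set (ι → ℂ)) : Prop where
  isOpen : IsOpen Ω
  isBounded : Bornology.IsBounded Ω
  convex : Convex ℝ Ω
  zero_mem : (0 : ι → ℂ) ∈ Ω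
  circular : ∀ θ : ℝ, ∀ z ∈ Ω, Complex.exp (θ * Complex.I) • z ∈ Ω
  symmetric : ∀ p ∈ Ω, ∃ s : (ι → ℂ) → (ι → ℂ), MapsTo s Ω Ω ∧ DifferentiableOn ℂ s Ω ∧
    (∀ z ∈ Ω, s (s z) = z) ∧ s p = p ∧ ∃ ε > 0, ∀ z ∈ Ω, dist z p < ε → s z = z → z = p

/-- The matrix with entries `z (i, j)`. -/
def toMat {p q : ℕ} (z : Fin p × Fin q → ℂ) : Matrix (Fin p) (Fin q) ℂ :=
  Matrix.of fun i j => z (i, j)

/-- The matrix ball `{Z ∈ ℂ^(p×q) : I_q - Z* Z > 0}` (Cartan domain of type I). -/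
def matrixBall (p q : ℕ) : Set (Fin p × Fin q → ℂ) :=
  {z | (1 - (toMat z)ᴴ * toMat z).PosDef}

end Pool.Agent.P9749df
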