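import Pool.Agent.Lib.P9749df.Defs

/-!
# Mollification
-/

open MeasureTheory Set Filter Topology Metric
open scoped ContDiff

noncomputable section

namespace Pool.Agent.P9749df

variable {ι : Type} [Fintype ι] [DecidableEq ι]

/-- A smooth nonnegative kernel on `ℂ^ι` with integral 1 supported in the closed ball of
radius `ε`. -/
def ker (ε : ℝ) : (ι → ℂ) → ℝ :=
  if h : 0 < ε then
    (⟨ε / 2, ε, half_pos h, half_lt_self h⟩ : ContDiffBump (0 : ι → ℂ)).normed volume
  else 0

/-- Mollification of a function on `Ω`. -/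
def moll (Ω : Set (ι → ℂ)) (ε : ℝ) (D : (ι → ℂ) → ℂ) (z : ι → ℂ) : ℂ :=
  ∫ w in Ω, D w * (ker ε (z - w) : ℂ)

/-- The open set of points having distance more than `ε` from the complement. -/
def shrink (Ω : Set (ι → ℂ)) (ε : ℝ) : Set (ι → ℂ) := {z | ∃ δ > ε, ball z δ ⊆ Ω}

theorem isOpen_shrink (Ω : Set (ι → ℂ)) (ε : ℝ) : IsOpen (shrink Ω ε) := by
  rw [Metric.isOpen_iff]
  rintro z ⟨δ, hδ, hb⟩
  refine ⟨(δ - ε) / 2, by linarith, fun z' hz' => ⟨(δ + ε) / 2, by linarith, ?_⟩⟩
  refine Subset.trans (fun w hw => ?_) hb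
  rw [mem_ball] at hz' hw ⊢
  linarith [dist_triangle w z' z]

namespace Moll

/-- the bump function -/
def bump (ε : ℝ) (h : 0 < ε) : ContDiffBump (0 : ι → ℂ) :=
  ⟨ε / 2, ε, half_pos h, half_lt_self h⟩

omit [DecidableEq ι] in
theorem ker_eq (ε : ℝ) (h : 0 < ε) : (ker ε : (ι → ℂ) → ℝ) = (bump ε h).normed volume := by
  unfold ker
  rw [dif_pos h]
  rfl

omit [DecidableEq ι] in
theorem ker_nonneg (ε : ℝ) (h : 0 < ε) (z : ι → ℂ) : 0 ≤ ker ε z := by
  rw [ker_eq ε h]
  exact (bump ε h).nonneg_normed z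

omit [DecidableEq ι] in
theorem ker_contDiff (ε : ℝ) (h : 0 < ε) : ContDiff ℝ ∞ (ker ε : (ι → ℂ) → ℝ) := by
  rw [ker_eq ε h]
  exact (bump ε h).contDiff_normed

omit [DecidableEq ι] in
theorem ker_integrable (ε : ℝ) (h : 0 < ε) : Integrable (ker ε : (ι → ℂ) → ℝ) := by
  rw [ker_eq ε h]
  exact (bump ε h).integrable_normed

omit [DecidableEq ι] in
theorem ker_integral (ε : ℝ) (h : 0 < ε) : ∫ z, (ker ε : (ι → ℂ) → ℝ) z = 1 := by
  rw [ker_eq ε h]
  exact (bump ε h).integral_normed

omit [DecidableEq ι] in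
theorem ker_tsupport (ε : ℝ) (h : 0 < ε) :
    tsupport (ker ε : (ι → ℂ) → ℝ) = closedBall 0 ε := by
  rw [ker_eq ε h]
  exact (bump ε h).tsupport_normed_eq

omit [DecidableEq ι] in
theorem ker_hasCompactSupport (ε : ℝ) (h : 0 < ε) :
    HasCompactSupport (ker ε : (ι → ℂ) → ℝ) := by
  rw [ker_eq ε h]
  exact (bump ε h).hasCompactSupport_normed

/-- the complex-valued kernel -/
def kc (ε : ℝ) (z : ι → ℂ) : ℂ := (ker ε z : ℂ)

omit [DecidableEq ι] in
theorem kc_contDiff (ε : ℝ) (h : 0 < ε) : ContDiff ℝ ∞ (kc ε : (ι → ℂ) → ℂ) :=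
  Complex.ofRealCLM.contDiff.comp (ker_contDiff ε h)

omit [DecidableEq ι] in
theorem kc_hasCompactSupport (ε : ℝ) (h : 0 < ε) :
    HasCompactSupport (kc ε : (ι → ℂ) → ℂ) :=
  (ker_hasCompactSupport ε h).comp_left (g := fun x : ℝ => (x : ℂ)) (by simp)

omit [DecidableEq ι] in
theorem kc_tsupport (ε : ℝ) (h : 0 < ε) :
    tsupport (kc ε : (ι → ℂ) → ℂ) ⊆ closedBall 0 ε := by
  rw [← ker_tsupport ε h]
  refine closure_mono fun z hz => ?_
  rw [Function.mem_support] at hz ⊢
  intro h0
  apply hz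
  simp [kc, h0]

omit [DecidableEq ι] in
theorem moll_eq_conv {Ω : Set (ι → ℂ)} (hΩ : MeasurableSet Ω) (ε : ℝ) (D : (ι → ℂ) → ℂ) :
    moll Ω ε D =
      convolution (Ω.indicator D) (kc ε) (ContinuousLinearMap.mul ℝ ℂ) volume := by
  funext z
  rw [convolution_def]
  unfold moll
  rw [← integral_indicator hΩ]
  refine integral_congr_ae (Eventually.of_forall fun w => ?_)
  simp only [ContinuousLinearMap.mul_apply', kc]
  by_cases hw : w ∈ Ω
  · rw [indicator_of_mem hw, indicator_of_mem hw]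
  · rw [indicator_of_notMem hw, indicator_of_notMem hw, zero_mul]

omit [DecidableEq ι] in
theorem locInt {Ω : Set (ι → ℂ)} (hΩ : MeasurableSet Ω) (D : (ι → ℂ) → ℂ) (B : ℝ)
    (hD : AEStronglyMeasurable D (volume.restrict Ω))
    (hB : ∀ᵐ z ∂volume.restrict Ω, ‖D z‖ ≤ B) :
    LocallyIntegrable (Ω.indicator D) volume := by
  have h1 : AEStronglyMeasurable (Ω.indicator D) volume :=
    (aestronglyMeasurable_indicator_iff hΩ).2 hD
  have h2 : ∀ᵐ z ∂(volume : Measure (ι → ℂ)), ‖Ω.indicator D z‖ ≤ max B 0 := by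
    rw [ae_restrict_iff' hΩ] at hB
    filter_upwards [hB] with z hz
    by_cases hw : z ∈ Ω
    · rw [indicator_of_mem hw]
      exact (hz hw).trans (le_max_left _ _)
    · rw [indicator_of_notMem hw, norm_zero]
      exact le_max_right _ _
  exact (memLp_top_of_bound h1 _ h2).locallyIntegrable le_top

end Moll

open Moll

theorem moll_differentiableOn {Ω : Set (ι → ℂ)} (hΩ : IsOpen Ω) (D : (ι → ℂ) → ℂ) (B : ℝ)
    (hD : AEStronglyMeasurable D (volume.restrict Ω))
    (hB : ∀ᵐ z ∂volume.restrict Ω, ‖D z‖ ≤ B)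
    (hw : ∀ φ : (ι → ℂ) → ℂ, IsTest Ω φ → ∀ j : ι, ∫ z in Ω, D z * dbar j φ z = 0)
    (ε : ℝ) (hε : 0 < ε) : DifferentiableOn ℂ (moll Ω ε D) (shrink Ω ε) := by
  have hm : MeasurableSet Ω := hΩ.measurableSet
  have hli := locInt hm D B hD hB
  rintro z ⟨δ, hδ, hb⟩
  refine DifferentiableAt.differentiableWithinAt ?_
  have hk1 : ContDiff ℝ 1 (kc ε : (ι → ℂ) → ℂ) := (kc_contDiff ε hε).of_le (by simp)
  have hkd : Differentiable ℝ (kc ε : (ι → ℂ) → ℂ) := hk1.differentiable one_ne_zero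
  have hder := (kc_hasCompactSupport ε hε).hasFDerivAt_convolution_right
    (ContinuousLinearMap.mul ℝ ℂ) hli hk1 z
  rw [← moll_eq_conv hm ε D] at hder
  set M := (convolution (Ω.indicator D) (fderiv ℝ (kc ε : (ι → ℂ) → ℂ))
    ((ContinuousLinearMap.mul ℝ ℂ).precompR (ι → ℂ)) volume) z with hM
  have hMv : ∀ v : ι → ℂ, M v = ∫ w in Ω, D w * fderiv ℝ (kc ε : (ι → ℂ) → ℂ) (z - w) v := by
    intro v
    rw [hM, convolution_precompR_apply (ContinuousLinearMap.mul ℝ ℂ) hli
      ((kc_hasCompactSupport ε hε).fderiv ℝ) (hk1.continuous_fderiv one_ne_zero) z v,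
      convolution_def, ← integral_indicator hm]
    refine integral_congr_ae (Eventually.of_forall fun w => ?_)
    simp only [ContinuousLinearMap.mul_apply']
    by_cases hw : w ∈ Ω
    · rw [indicator_of_mem hw, indicator_of_mem hw]
    · rw [indicator_of_notMem hw, indicator_of_notMem hw, zero_mul]
  -- the test function
  have htest : IsTest Ω (fun w => kc ε (z - w)) := by
    refine ⟨(kc_contDiff ε hε).comp (contDiff_const.sub contDiff_id), ?_, ?_⟩
    · exact (kc_hasCompactSupport ε hε).comp_homeomorph (Homeomorph.subLeft z)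
    · have h1 : tsupport (fun w => kc ε (z - w)) ⊆ closedBall z ε := by
        refine closure_minimal (fun w hw => ?_) isClosed_closedBall
        have h2 : z - w ∈ tsupport (kc ε : (ι → ℂ) → ℂ) := subset_tsupport _ hw
        have h3 := kc_tsupport ε hε h2
        rw [mem_closedBall, dist_zero_right] at h3
        rwa [mem_closedBall, dist_comm, dist_eq_norm]
      refine h1.trans (Subset.trans (fun w hw => ?_) hb)
      rw [mem_closedBall] at hw
      rw [mem_ball]
      linarith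
  have hφd : ∀ w v : ι → ℂ, fderiv ℝ (fun w => kc ε (z - w)) w v =
      - fderiv ℝ (kc ε : (ι → ℂ) → ℂ) (z - w) v := by
    intro w v
    have h1 : HasFDerivAt (fun w => kc ε (z - w))
        ((fderiv ℝ (kc ε : (ι → ℂ) → ℂ) (z - w)).comp
          (-ContinuousLinearMap.id ℝ (ι → ℂ))) w := by
      have h2 : HasFDerivAt (fun w : ι → ℂ => z - w) (-ContinuousLinearMap.id ℝ (ι → ℂ)) w :=
        (hasFDerivAt_id w).const_sub z
      exact (hkd (z - w)).hasFDerivAt.comp w h2
    rw [h1.fderiv]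
    simp
  have hint : ∀ v : ι → ℂ,
      Integrable (fun w => D w * fderiv ℝ (kc ε : (ι → ℂ) → ℂ) (z - w) v)
        (volume.restrict Ω) := by
    intro v
    have h1 : HasCompactSupport (fun a => fderiv ℝ (kc ε : (ι → ℂ) → ℂ) a v) :=
      ((kc_hasCompactSupport ε hε).fderiv ℝ).comp_left
        (g := fun T : (ι → ℂ) →L[ℝ] ℂ => T v) (by simp)
    have h2 : Continuous (fun a => fderiv ℝ (kc ε : (ι → ℂ) → ℂ) a v) :=
      (hk1.continuous_fderiv one_ne_zero).clm_apply continuous_const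
    have h3 := h1.convolutionExists_right (ContinuousLinearMap.mul ℝ ℂ) hli h2 z
    have h4 : Integrable (fun w => Ω.indicator D w *
      fderiv ℝ (kc ε : (ι → ℂ) → ℂ) (z - w) v) volume := h3
    rw [← IntegrableOn, ← integrable_indicator_iff hm]
    refine h4.congr (Eventually.of_forall fun w => ?_)
    by_cases hw : w ∈ Ω
    · simp only [indicator_of_mem hw]
    · simp only [indicator_of_notMem hw, zero_mul]
  have hCR : ∀ j : ι, M (Pi.single j Complex.I) = Complex.I * M (Pi.single j 1) := by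
    intro j
    have h1 := hw _ htest j
    have h2 : ∀ w, D w * dbar j (fun w => kc ε (z - w)) w =
        -(1 / 2) * (D w * fderiv ℝ (kc ε : (ι → ℂ) → ℂ) (z - w) (Pi.single j 1)) +
        -(1 / 2) * Complex.I *
          (D w * fderiv ℝ (kc ε : (ι → ℂ) → ℂ) (z - w) (Pi.single j Complex.I)) := by
      intro w
      simp only [dbar, hφd]
      ring
    simp only [h2] at h1
    rw [integral_add ((hint _).const_mul _) ((hint _).const_mul _), integral_const_mul,
      integral_const_mul, ← hMv, ← hMv] at h1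
    linear_combination (2 * Complex.I) * h1 +
      (M (Pi.single j Complex.I)) * (Complex.I_sq)
  have hlin : ∀ (c : ℂ) (v : ι → ℂ), M (c • v) = c • M v := by
    have hsingle : ∀ (j : ι) (c : ℂ), M (Pi.single j c) = c * M (Pi.single j 1) := by
      intro j c
      have h1 : (Pi.single j c : ι → ℂ) =
          c.re • (Pi.single j 1 : ι → ℂ) + c.im • (Pi.single j Complex.I : ι → ℂ) := by
        funext k
        by_cases hk : k = j
        · subst hk
          simp [Complex.re_add_im]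
        · simp [hk]
      rw [h1, map_add, map_smul, map_smul, hCR]
      conv_rhs => rw [← Complex.re_add_im c]
      simp only [Complex.real_smul]
      ring
    have hsum : ∀ v : ι → ℂ, M v = ∑ j, v j * M (Pi.single j 1) := by
      intro v
      have h1 : v = ∑ j, Pi.single j (v j) := by
        funext k
        simp [Finset.sum_apply, Pi.single_apply]
      conv_lhs => rw [h1]
      rw [map_sum]
      exact Finset.sum_congr rfl fun j _ => hsingle j (v j)
    intro c v
    rw [hsum, hsum v, smul_eq_mul, Finset.mul_sum]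
    refine Finset.sum_congr rfl fun j _ => ?_
    simp only [Pi.smul_apply, smul_eq_mul]
    ring
  let M' : (ι → ℂ) →L[ℂ] ℂ :=
    { toFun := M
      map_add' := map_add M
      map_smul' := hlin
      cont := M.cont }
  have hM' : M'.restrictScalars ℝ = M := by
    ext v
    rfl
  exact (hasFDerivAt_of_restrictScalars ℝ hder hM').differentiableAt

theorem moll_norm_le {Ω : Set (ι → ℂ)} (D : (ι → ℂ) → ℂ) (B : ℝ) (hB0 : 0 ≤ B)
    (hB : ∀ᵐ z ∂volume.restrict Ω, ‖D z‖ ≤ B) (ε : ℝ) (hε : 0 < ε) (z : ι → ℂ) :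
    ‖moll Ω ε D z‖ ≤ B := by
  have hki : Integrable (fun w : ι → ℂ => ker ε (z - w)) :=
    (ker_integrable ε hε).comp_sub_left z
  calc ‖moll Ω ε D z‖ ≤ ∫ w in Ω, B * ker ε (z - w) := by
        unfold moll
        refine norm_integral_le_of_norm_le (hki.const_mul B).integrableOn ?_
        filter_upwards [hB] with w hw
        rw [norm_mul, Complex.norm_real, Real.norm_of_nonneg (ker_nonneg ε hε _)]
        exact mul_le_mul_of_nonneg_right hw (ker_nonneg ε hε _)
    _ ≤ ∫ w, B * ker ε (z - w) := by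
        refine setIntegral_le_integral (hki.const_mul B) (Eventually.of_forall fun w => ?_)
        exact mul_nonneg hB0 (ker_nonneg ε hε _)
    _ = B := by
        rw [integral_const_mul, integral_sub_left_eq_self (fun w => ker ε w) volume z,
          ker_integral ε hε, mul_one]

theorem Moll.integrable_mul_ker {Ω : Set (ι → ℂ)} (D : (ι → ℂ) → ℂ) (B : ℝ)
    (hD : AEStronglyMeasurable D (volume.restrict Ω))
    (hDB : ∀ᵐ z ∂volume.restrict Ω, ‖D z‖ ≤ B)
    (ε : ℝ) (hε : 0 < ε) (z : ι → ℂ) :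
    Integrable (fun w => D w * (ker ε (z - w) : ℂ)) (volume.restrict Ω) := by
  have hki : Integrable (fun w : ι → ℂ => (ker ε (z - w) : ℂ)) :=
    ((ker_integrable ε hε).comp_sub_left z).ofReal
  exact hki.restrict.bdd_mul hD hDB

theorem moll_sub {Ω : Set (ι → ℂ)} (D E : (ι → ℂ) → ℂ) (B : ℝ)
    (hD : AEStronglyMeasurable D (volume.restrict Ω))
    (hE : AEStronglyMeasurable E (volume.restrict Ω))
    (hDB : ∀ᵐ z ∂volume.restrict Ω, ‖D z‖ ≤ B) (hEB : ∀ᵐ z ∂volume.restrict Ω, ‖E z‖ ≤ B)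
    (ε : ℝ) (hε : 0 < ε) (z : ι → ℂ) :
    moll Ω ε (fun w => D w - E w) z = moll Ω ε D z - moll Ω ε E z := by
  unfold moll
  rw [← integral_sub (Moll.integrable_mul_ker D B hD hDB ε hε z)
    (Moll.integrable_mul_ker E B hE hEB ε hε z)]
  refine integral_congr_ae (Eventually.of_forall fun w => ?_)
  simp only [sub_mul]

/-- Mollifications of a continuous function converge pointwise. -/
theorem moll_tendsto {Ω : Set (ι → ℂ)} (hΩ : IsOpen Ω) (u : (ι → ℂ) → ℂ)
    (hu : ContinuousOn u Ω) (z : ι → ℂ) (hz : z ∈ Ω) :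
    Tendsto (fun ε : ℝ => moll Ω ε u z) (𝓝[>] 0) (𝓝 (u z)) := by
  have hm : MeasurableSet Ω := hΩ.measurableSet
  rw [Metric.tendsto_nhds]
  intro e he
  have h1 : ContinuousAt u z := hu.continuousAt (hΩ.mem_nhds hz)
  obtain ⟨d, hd, hdd⟩ := Metric.continuousAt_iff.1 h1 (e / 2) (half_pos he)
  obtain ⟨r, hr, hrr⟩ := Metric.isOpen_iff.1 hΩ z hz
  have h2 : ∀ᶠ ε : ℝ in 𝓝[>] 0, 0 < ε ∧ ε < min d r := by
    filter_upwards [Ioo_mem_nhdsGT (lt_min hd hr)] with ε hε
    exact hε
  filter_upwards [h2] with ε hε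
  obtain ⟨hε0, hε1⟩ := hε
  have h3 : AEStronglyMeasurable (Ω.indicator u) (volume : Measure (ι → ℂ)) :=
    (aestronglyMeasurable_indicator_iff hm).2 (hu.aestronglyMeasurable hm)
  have h4 : moll Ω ε u z = convolution ((bump ε hε0).normed volume) (Ω.indicator u)
      (ContinuousLinearMap.lsmul ℝ ℝ) volume z := by
    rw [convolution_eq_swap]
    unfold moll
    rw [← integral_indicator hm]
    refine integral_congr_ae (Eventually.of_forall fun w => ?_)
    simp only [ContinuousLinearMap.lsmul_apply, ← ker_eq ε hε0, Complex.real_smul]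
    by_cases hw : w ∈ Ω
    · simp only [indicator_of_mem hw]
      ring
    · simp only [indicator_of_notMem hw, mul_zero]
  have h5 : Ω.indicator u z = u z := indicator_of_mem hz u
  have h6 := (bump ε hε0 : ContDiffBump (0 : ι → ℂ)).dist_normed_convolution_le
    (μ := volume) (x₀ := z) (ε := e / 2) h3 (by
      intro x hx
      have hx' : dist x z < ε := hx
      have hxΩ : x ∈ Ω := hrr (lt_of_lt_of_le (hx'.trans hε1) (min_le_right _ _))
      rw [indicator_of_mem hxΩ, h5]
      exact (hdd (lt_of_lt_of_le (hx'.trans hε1) (min_le_left _ _))).le)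
  rw [h4]
  rw [h5] at h6
  linarith

theorem continuous_moll {Ω : Set (ι → ℂ)} (hΩ : IsOpen Ω) (D : (ι → ℂ) → ℂ) (B : ℝ)
    (hD : AEStronglyMeasurable D (volume.restrict Ω))
    (hB : ∀ᵐ z ∂volume.restrict Ω, ‖D z‖ ≤ B) (ε : ℝ) (hε : 0 < ε) :
    Continuous (moll Ω ε D) := by
  have hm : MeasurableSet Ω := hΩ.measurableSet
  rw [moll_eq_conv hm ε D]
  exact (kc_hasCompactSupport ε hε).continuous_convolution_right _ (locInt hm D B hD hB)
    (kc_contDiff ε hε).continuous

end Pool.Agent.P9749df
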