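import Pool.Agent.Lib.P9749df.BSDgeom
import Pool.Agent.Lib.P9749df.Cayley

/-!
# Linear maps between the matrix ball and the ball of symmetric `2 × 2` matrices
-/

open MeasureTheory Set
open scoped ContDiff Matrix ComplexOrder

noncomputable section

namespace Pool.Agent.P9749df

variable {p q : ℕ}

/-- Symmetric part of the upper left `2 × 2` block. -/
def piMap (hp : 2 ≤ p) (hq : 2 ≤ q) (z : Fin p × Fin q → ℂ) : C3 :=
  (z (⟨0, by omega⟩, ⟨0, by omega⟩),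
    (z (⟨0, by omega⟩, ⟨1, by omega⟩) + z (⟨1, by omega⟩, ⟨0, by omega⟩)) / 2,
    z (⟨1, by omega⟩, ⟨1, by omega⟩))

/-- Embedding of symmetric `2 × 2` matrices as upper left block. -/
def iotaMap (p q : ℕ) (Z : C3) : Fin p × Fin q → ℂ := fun ij =>
  if (ij.1 : ℕ) = 0 ∧ (ij.2 : ℕ) = 0 then Z.1
  else if ((ij.1 : ℕ) = 0 ∧ (ij.2 : ℕ) = 1) ∨ ((ij.1 : ℕ) = 1 ∧ (ij.2 : ℕ) = 0) then Z.2.1
  else if (ij.1 : ℕ) = 1 ∧ (ij.2 : ℕ) = 1 then Z.2.2 else 0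

/-- `piMap` as a continuous linear map. -/
theorem exists_piCLM (hp : 2 ≤ p) (hq : 2 ≤ q) :
    ∃ T : (Fin p × Fin q → ℂ) →L[ℂ] C3, ∀ z, T z = piMap hp hq z := by
  let P : Fin p × Fin q → ((Fin p × Fin q → ℂ) →L[ℂ] ℂ) := fun k => ContinuousLinearMap.proj k
  refine ⟨(P (⟨0, by omega⟩, ⟨0, by omega⟩)).prod
    (((1 / 2 : ℂ) • (P (⟨0, by omega⟩, ⟨1, by omega⟩) + P (⟨1, by omega⟩, ⟨0, by omega⟩))).prod
      (P (⟨1, by omega⟩, ⟨1, by omega⟩))), fun z => ?_⟩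
  refine Prod.ext rfl (Prod.ext ?_ rfl)
  change (1 / 2 : ℂ) * (z (⟨0, by omega⟩, ⟨1, by omega⟩) + z (⟨1, by omega⟩, ⟨0, by omega⟩)) =
    (z (⟨0, by omega⟩, ⟨1, by omega⟩) + z (⟨1, by omega⟩, ⟨0, by omega⟩)) / 2
  ring

theorem exists_iotaCLM (p q : ℕ) :
    ∃ T : C3 →L[ℂ] (Fin p × Fin q → ℂ), ∀ Z, T Z = iotaMap p q Z := by
  let P1 : C3 →L[ℂ] ℂ := ContinuousLinearMap.fst ℂ ℂ (ℂ × ℂ)
  let P2 : C3 →L[ℂ] ℂ := (ContinuousLinearMap.fst ℂ ℂ ℂ).comp (ContinuousLinearMap.snd ℂ ℂ (ℂ × ℂ))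
  let P3 : C3 →L[ℂ] ℂ := (ContinuousLinearMap.snd ℂ ℂ ℂ).comp (ContinuousLinearMap.snd ℂ ℂ (ℂ × ℂ))
  refine ⟨ContinuousLinearMap.pi fun ij =>
    if (ij.1 : ℕ) = 0 ∧ (ij.2 : ℕ) = 0 then P1
    else if ((ij.1 : ℕ) = 0 ∧ (ij.2 : ℕ) = 1) ∨ ((ij.1 : ℕ) = 1 ∧ (ij.2 : ℕ) = 0) then P2
    else if (ij.1 : ℕ) = 1 ∧ (ij.2 : ℕ) = 1 then P3 else 0, fun Z => ?_⟩
  funext ij
  simp only [ContinuousLinearMap.coe_pi', iotaMap]
  split_ifs <;> rfl

theorem pi_iota (hp : 2 ≤ p) (hq : 2 ≤ q) (Z : C3) : piMap hp hq (iotaMap p q Z) = Z := by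
  refine Prod.ext ?_ (Prod.ext ?_ ?_)
  · simp [piMap, iotaMap]
  · simp [piMap, iotaMap]
  · simp [piMap, iotaMap]

/-- the transpose of a contraction -/
theorem transpose_contr {a b c d : ℂ}
    (h : ∀ ξ η : ℂ, ‖a * ξ + b * η‖ ^ 2 + ‖c * ξ + d * η‖ ^ 2 ≤ ‖ξ‖ ^ 2 + ‖η‖ ^ 2) (ξ η : ℂ) :
    ‖a * ξ + c * η‖ ^ 2 + ‖b * ξ + d * η‖ ^ 2 ≤ ‖ξ‖ ^ 2 + ‖η‖ ^ 2 := by
  set u1 := a * ξ + c * η with hu1
  set u2 := b * ξ + d * η with hu2
  set w1 := (starRingEnd ℂ) u1 with hw1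
  set w2 := (starRingEnd ℂ) u2 with hw2
  set p1 := a * w1 + b * w2 with hp1
  set p2 := c * w1 + d * w2 with hp2
  have h1 := h w1 w2
  have hn1 : ‖w1‖ = ‖u1‖ := by rw [hw1]; exact RCLike.norm_conj _
  have hn2 : ‖w2‖ = ‖u2‖ := by rw [hw2]; exact RCLike.norm_conj _
  rw [← hp1, ← hp2, hn1, hn2] at h1
  have h2 : ξ * p1 + η * p2 = ((‖u1‖ ^ 2 + ‖u2‖ ^ 2 : ℝ) : ℂ) := by
    have e1 : u1 * w1 = ((‖u1‖ ^ 2 : ℝ) : ℂ) := by
      rw [hw1, Complex.mul_conj, Complex.normSq_eq_norm_sq]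
    have e2 : u2 * w2 = ((‖u2‖ ^ 2 : ℝ) : ℂ) := by
      rw [hw2, Complex.mul_conj, Complex.normSq_eq_norm_sq]
    rw [Complex.ofReal_add, ← e1, ← e2, hp1, hp2, hu1, hu2]
    ring
  have h3 : ‖u1‖ ^ 2 + ‖u2‖ ^ 2 ≤ ‖ξ‖ * ‖p1‖ + ‖η‖ * ‖p2‖ := by
    have h4 : ‖ξ * p1 + η * p2‖ ≤ ‖ξ‖ * ‖p1‖ + ‖η‖ * ‖p2‖ := by
      refine (norm_add_le _ _).trans ?_
      rw [norm_mul, norm_mul]
    rw [h2, Complex.norm_real, Real.norm_of_nonneg (by positivity)] at h4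
    exact h4
  have h5 : (‖u1‖ ^ 2 + ‖u2‖ ^ 2) ^ 2 ≤ (‖ξ‖ ^ 2 + ‖η‖ ^ 2) * (‖u1‖ ^ 2 + ‖u2‖ ^ 2) := by
    have h6 : (‖u1‖ ^ 2 + ‖u2‖ ^ 2) ^ 2 ≤ (‖ξ‖ * ‖p1‖ + ‖η‖ * ‖p2‖) ^ 2 :=
      pow_le_pow_left₀ (by positivity) h3 2
    have h7 : (‖ξ‖ * ‖p1‖ + ‖η‖ * ‖p2‖) ^ 2 ≤ (‖ξ‖ ^ 2 + ‖η‖ ^ 2) * (‖p1‖ ^ 2 + ‖p2‖ ^ 2) := by
      nlinarith [sq_nonneg (‖ξ‖ * ‖p2‖ - ‖η‖ * ‖p1‖)]
    have h8 : (‖ξ‖ ^ 2 + ‖η‖ ^ 2) * (‖p1‖ ^ 2 + ‖p2‖ ^ 2) ≤
        (‖ξ‖ ^ 2 + ‖η‖ ^ 2) * (‖u1‖ ^ 2 + ‖u2‖ ^ 2) :=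
      mul_le_mul_of_nonneg_left h1 (by positivity)
    exact h6.trans (h7.trans h8)
  rcases (show (0 : ℝ) ≤ ‖u1‖ ^ 2 + ‖u2‖ ^ 2 by positivity).eq_or_lt with h0 | h0
  · rw [← h0]; positivity
  · rw [sq] at h5
    exact le_of_mul_le_mul_right h5 h0

/-- the mean of two complex numbers -/
theorem norm_mean_sq_le (x y : ℂ) : ‖(x + y) / 2‖ ^ 2 ≤ (‖x‖ ^ 2 + ‖y‖ ^ 2) / 2 := by
  have h1 : ‖(x + y) / 2‖ = ‖x + y‖ / 2 := by
    rw [norm_div]
    norm_num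
  have h2 := norm_add_le x y
  rw [h1]
  have h3 : ‖x + y‖ ^ 2 ≤ (‖x‖ + ‖y‖) ^ 2 := pow_le_pow_left₀ (norm_nonneg _) h2 2
  nlinarith [sq_nonneg (‖x‖ - ‖y‖)]

/-- PROOF. `Z` in the matrix ball: for `(ξ, η)` extended by 0, the upper left block `Z'` satisfies
`‖Z' v‖ < ‖v‖`; the transpose of a `2 × 2` contraction is a contraction
(`|⟨Z'^T v, w⟩| = |⟨Z' conj w, conj v⟩|`), so the mean of `Z'` and `Z'^T` is a strict
contraction. -/
theorem pi_mem (hp : 2 ≤ p) (hq : 2 ≤ q) {z : Fin p × Fin q → ℂ} (hz : z ∈ matrixBall p q) :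
    piMap hp hq z ∈ SymBall := by
  rw [mem_matrixBall_iff] at hz
  let i0 : Fin p := ⟨0, by omega⟩
  let i1 : Fin p := ⟨1, by omega⟩
  let j0 : Fin q := ⟨0, by omega⟩
  let j1 : Fin q := ⟨1, by omega⟩
  have hi : i0 ≠ i1 := by
    intro h
    have := congrArg Fin.val h
    simp [i0, i1] at this
  have hj : j0 ≠ j1 := by
    intro h
    have := congrArg Fin.val h
    simp [j0, j1] at this
  have key : ∀ ξ η : ℂ, ¬ (ξ = 0 ∧ η = 0) →
      ‖z (i0, j0) * ξ + z (i0, j1) * η‖ ^ 2 + ‖z (i1, j0) * ξ + z (i1, j1) * η‖ ^ 2 <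
        ‖ξ‖ ^ 2 + ‖η‖ ^ 2 := by
    intro ξ η h
    let v : Fin q → ℂ := fun j => if j = j0 then ξ else if j = j1 then η else 0
    have hv0 : v j0 = ξ := by simp [v]
    have hv1 : v j1 = η := by simp [v, hj.symm]
    have hv : v ≠ 0 := by
      intro h0
      refine h ⟨?_, ?_⟩
      · rw [← hv0, h0]; rfl
      · rw [← hv1, h0]; rfl
    have hsum : ∀ f : Fin q → ℂ, ∑ j, f j * v j = f j0 * ξ + f j1 * η := by
      intro f
      rw [← Finset.sum_subset (Finset.subset_univ {j0, j1}), Finset.sum_pair hj, hv0, hv1]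
      intro j _ hj'
      simp only [Finset.mem_insert, Finset.mem_singleton, not_or] at hj'
      simp [v, hj'.1, hj'.2]
    have hsum' : ∑ j, ‖v j‖ ^ 2 = ‖ξ‖ ^ 2 + ‖η‖ ^ 2 := by
      rw [← Finset.sum_subset (Finset.subset_univ {j0, j1}), Finset.sum_pair hj, hv0, hv1]
      intro j _ hj'
      simp only [Finset.mem_insert, Finset.mem_singleton, not_or] at hj'
      simp [v, hj'.1, hj'.2]
    have h1 := hz v hv
    rw [hsum'] at h1
    refine lt_of_le_of_lt ?_ h1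
    have h2 : ∑ i ∈ {i0, i1}, ‖∑ j, z (i, j) * v j‖ ^ 2 ≤ ∑ i, ‖∑ j, z (i, j) * v j‖ ^ 2 :=
      Finset.sum_le_sum_of_subset_of_nonneg (Finset.subset_univ _)
        (fun i _ _ => by positivity)
    rw [Finset.sum_pair hi, hsum, hsum] at h2
    exact h2
  have key' : ∀ ξ η : ℂ,
      ‖z (i0, j0) * ξ + z (i0, j1) * η‖ ^ 2 + ‖z (i1, j0) * ξ + z (i1, j1) * η‖ ^ 2 ≤
        ‖ξ‖ ^ 2 + ‖η‖ ^ 2 := by
    intro ξ η
    by_cases h : ξ = 0 ∧ η = 0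
    · rw [h.1, h.2]; simp
    · exact (key ξ η h).le
  intro ξ η h
  have h1 := key ξ η h
  have h2 := transpose_contr key' ξ η
  change ‖z (i0, j0) * ξ + (z (i0, j1) + z (i1, j0)) / 2 * η‖ ^ 2 +
    ‖(z (i0, j1) + z (i1, j0)) / 2 * ξ + z (i1, j1) * η‖ ^ 2 < _
  have e1 : z (i0, j0) * ξ + (z (i0, j1) + z (i1, j0)) / 2 * η =
      ((z (i0, j0) * ξ + z (i0, j1) * η) + (z (i0, j0) * ξ + z (i1, j0) * η)) / 2 := by ring
  have e2 : (z (i0, j1) + z (i1, j0)) / 2 * ξ + z (i1, j1) * η =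
      ((z (i1, j0) * ξ + z (i1, j1) * η) + (z (i0, j1) * ξ + z (i1, j1) * η)) / 2 := by ring
  rw [e1, e2]
  have h3 := norm_mean_sq_le (z (i0, j0) * ξ + z (i0, j1) * η) (z (i0, j0) * ξ + z (i1, j0) * η)
  have h4 := norm_mean_sq_le (z (i1, j0) * ξ + z (i1, j1) * η) (z (i0, j1) * ξ + z (i1, j1) * η)
  linarith

theorem iota_mem (hp : 2 ≤ p) (hq : 2 ≤ q) {Z : C3} (hZ : Z ∈ SymBall) :
    iotaMap p q Z ∈ matrixBall p q := by
  rw [mem_matrixBall_iff]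
  intro v hv
  let i0 : Fin p := ⟨0, by omega⟩
  let i1 : Fin p := ⟨1, by omega⟩
  let j0 : Fin q := ⟨0, by omega⟩
  let j1 : Fin q := ⟨1, by omega⟩
  have hi : i0 ≠ i1 := by
    intro h
    have := congrArg Fin.val h
    simp [i0, i1] at this
  have hj : j0 ≠ j1 := by
    intro h
    have := congrArg Fin.val h
    simp [j0, j1] at this
  have hval : ∀ (i : Fin p) (j : Fin q), j ≠ j0 → j ≠ j1 → iotaMap p q Z (i, j) = 0 := by
    intro i j h0 h1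
    have h0' : (j : ℕ) ≠ 0 := fun h => h0 (Fin.ext h)
    have h1' : (j : ℕ) ≠ 1 := fun h => h1 (Fin.ext h)
    simp [iotaMap, h0', h1']
  have hval' : ∀ (i : Fin p) (j : Fin q), i ≠ i0 → i ≠ i1 → iotaMap p q Z (i, j) = 0 := by
    intro i j h0 h1
    have h0' : (i : ℕ) ≠ 0 := fun h => h0 (Fin.ext h)
    have h1' : (i : ℕ) ≠ 1 := fun h => h1 (Fin.ext h)
    simp [iotaMap, h0', h1']
  have hsum : ∀ i, ∑ j, iotaMap p q Z (i, j) * v j =
      iotaMap p q Z (i, j0) * v j0 + iotaMap p q Z (i, j1) * v j1 := by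
    intro i
    rw [← Finset.sum_subset (Finset.subset_univ {j0, j1}), Finset.sum_pair hj]
    intro j _ hj'
    simp only [Finset.mem_insert, Finset.mem_singleton, not_or] at hj'
    rw [hval i j hj'.1 hj'.2, zero_mul]
  have hlhs : ∑ i, ‖∑ j, iotaMap p q Z (i, j) * v j‖ ^ 2 =
      ‖Z.1 * v j0 + Z.2.1 * v j1‖ ^ 2 + ‖Z.2.1 * v j0 + Z.2.2 * v j1‖ ^ 2 := by
    rw [← Finset.sum_subset (Finset.subset_univ {i0, i1}), Finset.sum_pair hi, hsum, hsum]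
    · simp [iotaMap, i0, i1, j0, j1]
    · intro i _ hi'
      simp only [Finset.mem_insert, Finset.mem_singleton, not_or] at hi'
      rw [hsum, hval' i j0 hi'.1 hi'.2, hval' i j1 hi'.1 hi'.2]
      simp
  rw [hlhs]
  have hrhs : ‖v j0‖ ^ 2 + ‖v j1‖ ^ 2 ≤ ∑ j, ‖v j‖ ^ 2 := by
    rw [← Finset.sum_pair hj (f := fun j => ‖v j‖ ^ 2)]
    exact Finset.sum_le_sum_of_subset_of_nonneg (Finset.subset_univ _)
      (fun i _ _ => by positivity)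
  by_cases h : v j0 = 0 ∧ v j1 = 0
  · rw [h.1, h.2]
    simp only [mul_zero, add_zero, norm_zero, ne_eq, OfNat.ofNat_ne_zero, not_false_eq_true,
      zero_pow]
    obtain ⟨j, hj⟩ : ∃ j, v j ≠ 0 := by
      by_contra hcon
      push Not at hcon
      exact hv (funext hcon)
    exact Finset.sum_pos' (fun i _ => by positivity)
      ⟨j, Finset.mem_univ _, by have := norm_pos_iff.2 hj; positivity⟩
  · exact (hZ _ _ h).trans_le hrhs

/-- `∑_j ‖π e_j‖^2 ≤ 4`. -/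
theorem sum_pi_single_le (hp : 2 ≤ p) (hq : 2 ≤ q) :
    ∑ j : Fin p × Fin q, ‖piMap hp hq (Pi.single j 1)‖ ^ 2 ≤ 4 := by
  let k1 : Fin p × Fin q := (⟨0, by omega⟩, ⟨0, by omega⟩)
  let k2 : Fin p × Fin q := (⟨0, by omega⟩, ⟨1, by omega⟩)
  let k3 : Fin p × Fin q := (⟨1, by omega⟩, ⟨0, by omega⟩)
  let k4 : Fin p × Fin q := (⟨1, by omega⟩, ⟨1, by omega⟩)
  have hval : ∀ j k : Fin p × Fin q, ‖(Pi.single j (1 : ℂ) : Fin p × Fin q → ℂ) k‖ =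
      if j = k then 1 else 0 := by
    intro j k
    by_cases h : j = k
    · subst h; simp
    · rw [Pi.single_eq_of_ne (fun h' => h h'.symm)]
      simp [h]
  have hb : ∀ j : Fin p × Fin q, ‖piMap hp hq (Pi.single j 1)‖ ^ 2 ≤
      (((if j = k1 then (1 : ℝ) else 0) + (if j = k2 then (1 : ℝ) else 0)) +
        (if j = k3 then (1 : ℝ) else 0)) + (if j = k4 then (1 : ℝ) else 0) := by
    intro j
    have h1 : ‖piMap hp hq (Pi.single j 1)‖ ≤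
        if j = k1 ∨ j = k2 ∨ j = k3 ∨ j = k4 then (1 : ℝ) else 0 := by
      change ‖(((Pi.single j (1 : ℂ) : Fin p × Fin q → ℂ) k1,
        ((Pi.single j (1 : ℂ) : Fin p × Fin q → ℂ) k2 +
          (Pi.single j (1 : ℂ) : Fin p × Fin q → ℂ) k3) / 2,
        (Pi.single j (1 : ℂ) : Fin p × Fin q → ℂ) k4) : C3)‖ ≤ _
      refine max_le ?_ (max_le ?_ ?_)
      · change ‖(Pi.single j (1 : ℂ) : Fin p × Fin q → ℂ) k1‖ ≤ _
        rw [hval]
        by_cases h : j = k1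
        · simp [h]
        · rw [if_neg h]; split_ifs <;> norm_num
      · change ‖((Pi.single j (1 : ℂ) : Fin p × Fin q → ℂ) k2 +
          (Pi.single j (1 : ℂ) : Fin p × Fin q → ℂ) k3) / 2‖ ≤ _
        rw [norm_div]
        have h2 := norm_add_le ((Pi.single j (1 : ℂ) : Fin p × Fin q → ℂ) k2)
          ((Pi.single j (1 : ℂ) : Fin p × Fin q → ℂ) k3)
        rw [hval, hval] at h2
        have h3 : ‖(2 : ℂ)‖ = 2 := by norm_num
        rw [h3]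
        by_cases h : j = k2
        · rw [if_pos (Or.inr (Or.inl h))]
          have : (if j = k2 then (1 : ℝ) else 0) + (if j = k3 then (1 : ℝ) else 0) ≤ 2 := by
            split_ifs <;> norm_num
          linarith
        · by_cases h' : j = k3
          · rw [if_pos (Or.inr (Or.inr (Or.inl h')))]
            have : (if j = k2 then (1 : ℝ) else 0) + (if j = k3 then (1 : ℝ) else 0) ≤ 2 := by
              split_ifs <;> norm_num
            linarith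
          · rw [if_neg h, if_neg h'] at h2
            have : (0 : ℝ) ≤ if j = k1 ∨ j = k2 ∨ j = k3 ∨ j = k4 then (1 : ℝ) else 0 := by
              split_ifs <;> norm_num
            linarith
      · change ‖(Pi.single j (1 : ℂ) : Fin p × Fin q → ℂ) k4‖ ≤ _
        rw [hval]
        by_cases h : j = k4
        · simp [h]
        · rw [if_neg h]; split_ifs <;> norm_num
    have h0 : 0 ≤ ‖piMap hp hq (Pi.single j 1)‖ := norm_nonneg _
    by_cases hk1 : j = k1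
    · rw [if_pos (Or.inl hk1)] at h1
      rw [if_pos hk1]
      have : ‖piMap hp hq (Pi.single j 1)‖ ^ 2 ≤ 1 := by nlinarith
      have h5 : (0 : ℝ) ≤ if j = k2 then (1 : ℝ) else 0 := by split_ifs <;> norm_num
      have h6 : (0 : ℝ) ≤ if j = k3 then (1 : ℝ) else 0 := by split_ifs <;> norm_num
      have h7 : (0 : ℝ) ≤ if j = k4 then (1 : ℝ) else 0 := by split_ifs <;> norm_num
      linarith
    · by_cases hk2 : j = k2
      · rw [if_pos (Or.inr (Or.inl hk2))] at h1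
        rw [if_neg hk1, if_pos hk2]
        have : ‖piMap hp hq (Pi.single j 1)‖ ^ 2 ≤ 1 := by nlinarith
        have h6 : (0 : ℝ) ≤ if j = k3 then (1 : ℝ) else 0 := by split_ifs <;> norm_num
        have h7 : (0 : ℝ) ≤ if j = k4 then (1 : ℝ) else 0 := by split_ifs <;> norm_num
        linarith
      · by_cases hk3 : j = k3
        · rw [if_pos (Or.inr (Or.inr (Or.inl hk3)))] at h1
          rw [if_neg hk1, if_neg hk2, if_pos hk3]
          have : ‖piMap hp hq (Pi.single j 1)‖ ^ 2 ≤ 1 := by nlinarith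
          have h7 : (0 : ℝ) ≤ if j = k4 then (1 : ℝ) else 0 := by split_ifs <;> norm_num
          linarith
        · by_cases hk4 : j = k4
          · rw [if_pos (Or.inr (Or.inr (Or.inr hk4)))] at h1
            rw [if_neg hk1, if_neg hk2, if_neg hk3, if_pos hk4]
            have : ‖piMap hp hq (Pi.single j 1)‖ ^ 2 ≤ 1 := by nlinarith
            linarith
          · rw [if_neg (by tauto)] at h1
            rw [if_neg hk1, if_neg hk2, if_neg hk3, if_neg hk4]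
            have h8 : ‖piMap hp hq (Pi.single j 1)‖ = 0 := le_antisymm h1 h0
            rw [h8]
            norm_num
  refine (Finset.sum_le_sum fun j _ => hb j).trans ?_
  rw [Finset.sum_add_distrib, Finset.sum_add_distrib, Finset.sum_add_distrib]
  simp only [Finset.sum_ite_eq', Finset.mem_univ, if_true]
  norm_num

end Pool.Agent.P9749df
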