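import Pool.Agent.Lib.P9749df.Defs

/-!
# Smooth functions and their `∂bar` in the sense of distributions
-/

open MeasureTheory Set
open scoped ContDiff

namespace Pool.Agent.P9749df

variable {ι : Type} [Fintype ι] [DecidableEq ι]

/-- Integral of a derivative of a compactly supported `C^1` function vanishes. -/
theorem integral_dbar_eq_zero (ψ : (ι → ℂ) → ℂ) (hψ : ContDiff ℝ 1 ψ)
    (hc : HasCompactSupport ψ) (j : ι) : ∫ z, dbar j ψ z = 0 := by
  have hcont : ∀ v : ι → ℂ, Continuous fun z => fderiv ℝ ψ z v := fun v =>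
    (hψ.continuous_fderiv (by norm_num)).clm_apply continuous_const
  have hint : ∀ v : ι → ℂ, Integrable fun z => fderiv ℝ ψ z v := fun v =>
    (hcont v).integrable_of_hasCompactSupport (hc.fderiv_apply ℝ v)
  have hψint : Integrable ψ := hψ.continuous.integrable_of_hasCompactSupport hc
  have key : ∀ v : ι → ℂ, ∫ z, fderiv ℝ ψ z v = 0 := by
    intro v
    have h := integral_mul_fderiv_eq_neg_fderiv_mul_of_integrable (μ := volume)
      (f := fun _ : ι → ℂ => (1 : ℂ)) (g := ψ) (v := v) (by simp) (by simpa using hint v)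
      (by simpa using hψint) (fun x _ => differentiableAt_const _)
      (fun x _ => hψ.differentiable (by norm_num) x)
    simpa using h
  unfold dbar
  rw [integral_const_mul, integral_add (hint _) ((hint _).const_mul _), integral_const_mul,
    key, key]
  simp

lemma dbar_eq_zero_of_notMem {φ : (ι → ℂ) → ℂ} {z : ι → ℂ} (hz : z ∉ tsupport φ) (j : ι) :
    dbar j φ z = 0 := by
  unfold dbar
  rw [fderiv_of_notMem_tsupport ℝ hz]
  simp

lemma contDiff_dbar {φ : (ι → ℂ) → ℂ} (hφ : ContDiff ℝ ∞ φ) (j : ι) :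
    ContDiff ℝ ∞ (dbar j φ) := by
  have h : ∀ v : ι → ℂ, ContDiff ℝ ∞ fun z => fderiv ℝ φ z v := fun v =>
    (hφ.fderiv_right (m := ∞) (by simp)).clm_apply contDiff_const
  unfold dbar
  exact contDiff_const.mul ((h _).add (contDiff_const.mul (h _)))

lemma tsupport_dbar_subset (φ : (ι → ℂ) → ℂ) (j : ι) : tsupport (dbar j φ) ⊆ tsupport φ := by
  refine closure_minimal ?_ (isClosed_tsupport φ)
  intro z hz
  by_contra hcon
  exact hz (dbar_eq_zero_of_notMem hcon j)

lemma IsTest.dbar {Ω : Set (ι → ℂ)} {φ : (ι → ℂ) → ℂ} (h : IsTest Ω φ) (j : ι) :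
    IsTest Ω (dbar j φ) where
  smooth := contDiff_dbar h.smooth j
  compact := HasCompactSupport.of_support_subset_isCompact h.compact
    (subset_closure.trans (tsupport_dbar_subset φ j))
  supp := (tsupport_dbar_subset φ j).trans h.supp

omit [DecidableEq ι] in
lemma continuous_mul_test {Ω : Set (ι → ℂ)} (hΩ : IsOpen Ω) {v φ : (ι → ℂ) → ℂ}
    (hv : ContinuousOn v Ω) (h : IsTest Ω φ) : Continuous fun z => v z * φ z := by
  rw [continuous_iff_continuousAt]
  intro z
  by_cases hz : z ∈ tsupport φ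
  · exact ((hv z (h.supp hz)).continuousAt (hΩ.mem_nhds (h.supp hz))).mul
      h.smooth.continuous.continuousAt
  · have h1 : (fun z => v z * φ z) =ᶠ[nhds z] fun _ => 0 := by
      have := (isClosed_tsupport φ).isOpen_compl.mem_nhds hz
      filter_upwards [this] with w hw
      rw [image_eq_zero_of_notMem_tsupport hw, mul_zero]
    exact (continuousAt_const.congr h1.symm)

omit [DecidableEq ι] in
lemma hasCompactSupport_mul_test {Ω : Set (ι → ℂ)} {v φ : (ι → ℂ) → ℂ} (h : IsTest Ω φ) :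
    HasCompactSupport fun z => v z * φ z := h.compact.mul_left

omit [DecidableEq ι] in
lemma integrable_mul_test {Ω : Set (ι → ℂ)} (hΩ : IsOpen Ω) {v φ : (ι → ℂ) → ℂ}
    (hv : ContinuousOn v Ω) (h : IsTest Ω φ) : Integrable fun z => v z * φ z :=
  (continuous_mul_test hΩ hv h).integrable_of_hasCompactSupport (hasCompactSupport_mul_test h)

omit [DecidableEq ι] in
lemma setIntegral_mul_test {Ω : Set (ι → ℂ)} {v φ : (ι → ℂ) → ℂ} (h : IsTest Ω φ) :
    ∫ z in Ω, v z * φ z = ∫ z, v z * φ z := by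
  apply setIntegral_eq_integral_of_forall_compl_eq_zero
  intro z hz
  rw [image_eq_zero_of_notMem_tsupport fun h' => hz (h.supp h'), mul_zero]

lemma continuousOn_dbar {Ω : Set (ι → ℂ)} (hΩ : IsOpen Ω) {u : (ι → ℂ) → ℂ}
    (hu : ContDiffOn ℝ ∞ u Ω) (j : ι) : ContinuousOn (fun z => dbar j u z) Ω := by
  have h : ∀ v : ι → ℂ, ContinuousOn (fun z => fderiv ℝ u z v) Ω := fun v =>
    (hu.continuousOn_fderiv_of_isOpen hΩ (by simp)).clm_apply continuousOn_const
  unfold dbar
  exact continuousOn_const.mul ((h _).add (continuousOn_const.mul (h _)))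

omit [DecidableEq ι] in
lemma contDiff_mul_test {Ω : Set (ι → ℂ)} (hΩ : IsOpen Ω) {u φ : (ι → ℂ) → ℂ}
    (hu : ContDiffOn ℝ ∞ u Ω) (h : IsTest Ω φ) : ContDiff ℝ ∞ fun z => u z * φ z := by
  rw [contDiff_iff_contDiffAt]
  intro z
  by_cases hz : z ∈ tsupport φ
  · exact ((hu z (h.supp hz)).contDiffAt (hΩ.mem_nhds (h.supp hz))).mul h.smooth.contDiffAt
  · have h1 : (fun z => u z * φ z) =ᶠ[nhds z] fun _ => 0 := by
      have := (isClosed_tsupport φ).isOpen_compl.mem_nhds hz
      filter_upwards [this] with w hw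
      rw [image_eq_zero_of_notMem_tsupport hw, mul_zero]
    exact contDiffAt_const.congr_of_eventuallyEq h1

lemma dbar_mul_test {Ω : Set (ι → ℂ)} (hΩ : IsOpen Ω) {u φ : (ι → ℂ) → ℂ}
    (hu : ContDiffOn ℝ ∞ u Ω) (h : IsTest Ω φ) (j : ι) (z : ι → ℂ) :
    dbar j (fun z => u z * φ z) z = dbar j u z * φ z + u z * dbar j φ z := by
  by_cases hz : z ∈ tsupport φ
  · have h1 : DifferentiableAt ℝ u z :=
      ((hu z (h.supp hz)).contDiffAt (hΩ.mem_nhds (h.supp hz))).differentiableAt (by simp)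
    have h2 : DifferentiableAt ℝ φ z := h.smooth.differentiable (by simp) z
    have h3 : fderiv ℝ (fun z => u z * φ z) z = u z • fderiv ℝ φ z + φ z • fderiv ℝ u z :=
      fderiv_fun_mul h1 h2
    unfold dbar
    rw [h3]
    simp only [add_apply, smul_apply, smul_eq_mul]
    ring
  · have h1 : z ∉ tsupport fun z => u z * φ z := by
      intro h'
      refine hz (closure_mono ?_ h')
      intro w hw
      exact right_ne_zero_of_mul hw
    rw [dbar_eq_zero_of_notMem h1, dbar_eq_zero_of_notMem hz,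
      image_eq_zero_of_notMem_tsupport hz]
    simp

/-- `∂bar` of a smooth function on an open set: the function is a distributional solution.

PROOF. For a test function `φ` with `tsupport φ ⊆ Ω`, `ψ = u φ` is smooth with compact support
(it is smooth on `Ω` and vanishes off `tsupport φ`), `dbar j ψ = dbar j u * φ + u * dbar j φ` on
`Ω`, and `∫ dbar j ψ = 0`. -/
theorem smooth_solves {Ω : Set (ι → ℂ)} (hΩ : IsOpen Ω) (u : (ι → ℂ) → ℂ)
    (hu : ContDiffOn ℝ ∞ u Ω) : DbarSolves Ω (fun j z => dbar j u z) u := by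
  refine ⟨hu.continuousOn.locallyIntegrableOn hΩ.measurableSet, ?_⟩
  intro φ hφ j
  rw [setIntegral_mul_test (hφ.dbar j), setIntegral_mul_test hφ]
  have h1 := integral_dbar_eq_zero (fun z => u z * φ z)
    ((contDiff_mul_test hΩ hu hφ).of_le (by simp)) (hasCompactSupport_mul_test hφ) j
  have h2 : ∫ z, dbar j (fun z => u z * φ z) z =
      ∫ z, (dbar j u z * φ z + u z * dbar j φ z) :=
    integral_congr_ae (Filter.Eventually.of_forall fun z => dbar_mul_test hΩ hu hφ j z)
  rw [h2, integral_add (integrable_mul_test hΩ (continuousOn_dbar hΩ hu j) hφ)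
    (integrable_mul_test hΩ hu.continuousOn (hφ.dbar j))] at h1
  linear_combination h1

lemma dbar_comm {φ : (ι → ℂ) → ℂ} (hφ : ContDiff ℝ ∞ φ) (j k : ι) (z : ι → ℂ) :
    dbar j (dbar k φ) z = dbar k (dbar j φ) z := by
  have hsymm : ∀ v w : ι → ℂ, fderiv ℝ (fderiv ℝ φ) z v w = fderiv ℝ (fderiv ℝ φ) z w v :=
    (hφ.contDiffAt (x := z)).isSymmSndFDerivAt (by
      rw [minSmoothness_of_isRCLikeNormedField]; exact WithTop.coe_le_coe.mpr le_top)
  have hd : Differentiable ℝ (fderiv ℝ φ) :=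
    (hφ.fderiv_right (m := ∞) (by simp)).differentiable (by simp)
  have h1 : ∀ v : ι → ℂ, Differentiable ℝ fun z => fderiv ℝ φ z v := fun v =>
    hd.clm_apply (differentiable_const _)
  have h2 : ∀ v w : ι → ℂ, fderiv ℝ (fun z => fderiv ℝ φ z v) z w =
      fderiv ℝ (fderiv ℝ φ) z w v := by
    intro v w
    have := fderiv_clm_apply (𝕜 := ℝ) (c := fderiv ℝ φ) (u := fun _ => v) (x := z) (hd z)
      (differentiableAt_const _)
    rw [this]
    simp
  have h3 : ∀ (k : ι) (w : ι → ℂ), fderiv ℝ (dbar k φ) z w =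
      (1 / 2 : ℂ) * (fderiv ℝ (fderiv ℝ φ) z w (Pi.single k 1) +
        Complex.I * fderiv ℝ (fderiv ℝ φ) z w (Pi.single k Complex.I)) := by
    intro k w
    have e : HasFDerivAt (dbar k φ) ((1 / 2 : ℂ) •
        (fderiv ℝ (fun z => fderiv ℝ φ z (Pi.single k 1)) z +
          Complex.I • fderiv ℝ (fun z => fderiv ℝ φ z (Pi.single k Complex.I)) z)) z :=
      ((((h1 (Pi.single k 1)) z).hasFDerivAt).add
        ((((h1 (Pi.single k Complex.I)) z).hasFDerivAt).const_mul Complex.I)).const_mul (1 / 2 : ℂ)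
    rw [e.fderiv]
    simp only [add_apply, smul_apply, smul_eq_mul, h2]
  have h4 : ∀ j k : ι, dbar j (dbar k φ) z = (1 / 2 : ℂ) * (fderiv ℝ (dbar k φ) z
      (Pi.single j 1) + Complex.I * fderiv ℝ (dbar k φ) z (Pi.single j Complex.I)) :=
    fun j k => rfl
  rw [h4, h4, h3, h3, h3, h3, hsymm (Pi.single k 1) (Pi.single j 1),
    hsymm (Pi.single k 1) (Pi.single j Complex.I), hsymm (Pi.single k Complex.I) (Pi.single j 1),
    hsymm (Pi.single k Complex.I) (Pi.single j Complex.I)]
  ring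

/-- The form `∂bar u` of a smooth function is closed.

PROOF. For a test function `φ`, `dbar k φ` is again a test function, so by `smooth_solves`
`∫ dbar j u * dbar k φ = - ∫ u * dbar j (dbar k φ)`, symmetric in `j, k`
(symmetry of second derivatives). -/
theorem smooth_closed {Ω : Set (ι → ℂ)} (hΩ : IsOpen Ω) (u : (ι → ℂ) → ℂ)
    (hu : ContDiffOn ℝ ∞ u Ω) : DbarClosed Ω (fun j z => dbar j u z) := by
  intro φ hφ j k
  have h1 := (smooth_solves hΩ u hu).2 (dbar k φ) (hφ.dbar k) j
  have h2 := (smooth_solves hΩ u hu).2 (dbar j φ) (hφ.dbar j) k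
  have h3 : ∫ z in Ω, u z * dbar j (dbar k φ) z = ∫ z in Ω, u z * dbar k (dbar j φ) z := by
    simp only [dbar_comm hφ.smooth j k]
  linear_combination h1 - h2 - h3

end Pool.Agent.P9749df
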