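import Pool.Agent.Lib.P9749df.Core
import Pool.Agent.Lib.P9749df.WeakSmooth
import Pool.Agent.Lib.P9749df.Mollify
import Pool.Agent.Lib.P9749df.PiMaps
import Pool.Agent.Lib.P9749df.BSDsym

/-!
# The matrix balls do not admit sup-norm estimates
-/

open MeasureTheory Set Filter Topology Metric
open scoped ContDiff ENNReal NNReal

namespace Pool.Agent.P9749df

section

variable {ι : Type} [Fintype ι] [DecidableEq ι]

omit [Fintype ι] in
theorem fin_single_I (j : ι) : (Pi.single j Complex.I : ι → ℂ) = Complex.I • Pi.single j (1 : ℂ) := by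
  rw [← Pi.single_smul]
  simp

/-- Chain rule for `dbar` and a complex linear map. -/
theorem fin_dbar_comp (T : (ι → ℂ) →L[ℂ] C3) (u0 : C3 → ℂ) (z : ι → ℂ) (j : ι)
    (hu : DifferentiableAt ℝ u0 (T z)) :
    dbar j (fun z => u0 (T z)) z = dbarV u0 (T z) (T (Pi.single j 1)) := by
  have h : HasFDerivAt (fun z => u0 (T z))
      ((fderiv ℝ u0 (T z)).comp (T.restrictScalars ℝ)) z :=
    HasFDerivAt.comp z hu.hasFDerivAt (T.restrictScalars ℝ).hasFDerivAt
  unfold dbar dbarV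
  rw [h.fderiv, fin_single_I]
  simp [ContinuousLinearMap.comp_apply]

theorem fin_continuous_dbar {φ : (ι → ℂ) → ℂ} (hφ : ContDiff ℝ ∞ φ) (j : ι) :
    Continuous (fun z => dbar j φ z) := by
  have h := hφ.continuous_fderiv (by simp)
  unfold dbar
  fun_prop

theorem fin_continuousOn_dbar {Ω : Set (ι → ℂ)} (hΩ : IsOpen Ω) {φ : (ι → ℂ) → ℂ}
    (hφ : ContDiffOn ℝ ∞ φ Ω) (j : ι) : ContinuousOn (fun z => dbar j φ z) Ω := by
  have h := hφ.continuousOn_fderiv_of_isOpen hΩ (by simp)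
  unfold dbar
  fun_prop

theorem fin_hasCompactSupport_dbar {φ : (ι → ℂ) → ℂ} (hφ : HasCompactSupport φ) (j : ι) :
    HasCompactSupport (fun z => dbar j φ z) := by
  have h : HasCompactSupport (fderiv ℝ φ) := hφ.fderiv ℝ
  apply h.mono'
  intro z hz
  apply subset_tsupport
  rw [Function.mem_support] at hz ⊢
  intro h0
  apply hz
  simp [dbar, h0]

theorem fin_integrable_test {Ω : Set (ι → ℂ)} {φ : (ι → ℂ) → ℂ} (hφ : IsTest Ω φ) (j : ι)
    (D : (ι → ℂ) → ℂ) (B : ℝ) (hD : AEStronglyMeasurable D (volume.restrict Ω))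
    (hB : ∀ᵐ z ∂volume.restrict Ω, ‖D z‖ ≤ B) :
    Integrable (fun z => D z * dbar j φ z) (volume.restrict Ω) := by
  refine Integrable.bdd_mul (c := B) ?_ hD hB
  exact ((fin_continuous_dbar hφ.smooth j).integrable_of_hasCompactSupport
    (fin_hasCompactSupport_dbar hφ.compact j)).restrict

end

theorem not_admits (p q : ℕ) (hp : 2 ≤ p) (hq : 2 ≤ q) :
    ¬ AdmitsSupNormEstimates (matrixBall p q) := by
  rintro ⟨c, hc⟩
  obtain ⟨u0, g, B, L, hu0, hB, hdb, hg, hann, hlim, hL⟩ := core (2 * c)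
  obtain ⟨T, hT⟩ := exists_piCLM hp hq
  obtain ⟨S, hS⟩ := exists_iotaCLM p q
  set Ω : Set (Fin p × Fin q → ℂ) := matrixBall p q with hΩdef
  have hΩ : IsOpen Ω := isOpen_matrixBall p q
  have hmaps : MapsTo T Ω SymBall := fun z hz => by
    rw [hT]; exact pi_mem hp hq hz
  have hTS : ∀ Z, T (S Z) = Z := fun Z => by rw [hT, hS]; exact pi_iota hp hq Z
  set u : (Fin p × Fin q → ℂ) → ℂ := fun z => u0 (T z) with hudef
  have hTsm : ContDiff ℝ ∞ (fun z => T z) := (T.restrictScalars ℝ).contDiff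
  have hu : ContDiffOn ℝ ∞ u Ω := hu0.comp hTsm.contDiffOn hmaps
  have hf : ∀ z ∈ Ω, ∀ j, ‖dbar j u z‖ ≤ ‖T (Pi.single j 1)‖ := by
    intro z hz j
    rw [hudef, fin_dbar_comp T u0 z j ((hu0.differentiableOn (by simp)).differentiableAt
      (isOpen_symBall.mem_nhds (hmaps hz)))]
    exact hdb _ (hmaps hz) _
  have hsum : ∑ j : Fin p × Fin q, ‖T (Pi.single j 1)‖ ^ 2 ≤ 4 := by
    have h := sum_pi_single_le (p := p) (q := q) hp hq
    simpa only [hT] using h
  have haeΩ : ∀ᵐ z ∂volume.restrict Ω, z ∈ Ω := ae_restrict_mem hΩ.measurableSet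
  have hfmem : ∀ j, MemLp (fun z => dbar j u z) ⊤ (volume.restrict Ω) := by
    intro j
    apply memLp_top_of_bound
      ((fin_continuousOn_dbar hΩ hu j).aestronglyMeasurable hΩ.measurableSet) ‖T (Pi.single j 1)‖
    filter_upwards [haeΩ] with z hz using hf z hz j
  obtain ⟨v, hv, hvn⟩ := hc (fun j z => dbar j u z) hfmem (smooth_closed hΩ u hu)
  have hfn : eLpNorm (fun z => Real.sqrt (∑ j, ‖dbar j u z‖ ^ 2)) ⊤ (volume.restrict Ω) ≤
      ENNReal.ofReal 2 := by
    rw [eLpNorm_exponent_top]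
    apply eLpNormEssSup_le_of_ae_bound
    filter_upwards [haeΩ] with z hz
    rw [Real.norm_eq_abs, abs_of_nonneg (Real.sqrt_nonneg _)]
    apply Real.sqrt_le_iff.mpr
    refine ⟨by norm_num, ?_⟩
    calc ∑ j, ‖dbar j u z‖ ^ 2 ≤ ∑ j : Fin p × Fin q, ‖T (Pi.single j 1)‖ ^ 2 :=
          Finset.sum_le_sum fun j _ => pow_le_pow_left₀ (norm_nonneg _) (hf z hz j) 2
      _ ≤ 4 := hsum
      _ = 2 ^ 2 := by norm_num
  have hvb : ∀ᵐ z ∂volume.restrict Ω, ‖v z‖ ≤ 2 * c := by
    have h1 : eLpNormEssSup v (volume.restrict Ω) ≤ ENNReal.ofReal (2 * c) := by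
      rw [eLpNorm_exponent_top] at hvn
      refine hvn.trans ?_
      calc (c : ℝ≥0∞) * eLpNorm (fun z => Real.sqrt (∑ j, ‖dbar j u z‖ ^ 2)) ⊤
            (volume.restrict Ω) ≤ (c : ℝ≥0∞) * ENNReal.ofReal 2 := by gcongr
        _ = ENNReal.ofReal (2 * c) := by
          rw [mul_comm, ENNReal.ofReal_mul (by norm_num)]
          simp
    filter_upwards [ae_le_eLpNormEssSup (f := v) (μ := volume.restrict Ω)] with z hz
    have h2 : ‖v z‖ₑ ≤ ENNReal.ofReal (2 * c) := hz.trans h1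
    rw [← ofReal_norm] at h2
    exact (ENNReal.ofReal_le_ofReal_iff (by positivity)).mp h2
  have hvm : AEStronglyMeasurable v (volume.restrict Ω) := hv.1.aestronglyMeasurable
  have hum : AEStronglyMeasurable u (volume.restrict Ω) :=
    hu.continuousOn.aestronglyMeasurable hΩ.measurableSet
  set M : ℝ := |B| + 2 * c with hMdef
  have hc0 : (0 : ℝ) ≤ 2 * c := by positivity
  have hM0 : 0 ≤ M := by positivity
  have huM : ∀ᵐ z ∂volume.restrict Ω, ‖u z‖ ≤ M := by
    filter_upwards [haeΩ] with z hz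
    have := hB _ (hmaps hz)
    have h2 := le_abs_self B
    simp only [hudef]
    linarith
  have hvM : ∀ᵐ z ∂volume.restrict Ω, ‖v z‖ ≤ M := by
    filter_upwards [hvb] with z hz
    have h2 := abs_nonneg B
    linarith
  have hDm : AEStronglyMeasurable (fun z => u z - v z) (volume.restrict Ω) := hum.sub hvm
  have hDM : ∀ᵐ z ∂volume.restrict Ω, ‖u z - v z‖ ≤ M + M := by
    filter_upwards [huM, hvM] with z h1 h2
    exact (norm_sub_le _ _).trans (add_le_add h1 h2)
  have hweak : ∀ φ : (Fin p × Fin q → ℂ) → ℂ, IsTest Ω φ → ∀ j,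
      ∫ z in Ω, (u z - v z) * dbar j φ z = 0 := by
    intro φ hφ j
    have h1 := (smooth_solves hΩ u hu).2 φ hφ j
    have h2 := hv.2 φ hφ j
    have h3 : (fun z => (u z - v z) * dbar j φ z) =
        fun z => u z * dbar j φ z - v z * dbar j φ z := by
      funext z; ring
    rw [h3, integral_sub (fin_integrable_test hφ j u M hum huM) (fin_integrable_test hφ j v M hvm hvM),
      h1, h2, sub_self]
  -- the estimate for a fixed radius
  have hkey : ∀ ϱ : ℝ, 0 < ϱ → ϱ < 1 →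
      ‖∫ X : R3, u0 ((ϱ : ℂ) • Psi (toC X)) * g X‖ ≤ 2 * c * ∫ X : R3, ‖g X‖ := by
    intro ϱ h0 h1
    have hcomp : IsCompact ((fun Z : C3 => S ((ϱ : ℂ) • Z)) '' ClosedSymBall) :=
      isCompact_closedSymBall.image (by fun_prop)
    have hsub : (fun Z : C3 => S ((ϱ : ℂ) • Z)) '' ClosedSymBall ⊆ Ω := by
      rintro _ ⟨Z, hZ, rfl⟩
      show S ((ϱ : ℂ) • Z) ∈ Ω
      rw [hS]
      exact iota_mem hp hq (smul_mem_symBall hZ h0.le h1)
    obtain ⟨ε0, hε0, hthick⟩ := hcomp.exists_thickening_subset_open hΩ hsub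
    have hmemX : ∀ X : R3, S ((ϱ : ℂ) • Psi (toC X)) ∈
        (fun Z : C3 => S ((ϱ : ℂ) • Z)) '' ClosedSymBall :=
      fun X => ⟨Psi (toC X), psi_mem (toC_mem X), rfl⟩
    have hcontX : Continuous (fun X : R3 => S ((ϱ : ℂ) • Psi (toC X))) :=
      S.continuous.comp ((continuous_const_smul (ϱ : ℂ)).comp continuous_psi_toC)
    have hintm : ∀ ε : ℝ, 0 < ε → ∀ (D : (Fin p × Fin q → ℂ) → ℂ) (M' : ℝ), 0 ≤ M' →
        AEStronglyMeasurable D (volume.restrict Ω) →
        (∀ᵐ z ∂volume.restrict Ω, ‖D z‖ ≤ M') →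
        Integrable (fun X : R3 => moll Ω ε D (S ((ϱ : ℂ) • Psi (toC X))) * g X) := by
      intro ε hε D M' hM' hD hDB
      refine Integrable.bdd_mul (c := M') hg ?_ ?_
      · exact ((continuous_moll hΩ D M' hD hDB ε hε).comp hcontX).aestronglyMeasurable
      · exact Filter.Eventually.of_forall fun X => moll_norm_le D M' hM' hDB ε hε _
    have hest : ∀ ε : ℝ, 0 < ε → ε < ε0 →
        ‖∫ X : R3, moll Ω ε u (S ((ϱ : ℂ) • Psi (toC X))) * g X‖ ≤ 2 * c * ∫ X : R3, ‖g X‖ := by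
      intro ε hε hεε
      have hshr : ∀ Z ∈ ClosedSymBall, (ϱ : ℂ) • Z ∈ S ⁻¹' (shrink Ω ε) := by
        intro Z hZ
        refine ⟨ε0, hεε, ?_⟩
        intro y hy
        apply hthick
        rw [mem_thickening_iff]
        exact ⟨S ((ϱ : ℂ) • Z), ⟨Z, hZ, rfl⟩, hy⟩
      have hopen : IsOpen (S ⁻¹' (shrink Ω ε)) := (isOpen_shrink Ω ε).preimage S.continuous
      have hdiff : DifferentiableOn ℂ (fun Z => moll Ω ε (fun w => u w - v w) (S Z))
          (S ⁻¹' (shrink Ω ε)) :=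
        (moll_differentiableOn hΩ (fun w => u w - v w) (M + M) hDm hDM hweak ε hε).comp
          S.differentiable.differentiableOn (fun Z hZ => hZ)
      have hz := hann (fun Z => moll Ω ε (fun w => u w - v w) (S Z)) (S ⁻¹' (shrink Ω ε)) ϱ hopen
        hdiff hshr
      have heq : (fun X : R3 => moll Ω ε (fun w => u w - v w) (S ((ϱ : ℂ) • Psi (toC X))) * g X) =
          fun X => moll Ω ε u (S ((ϱ : ℂ) • Psi (toC X))) * g X -
            moll Ω ε v (S ((ϱ : ℂ) • Psi (toC X))) * g X := by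
        funext X
        rw [moll_sub u v M hum hvm huM hvM ε hε, sub_mul]
      rw [heq, integral_sub (hintm ε hε u M hM0 hum huM) (hintm ε hε v M hM0 hvm hvM),
        sub_eq_zero] at hz
      rw [hz]
      calc ‖∫ X : R3, moll Ω ε v (S ((ϱ : ℂ) • Psi (toC X))) * g X‖ ≤
          ∫ X : R3, ‖moll Ω ε v (S ((ϱ : ℂ) • Psi (toC X))) * g X‖ :=
            norm_integral_le_integral_norm _
        _ ≤ ∫ X : R3, 2 * c * ‖g X‖ := by
            apply integral_mono_of_nonneg (Filter.Eventually.of_forall fun X => norm_nonneg _)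
              (hg.norm.const_mul _)
            refine Filter.Eventually.of_forall fun X => ?_
            show ‖moll Ω ε v (S ((ϱ : ℂ) • Psi (toC X))) * g X‖ ≤ 2 * c * ‖g X‖
            rw [norm_mul]
            exact mul_le_mul_of_nonneg_right (moll_norm_le v (2 * c) hc0 hvb ε hε _)
              (norm_nonneg _)
        _ = 2 * c * ∫ X : R3, ‖g X‖ := integral_const_mul _ _
    have hlimε : Tendsto (fun ε : ℝ => ∫ X : R3, moll Ω ε u (S ((ϱ : ℂ) • Psi (toC X))) * g X)
        (𝓝[>] 0) (𝓝 (∫ X : R3, u0 ((ϱ : ℂ) • Psi (toC X)) * g X)) := by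
      apply tendsto_integral_filter_of_dominated_convergence (fun X => M * ‖g X‖)
      · filter_upwards [self_mem_nhdsWithin] with ε hε
        exact (hintm ε hε u M hM0 hum huM).aestronglyMeasurable
      · filter_upwards [self_mem_nhdsWithin] with ε hε
        refine Filter.Eventually.of_forall fun X => ?_
        rw [norm_mul]
        exact mul_le_mul_of_nonneg_right (moll_norm_le u M hM0 huM ε hε _) (norm_nonneg _)
      · exact hg.norm.const_mul _
      · refine Filter.Eventually.of_forall fun X => ?_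
        apply Tendsto.mul_const
        have h2 := moll_tendsto hΩ u hu.continuousOn (S ((ϱ : ℂ) • Psi (toC X)))
          (hsub (hmemX X))
        have h3 : u (S ((ϱ : ℂ) • Psi (toC X))) = u0 ((ϱ : ℂ) • Psi (toC X)) := by
          simp only [hudef, hTS]
        rwa [h3] at h2
    have hev : ∀ᶠ ε : ℝ in 𝓝[>] 0,
        ‖∫ X : R3, moll Ω ε u (S ((ϱ : ℂ) • Psi (toC X))) * g X‖ ≤ 2 * c * ∫ X : R3, ‖g X‖ := by
      filter_upwards [Ioo_mem_nhdsGT hε0] with ε hε
      exact hest ε hε.1 hε.2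
    exact le_of_tendsto hlimε.norm hev
  have hfin : ‖L‖ ≤ 2 * c * ∫ X : R3, ‖g X‖ := by
    refine le_of_tendsto hlim.norm ?_
    filter_upwards [Ioo_mem_nhdsLT (show (0 : ℝ) < 1 by norm_num)] with ϱ hϱ
    exact hkey ϱ hϱ.1 hϱ.2
  exact absurd hL (not_lt.mpr hfin)

end Pool.Agent.P9749df
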