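import Pool.Agent.Lib.P9749df.KakDefs

/-!
# The Kakeya family: compression
-/

open MeasureTheory Set

namespace Pool.Agent.P9749df

lemma kc_abs_cc_le {n l : ℕ} (hn : 1 ≤ n) (hl : l < 2 * n) : |cc n l| ≤ 4 := by
  have hn' : (0 : ℝ) < n := by exact_mod_cast hn
  have key : ∀ t : ℝ, 0 ≤ t → t ≤ n → |4 - 15 / 4 * t / n| ≤ 4 := by
    intro t h0 h1
    have h2 : 0 ≤ 15 / 4 * t / n := by positivity
    have h3 : 15 / 4 * t / n ≤ 15 / 4 := by
      rw [div_le_iff₀ hn']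
      nlinarith
    rw [abs_le]
    constructor <;> linarith
  unfold cc
  split_ifs with h
  · rw [abs_neg]
    apply key
    · positivity
    · exact_mod_cast h
  · have h1 : (n : ℝ) ≤ l := by exact_mod_cast (not_lt.1 h)
    have h2 : (l : ℝ) + 1 ≤ 2 * n := by exact_mod_cast hl
    apply key
    · linarith
    · linarith

lemma kc_tel {Q : ℝ} (hQ : 0 < Q) {a b : ℕ} (h : a ≤ b) :
    ∑ l ∈ Finset.Ico a b, (Q - 1) / Q ^ (l + 1) = 1 / Q ^ a - 1 / Q ^ b := by
  induction b, h using Nat.le_induction with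
  | base => simp
  | succ b hb ih =>
    rw [Finset.sum_Ico_succ_top hb, ih]
    have h1 : Q ^ a ≠ 0 := (pow_pos hQ a).ne'
    have h2 : Q ^ b ≠ 0 := (pow_pos hQ b).ne'
    have h3 : Q ≠ 0 := hQ.ne'
    rw [pow_succ]
    field_simp
    ring

lemma kc_dd_le {n : ℕ} (hn : 1 ≤ n) (l : ℕ) : dd n l ≤ 1000 * n := by
  unfold dd
  split_ifs <;> omega

/-- The position of the line of a digit string. -/
lemma kc_pos (n : ℕ) (d : Dig n) (x : ℝ) : slope n d * x + icpt n d =
    ∑ l : Fin (2 * n), (x - cc n l) * (((d l : ℕ) : ℝ) / (1000 * n : ℝ) ^ ((l : ℕ) + 1)) := by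
  unfold slope icpt
  rw [Finset.sum_mul, ← sub_eq_add_neg, ← Finset.sum_sub_distrib]
  refine Finset.sum_congr rfl fun l _ => ?_
  ring

theorem compress_level (n : ℕ) (hn : 4 ≤ n) (x : ℝ) (hx : |x| ≤ 4) (L : ℕ) (hL : L < 2 * n)
    (hxL : |x - cc n L| ≤ 15 / (4 * n)) :
    volume (⋃ d : Dig n, Icc (slope n d * x + icpt n d - wid n / 16)
      (slope n d * x + icpt n d + wid n / 16)) ≤ ENNReal.ofReal (8 / n) := by
  classical
  have hn' : (4 : ℝ) ≤ n := by exact_mod_cast hn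
  set Q : ℝ := 1000 * n with hQ
  have hQ1 : 1 < Q := by rw [hQ]; linarith
  have hQ0 : 0 < Q := by linarith
  set ρ : ℝ := 15 / (4 * n) / Q ^ L + 9 / Q ^ (L + 1) with hρ
  have hρ0 : 0 ≤ ρ := by positivity
  -- the prefix sums
  set P : (Fin L → Fin (1000 * n)) → ℝ := fun p =>
    ∑ i : Fin L, (x - cc n i) * (((p i : ℕ) : ℝ) / Q ^ ((i : ℕ) + 1)) with hP
  have hsub : (⋃ d : Dig n, Icc (slope n d * x + icpt n d - wid n / 16)
      (slope n d * x + icpt n d + wid n / 16)) ⊆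
      ⋃ p : Fin L → Fin (1000 * n), Icc (P p - ρ) (P p + ρ) := by
    intro y hy
    rw [mem_iUnion] at hy ⊢
    obtain ⟨d, hd⟩ := hy
    refine ⟨fun i => ⟨d ⟨i, by omega⟩, lt_of_lt_of_le (d ⟨i, by omega⟩).2 (kc_dd_le (by omega) _)⟩,
      ?_⟩
    set g : ℕ → ℝ := fun l => if h : l < 2 * n then
      (x - cc n l) * (((d ⟨l, h⟩ : ℕ) : ℝ) / Q ^ (l + 1)) else 0 with hg
    have e1 : slope n d * x + icpt n d = ∑ l ∈ Finset.range (2 * n), g l := by
      rw [kc_pos, ← Fin.sum_univ_eq_sum_range]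
      refine Finset.sum_congr rfl fun l _ => ?_
      simp only [hg, l.2, dif_pos]
      rfl
    have e2 : P (fun i => ⟨d ⟨i, by omega⟩,
        lt_of_lt_of_le (d ⟨i, by omega⟩).2 (kc_dd_le (by omega) _)⟩) =
        ∑ l ∈ Finset.range L, g l := by
      rw [hP, ← Fin.sum_univ_eq_sum_range]
      refine Finset.sum_congr rfl fun l _ => ?_
      have hl : (l : ℕ) < 2 * n := by omega
      simp only [hg, hl, dif_pos]
    have e3 : ∑ l ∈ Finset.range (2 * n), g l = ∑ l ∈ Finset.range L, g l +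
        (g L + ∑ l ∈ Finset.Ico (L + 1) (2 * n), g l) := by
      rw [← Finset.sum_range_add_sum_Ico g hL.le, ← Finset.sum_eq_sum_Ico_succ_bot hL]
    -- digit bound
    have hdig : ∀ (l : ℕ) (h : l < 2 * n), ((d ⟨l, h⟩ : ℕ) : ℝ) ≤ Q - 1 := by
      intro l h
      have h1 : (d ⟨l, h⟩ : ℕ) + 1 ≤ 1000 * n := (d ⟨l, h⟩).2.trans_le (kc_dd_le (by omega) _)
      have h2 : ((d ⟨l, h⟩ : ℕ) : ℝ) + 1 ≤ 1000 * n := by exact_mod_cast h1
      rw [hQ]
      linarith
    have hgL : |g L| ≤ 15 / (4 * n) * ((Q - 1) / Q ^ (L + 1)) := by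
      simp only [hg, hL, dif_pos]
      rw [abs_mul]
      refine mul_le_mul hxL ?_ (abs_nonneg _) (by positivity)
      rw [abs_of_nonneg (by positivity)]
      exact div_le_div_of_nonneg_right (hdig L hL) (by positivity)
    have hgt : |∑ l ∈ Finset.Ico (L + 1) (2 * n), g l| ≤ 8 * (1 / Q ^ (L + 1)) := by
      refine (Finset.abs_sum_le_sum_abs _ _).trans ?_
      have h1 : ∑ l ∈ Finset.Ico (L + 1) (2 * n), |g l| ≤
          ∑ l ∈ Finset.Ico (L + 1) (2 * n), 8 * ((Q - 1) / Q ^ (l + 1)) := by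
        refine Finset.sum_le_sum fun l hl => ?_
        rw [Finset.mem_Ico] at hl
        simp only [hg, hl.2, dif_pos]
        rw [abs_mul]
        refine mul_le_mul ?_ ?_ (abs_nonneg _) (by norm_num)
        · have h2 := kc_abs_cc_le (n := n) (l := l) (by omega) hl.2
          calc |x - cc n l| ≤ |x| + |cc n l| := abs_sub _ _
            _ ≤ 8 := by linarith
        · rw [abs_of_nonneg (by positivity)]
          exact div_le_div_of_nonneg_right (hdig l hl.2) (by positivity)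
      refine h1.trans ?_
      rw [← Finset.mul_sum, kc_tel hQ0 (by omega)]
      have h2 : 0 ≤ 1 / Q ^ (2 * n) := by positivity
      linarith
    have hgL2 : 15 / (4 * n) * ((Q - 1) / Q ^ (L + 1)) ≤ 15 / (4 * n) / Q ^ L := by
      rw [div_eq_mul_inv (15 / (4 * (n : ℝ))) (Q ^ L)]
      refine mul_le_mul_of_nonneg_left ?_ (by positivity)
      rw [pow_succ, div_le_iff₀ (by positivity)]
      have : (Q ^ L)⁻¹ * (Q ^ L * Q) = Q := by
        have := (pow_pos hQ0 L).ne'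
        field_simp
      rw [this]
      linarith
    have hw : wid n / 16 ≤ 1 / Q ^ (L + 1) := by
      have h1 : wid n = 1 / Q ^ (2 * n) := rfl
      rw [h1]
      have h2 : 1 / Q ^ (2 * n) ≤ 1 / Q ^ (L + 1) :=
        one_div_le_one_div_of_le (by positivity) (pow_le_pow_right₀ hQ1.le (by omega))
      have h3 : 0 ≤ 1 / Q ^ (2 * n) := by positivity
      linarith
    have hmain : |(g L + ∑ l ∈ Finset.Ico (L + 1) (2 * n), g l)| + wid n / 16 ≤ ρ := by
      have h1 := abs_add_le (g L) (∑ l ∈ Finset.Ico (L + 1) (2 * n), g l)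
      have h2 : ρ = 15 / (4 * n) / Q ^ L + (8 * (1 / Q ^ (L + 1)) + 1 / Q ^ (L + 1)) := by
        rw [hρ]; ring
      rw [h2]
      linarith
    have hb := abs_le.1 (le_refl |(g L + ∑ l ∈ Finset.Ico (L + 1) (2 * n), g l)|)
    rw [e2]
    rw [e1, e3] at hd
    constructor
    · linarith [hd.1, hb.1]
    · linarith [hd.2, hb.2]
  refine (measure_mono hsub).trans ((measure_iUnion_fintype_le _ _).trans ?_)
  simp only [Real.volume_Icc]
  have e4 : ∀ p : Fin L → Fin (1000 * n), P p + ρ - (P p - ρ) = 2 * ρ := fun p => by ring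
  simp only [e4, Finset.sum_const, Finset.card_univ, Fintype.card_fun, Fintype.card_fin, nsmul_eq_mul]
  rw [← ENNReal.ofReal_natCast, ← ENNReal.ofReal_mul (by positivity)]
  apply ENNReal.ofReal_le_ofReal
  have e5 : (((1000 * n) ^ L : ℕ) : ℝ) = Q ^ L := by push_cast; rw [hQ]
  rw [e5, hρ]
  have hQL : Q ^ L ≠ 0 := (pow_pos hQ0 L).ne'
  have e6 : Q ^ L * (2 * (15 / (4 * n) / Q ^ L + 9 / Q ^ (L + 1))) = 15 / (2 * n) + 18 / Q := by
    rw [pow_succ]
    field_simp
    ring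
  rw [e6, hQ]
  have hn0 : (0 : ℝ) < n := by linarith
  have e7 : 15 / (2 * (n : ℝ)) + 18 / (1000 * n) = 7.518 / n := by
    field_simp
    norm_num
  rw [e7]
  exact div_le_div_of_nonneg_right (by norm_num) hn0.le

/-- Choice of a net point. -/
lemma kc_net (n : ℕ) (hn : 4 ≤ n) (y : ℝ) (h1 : 1 / 4 ≤ y) (h2 : y ≤ 4) :
    ∃ i : ℕ, i < n ∧ |y - (4 - 15 / 4 * ((i : ℝ) + 1) / n)| ≤ 15 / (4 * n) := by
  have hn' : (0 : ℝ) < n := by exact_mod_cast (by omega : 0 < n)
  set t : ℝ := (4 - y) * (4 * n) / 15 with ht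
  have ht0 : 0 ≤ t := by
    have : 0 ≤ 4 - y := by linarith
    positivity
  have htn : t ≤ n := by
    rw [ht, div_le_iff₀ (by norm_num)]
    nlinarith
  obtain ⟨i, hi, hi1, hi2⟩ : ∃ i : ℕ, i < n ∧ (i : ℝ) ≤ t ∧ t ≤ i + 1 := by
    rcases htn.lt_or_eq with h | h
    · refine ⟨⌊t⌋₊, ?_, Nat.floor_le ht0, (Nat.lt_floor_add_one t).le⟩
      exact (Nat.floor_lt ht0).2 h
    · refine ⟨n - 1, by omega, ?_, ?_⟩
      · rw [Nat.cast_sub (by omega), h]; push_cast; linarith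
      · rw [Nat.cast_sub (by omega), h]; push_cast; linarith
  refine ⟨i, hi, ?_⟩
  have e : y - (4 - 15 / 4 * ((i : ℝ) + 1) / n) = 15 / (4 * n) * ((i : ℝ) + 1 - t) := by
    rw [ht]
    field_simp
    ring
  rw [e, abs_mul, abs_of_nonneg (by positivity : (0 : ℝ) ≤ 15 / (4 * n))]
  have h3 : |(i : ℝ) + 1 - t| ≤ 1 := by
    rw [abs_le]
    constructor <;> linarith
  exact mul_le_of_le_one_right (by positivity) h3

theorem compress (n : ℕ) (hn : 4 ≤ n) (x : ℝ) (h1 : 1 / 4 ≤ |x|) (h2 : |x| ≤ 4) :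
    volume (⋃ d : Dig n, Icc (slope n d * x + icpt n d - wid n / 16)
      (slope n d * x + icpt n d + wid n / 16)) ≤ ENNReal.ofReal (8 / n) := by
  rcases le_total 0 x with h0 | h0
  · rw [abs_of_nonneg h0] at h1
    have h2' := h2
    rw [abs_of_nonneg h0] at h2'
    obtain ⟨i, hi, hi2⟩ := kc_net n hn x h1 h2'
    refine compress_level n hn x h2 (n + i) (by omega) ?_
    have e : cc n (n + i) = 4 - 15 / 4 * ((i : ℝ) + 1) / n := by
      unfold cc
      rw [if_neg (by omega)]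
      push_cast
      ring
    rw [e]
    exact hi2
  · rw [abs_of_nonpos h0] at h1
    have h2' := h2
    rw [abs_of_nonpos h0] at h2'
    obtain ⟨i, hi, hi2⟩ := kc_net n hn (-x) h1 h2'
    refine compress_level n hn x h2 i (by omega) ?_
    have e : cc n i = -(4 - 15 / 4 * ((i : ℝ) + 1) / n) := by
      unfold cc
      rw [if_pos hi]
    rw [e]
    have e2 : x - -(4 - 15 / 4 * ((i : ℝ) + 1) / n) = -(-x - (4 - 15 / 4 * ((i : ℝ) + 1) / n)) := by
      ring
    rw [e2, abs_neg]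
    exact hi2

end Pool.Agent.P9749df
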