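import Mathlib

/-!
# The Kakeya family: definitions

`2 n` levels `l = 0, ..., 2n-1`, base `Q = 1000 n`, digits `d_l < dd n l`.
The line of a digit string has slope `a = ∑ d_l / Q^(l+1)` and intercept
`b = - ∑ c_l d_l / Q^(l+1)`, so its position at `x` is `∑ (x - c_l) d_l / Q^(l+1)`.
-/

noncomputable section

namespace Pool.Agent.P9749df

/-- The crossing abscissa of level `l`: for `l < n` in `[-4, -1/4]`, for `l ≥ n` in `[1/4, 4]`. -/
def cc (n l : ℕ) : ℝ :=
  if l < n then -(4 - 15 / 4 * ((l : ℝ) + 1) / n) else 4 - 15 / 4 * ((l : ℝ) - n + 1) / n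

/-- Number of digits at level `l`. -/
def dd (n l : ℕ) : ℕ := if l = n then 10 * n else 1000 * (n - 2)

/-- Digit strings. -/
abbrev Dig (n : ℕ) : Type := (l : Fin (2 * n)) → Fin (dd n l)

/-- Slope of the line of a digit string. -/
def slope (n : ℕ) (d : Dig n) : ℝ := ∑ l, ((d l : ℕ) : ℝ) / (1000 * n : ℝ) ^ ((l : ℕ) + 1)

/-- Intercept of the line of a digit string. -/
def icpt (n : ℕ) (d : Dig n) : ℝ :=
  -∑ l : Fin (2 * n), cc n l * ((d l : ℕ) : ℝ) / (1000 * n : ℝ) ^ ((l : ℕ) + 1)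

/-- Width of the tubes. -/
def wid (n : ℕ) : ℝ := 1 / (1000 * n : ℝ) ^ (2 * n)

end Pool.Agent.P9749df
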