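import Pool.Agent.Lib.P9749df.KakDefs

/-!
# The Kakeya family: separation
-/

namespace Pool.Agent.P9749df

/-- the sum over the levels of a function on the naturals -/
theorem ks_sum_fin (n : ℕ) (F : ℕ → ℝ) :
    ∑ l : Fin (2 * n), F l = ∑ l ∈ Finset.range (2 * n), F l :=
  Fin.sum_univ_eq_sum_range F (2 * n)

theorem ks_geom {Q : ℝ} (hQ : 1 < Q) {j m : ℕ} (hjm : j ≤ m) :
    ∑ l ∈ Finset.Ico j m, (Q - 1) / Q ^ (l + 1) = 1 / Q ^ j - 1 / Q ^ m := by
  induction m, hjm using Nat.le_induction with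
  | base => simp
  | succ m hm ih =>
    rw [Finset.sum_Ico_succ_top hm, ih]
    have : Q ≠ 0 := by positivity
    field_simp
    ring

theorem ks_dd_le (n l : ℕ) : dd n l ≤ 1000 * n := by
  unfold dd
  split_ifs <;> omega

theorem ks_digit_le {n : ℕ} (d : Dig n) (l : Fin (2 * n)) : ((d l : ℕ) : ℝ) ≤ 1000 * n - 1 := by
  have h1 := (d l).2
  have h2 := ks_dd_le n l
  have h3 : (d l : ℕ) + 1 ≤ 1000 * n := by omega
  have h4 : (((d l : ℕ) + 1 : ℕ) : ℝ) ≤ ((1000 * n : ℕ) : ℝ) := by exact_mod_cast h3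
  push_cast at h4
  linarith

/-- the difference of two digit strings, extended by zero -/
def ks_e {n : ℕ} (d d' : Dig n) (l : ℕ) : ℤ :=
  if h : l < 2 * n then ((d ⟨l, h⟩ : ℕ) : ℤ) - ((d' ⟨l, h⟩ : ℕ) : ℤ) else 0

theorem ks_e_abs_le {n : ℕ} (d d' : Dig n) (l : ℕ) (hl : l < 2 * n) :
    |(ks_e d d' l : ℝ)| ≤ (dd n l : ℝ) ∧ |(ks_e d d' l : ℝ)| ≤ 1000 * n - 1 := by
  have h1 := (d ⟨l, hl⟩).2
  have h2 := (d' ⟨l, hl⟩).2
  have h3 := ks_dd_le n l
  have e : |ks_e d d' l| + 1 ≤ (dd n l : ℤ) := by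
    unfold ks_e
    rw [dif_pos hl]
    simp only at h1 h2
    have : |((d ⟨l, hl⟩ : ℕ) : ℤ) - ((d' ⟨l, hl⟩ : ℕ) : ℤ)| ≤ (dd n l : ℤ) - 1 := by
      rw [abs_le]
      constructor <;> omega
    omega
  have e2 : |(ks_e d d' l : ℝ)| + 1 ≤ (dd n l : ℝ) := by exact_mod_cast e
  have e3 : (dd n l : ℝ) ≤ 1000 * n := by exact_mod_cast h3
  constructor <;> linarith

theorem ks_diff {n : ℕ} (X : ℕ → ℝ) (d d' : Dig n) :
    ∑ l : Fin (2 * n), X l * ((d l : ℕ) : ℝ) / (1000 * n : ℝ) ^ ((l : ℕ) + 1) -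
        ∑ l : Fin (2 * n), X l * ((d' l : ℕ) : ℝ) / (1000 * n : ℝ) ^ ((l : ℕ) + 1) =
      ∑ l ∈ Finset.range (2 * n), X l * (ks_e d d' l : ℝ) / (1000 * n : ℝ) ^ (l + 1) := by
  rw [← Finset.sum_sub_distrib, ← ks_sum_fin n (fun l => X l * (ks_e d d' l : ℝ) /
    (1000 * n : ℝ) ^ (l + 1))]
  refine Finset.sum_congr rfl fun l _ => ?_
  have : (ks_e d d' l : ℝ) = ((d l : ℕ) : ℝ) - ((d' l : ℕ) : ℝ) := by
    unfold ks_e
    rw [dif_pos l.2]
    push_cast
    rfl
  rw [this]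
  ring

theorem ks_first {n : ℕ} (d d' : Dig n) (hd : d ≠ d') :
    ∃ i, i < 2 * n ∧ 1 ≤ |(ks_e d d' i : ℝ)| ∧ ∀ l, l < i → ks_e d d' l = 0 := by
  have hex : ∃ i, ks_e d d' i ≠ 0 := by
    by_contra hcon
    push Not at hcon
    apply hd
    funext l
    have := hcon l
    unfold ks_e at this
    rw [dif_pos l.2] at this
    apply Fin.ext
    have h2 : ((d ⟨l, l.2⟩ : ℕ) : ℤ) = ((d' ⟨l, l.2⟩ : ℕ) : ℤ) := by linarith
    exact_mod_cast h2
  classical
  refine ⟨Nat.find hex, ?_, ?_, ?_⟩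
  · by_contra hcon
    apply Nat.find_spec hex
    exact dif_neg hcon
  · have h := Nat.find_spec hex
    have h2 : 1 ≤ |ks_e d d' (Nat.find hex)| := Int.one_le_abs h
    exact_mod_cast h2
  · intro l hl
    have := Nat.find_min hex hl
    push Not at this
    exact this

theorem ks_split {n : ℕ} (F : ℕ → ℝ) {i : ℕ} (hi : i < 2 * n) (h : ∀ l, l < i → F l = 0) :
    ∑ l ∈ Finset.range (2 * n), F l = F i + ∑ l ∈ Finset.Ico (i + 1) (2 * n), F l := by
  rw [Finset.range_eq_Ico, ← Finset.sum_Ico_consecutive F (Nat.zero_le i) hi.le,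
    Finset.sum_eq_sum_Ico_succ_bot hi]
  have : ∑ l ∈ Finset.Ico 0 i, F l = 0 := by
    apply Finset.sum_eq_zero
    intro l hl
    exact h l (Finset.mem_Ico.1 hl).2
  rw [this, zero_add]

theorem ks_tail {n : ℕ} (hn : 4 ≤ n) (X : ℕ → ℝ) {K : ℝ} (hK : 0 ≤ K)
    (hX : ∀ l, l < 2 * n → |X l| ≤ K) (d d' : Dig n) {j : ℕ} (hj : j ≤ 2 * n) :
    |∑ l ∈ Finset.Ico j (2 * n), X l * (ks_e d d' l : ℝ) / (1000 * n : ℝ) ^ (l + 1)| ≤
      K * (1 / (1000 * n : ℝ) ^ j - 1 / (1000 * n : ℝ) ^ (2 * n)) := by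
  have hn' : (4:ℝ) ≤ n := by exact_mod_cast hn
  have hQ : (1:ℝ) < 1000 * n := by linarith
  rw [← ks_geom hQ hj, Finset.mul_sum]
  refine (Finset.abs_sum_le_sum_abs _ _).trans (Finset.sum_le_sum fun l hl => ?_)
  have hl2 := (Finset.mem_Ico.1 hl).2
  have hp : (0:ℝ) < (1000 * n : ℝ) ^ (l + 1) := by positivity
  rw [abs_div, abs_mul, abs_of_pos hp, ← mul_div_assoc]
  apply div_le_div_of_nonneg_right _ hp.le
  exact mul_le_mul (hX l hl2) (ks_e_abs_le d d' l hl2).2 (abs_nonneg _) hK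

/-- bounds for the crossing abscissae -/
theorem ks_cc_lt {n l : ℕ} (hl : l < n) : -4 ≤ cc n l ∧ cc n l ≤ -(1 / 4) := by
  have hn : (0:ℝ) < n := by
    have : 0 < n := by omega
    exact_mod_cast this
  unfold cc
  rw [if_pos hl]
  have h1 : (0:ℝ) ≤ ((l : ℝ) + 1) / n := by positivity
  have h2 : ((l : ℝ) + 1) / n ≤ 1 := by
    rw [div_le_one hn]
    exact_mod_cast hl
  have e : 15 / 4 * ((l : ℝ) + 1) / n = 15 / 4 * (((l : ℝ) + 1) / n) := by ring
  rw [e]
  constructor <;> linarith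

theorem ks_cc_ge {n l : ℕ} (hl : n ≤ l) (hl2 : l < 2 * n) : 1 / 4 ≤ cc n l ∧ cc n l ≤ 4 := by
  have hn : (0:ℝ) < n := by
    have : 0 < n := by omega
    exact_mod_cast this
  unfold cc
  rw [if_neg (not_lt.2 hl)]
  have h0 : (n:ℝ) ≤ l := by exact_mod_cast hl
  have h1 : (0:ℝ) ≤ ((l : ℝ) - n + 1) / n := div_nonneg (by linarith) hn.le
  have h2 : ((l : ℝ) - n + 1) / n ≤ 1 := by
    rw [div_le_one hn]
    have : (l:ℝ) + 1 ≤ 2 * n := by exact_mod_cast hl2
    linarith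
  have e : 15 / 4 * ((l : ℝ) - n + 1) / n = 15 / 4 * (((l : ℝ) - n + 1) / n) := by ring
  rw [e]
  constructor <;> linarith

theorem ks_cc_abs {n l : ℕ} (hl2 : l < 2 * n) : |cc n l| ≤ 4 := by
  rw [abs_le]
  rcases lt_or_ge l n with h | h
  · obtain ⟨h1, h2⟩ := ks_cc_lt h
    constructor <;> linarith
  · obtain ⟨h1, h2⟩ := ks_cc_ge h hl2
    constructor <;> linarith

/-- Slopes are in `[0, 1]`, intercepts are bounded by 4.

PROOF. `0 ≤ slope ≤ ∑ (Q - 1) / Q^(l+1) ≤ 1` since every digit is `≤ Q - 1`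
(`dd n l ≤ 1000 n`), and `|icpt| ≤ 4 * slope` since `|cc n l| ≤ 4` for `l < 2 n`. -/
theorem slope_icpt_bounds (n : ℕ) (hn : 4 ≤ n) (d : Dig n) :
    (0 ≤ slope n d ∧ slope n d ≤ 1) ∧ |icpt n d| ≤ 4 := by
  have hn' : (4:ℝ) ≤ n := by exact_mod_cast hn
  have hQ : (1:ℝ) < 1000 * n := by linarith
  have hQ0 : (0:ℝ) < 1000 * n := by linarith
  have h0 : 0 ≤ slope n d := by
    unfold slope
    apply Finset.sum_nonneg
    intro l _
    positivity
  have h1 : slope n d ≤ 1 := by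
    unfold slope
    calc ∑ l, ((d l : ℕ) : ℝ) / (1000 * n : ℝ) ^ ((l : ℕ) + 1)
        ≤ ∑ l : Fin (2 * n), ((1000 * n : ℝ) - 1) / (1000 * n : ℝ) ^ ((l : ℕ) + 1) := by
          apply Finset.sum_le_sum
          intro l _
          exact div_le_div_of_nonneg_right (ks_digit_le d l) (by positivity)
      _ = ∑ l ∈ Finset.range (2 * n), ((1000 * n : ℝ) - 1) / (1000 * n : ℝ) ^ (l + 1) :=
          ks_sum_fin n (fun l => ((1000 * n : ℝ) - 1) / (1000 * n : ℝ) ^ (l + 1))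
      _ = 1 / (1000 * n : ℝ) ^ 0 - 1 / (1000 * n : ℝ) ^ (2 * n) := by
          rw [Finset.range_eq_Ico]
          exact ks_geom hQ (Nat.zero_le _)
      _ ≤ 1 := by
          have : 0 < 1 / (1000 * n : ℝ) ^ (2 * n) := by positivity
          rw [pow_zero]
          linarith
  refine ⟨⟨h0, h1⟩, ?_⟩
  unfold icpt
  rw [abs_neg]
  calc |∑ l : Fin (2 * n), cc n l * ((d l : ℕ) : ℝ) / (1000 * n : ℝ) ^ ((l : ℕ) + 1)|
      ≤ ∑ l : Fin (2 * n), |cc n l * ((d l : ℕ) : ℝ) / (1000 * n : ℝ) ^ ((l : ℕ) + 1)| :=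
        Finset.abs_sum_le_sum_abs _ _
    _ ≤ ∑ l : Fin (2 * n), 4 * (((d l : ℕ) : ℝ) / (1000 * n : ℝ) ^ ((l : ℕ) + 1)) := by
        apply Finset.sum_le_sum
        intro l _
        have hp : (0:ℝ) ≤ ((d l : ℕ) : ℝ) / (1000 * n : ℝ) ^ ((l : ℕ) + 1) := by positivity
        rw [mul_div_assoc, abs_mul, abs_of_nonneg hp]
        exact mul_le_mul_of_nonneg_right (ks_cc_abs l.2) hp
    _ = 4 * slope n d := by rw [slope, Finset.mul_sum]
    _ ≤ 4 := by linarith

/-- General separation lemma. Let `X : ℕ → ℝ` (factors, `0 ≤ |X l| ≤ 20`), all of the form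
`X l = x - c_l` (signs may differ). If for the first level `i` where two digit strings differ
the quantity `|X i| - (dd (i+1) / Q) |X (i+1)| ≥ 21 / Q` (when `i + 1 < 2n`), and
`|X (2n-1)| ≥ 1/8`, then the two positions differ by at least `wid n / 8`.

PROOF. Let `i` be the least level with `d i ≠ d' i`. The difference is
`∑_{l ≥ i} X l (d l - d' l) / Q^(l+1)`; the term `l = i` has absolute value `≥ |X i| / Q^(i+1)`,
the term `l = i+1` at most `|X (i+1)| (dd (i+1) / Q) / Q^(i+1)`, the terms `l ≥ i+2` at most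
`20 ∑_{l ≥ i+2} (Q-1) / Q^(l+1) ≤ 20 / Q^(i+2)`. So the difference is at least
`(21/Q - 20/Q) / Q^(i+1) = 1 / Q^(i+2) ≥ wid n` if `i + 1 < 2n`, and `≥ (1/8) / Q^(2n)` if
`i = 2n - 1`. -/
theorem pos_sep (n : ℕ) (hn : 4 ≤ n) (X : ℕ → ℝ) (hX : ∀ l, l < 2 * n → |X l| ≤ 20)
    (hlast : 1 / 8 ≤ |X (2 * n - 1)|)
    (hstep : ∀ i, i + 1 < 2 * n →
      21 / (1000 * n : ℝ) ≤ |X i| - (dd n (i + 1) : ℝ) / (1000 * n) * |X (i + 1)|)
    (d d' : Dig n) (hd : d ≠ d') :
    wid n / 8 ≤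
      |∑ l : Fin (2 * n), X l * ((d l : ℕ) : ℝ) / (1000 * n : ℝ) ^ ((l : ℕ) + 1) -
        ∑ l : Fin (2 * n), X l * ((d' l : ℕ) : ℝ) / (1000 * n : ℝ) ^ ((l : ℕ) + 1)| := by
  rw [ks_diff]
  obtain ⟨i, hi, hei, hlt⟩ := ks_first d d' hd
  have hn' : (4:ℝ) ≤ n := by exact_mod_cast hn
  set Q : ℝ := 1000 * n with hQdef
  have hQ : (1:ℝ) < Q := by rw [hQdef]; linarith
  have hQ0 : (0:ℝ) < Q := by linarith
  rw [ks_split _ hi (fun l hl => by rw [hlt l hl]; simp)]
  have hwid : wid n = 1 / Q ^ (2 * n) := rfl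
  rcases Nat.lt_or_ge (i + 1) (2 * n) with hi1 | hi1
  · -- the next term
    rw [Finset.sum_eq_sum_Ico_succ_bot hi1]
    have htail := ks_tail hn X (K := 20) (by norm_num) hX d d' (j := i + 1 + 1) (by omega)
    rw [← hQdef] at htail
    set T := ∑ l ∈ Finset.Ico (i + 1 + 1) (2 * n), X l * (ks_e d d' l : ℝ) / Q ^ (l + 1)
    have hTb : |T| ≤ 20 / Q ^ (i + 2) := by
      have : 0 < 1 / Q ^ (2 * n) := by positivity
      have e : (20:ℝ) / Q ^ (i + 2) = 20 * (1 / Q ^ (i + 1 + 1)) := by ring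
      rw [e]
      linarith
    have hA : |X i| / Q ^ (i + 1) ≤ |X i * (ks_e d d' i : ℝ) / Q ^ (i + 1)| := by
      rw [abs_div, abs_mul, abs_of_pos (show (0:ℝ) < Q ^ (i + 1) by positivity)]
      apply div_le_div_of_nonneg_right _ (by positivity)
      calc |X i| = |X i| * 1 := by ring
        _ ≤ |X i| * |(ks_e d d' i : ℝ)| := mul_le_mul_of_nonneg_left hei (abs_nonneg _)
    have hB : |X (i + 1) * (ks_e d d' (i + 1) : ℝ) / Q ^ (i + 1 + 1)| ≤
        ((dd n (i + 1) : ℝ) / Q * |X (i + 1)|) / Q ^ (i + 1) := by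
      rw [abs_div, abs_mul, abs_of_pos (show (0:ℝ) < Q ^ (i + 1 + 1) by positivity)]
      have e : ((dd n (i + 1) : ℝ) / Q * |X (i + 1)|) / Q ^ (i + 1) =
          |X (i + 1)| * (dd n (i + 1) : ℝ) / Q ^ (i + 1 + 1) := by
        rw [pow_succ Q (i + 1)]
        field_simp
      rw [e]
      apply div_le_div_of_nonneg_right _ (by positivity)
      exact mul_le_mul_of_nonneg_left (ks_e_abs_le d d' (i + 1) hi1).1 (abs_nonneg _)
    have hs := hstep i hi1
    have hs' : 21 / Q / Q ^ (i + 1) ≤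
        |X i| / Q ^ (i + 1) - ((dd n (i + 1) : ℝ) / Q * |X (i + 1)|) / Q ^ (i + 1) := by
      rw [← sub_div]
      exact div_le_div_of_nonneg_right hs (by positivity)
    have e21 : 21 / Q / Q ^ (i + 1) = 21 / Q ^ (i + 2) := by
      rw [div_div, ← pow_succ']
    rw [e21] at hs'
    set a := X i * (ks_e d d' i : ℝ) / Q ^ (i + 1)
    set b := X (i + 1) * (ks_e d d' (i + 1) : ℝ) / Q ^ (i + 1 + 1)
    have h1 : |a| ≤ |a + (b + T)| + |b| + |T| := by
      have : a = (a + (b + T)) + (-b) + (-T) := by ring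
      calc |a| = |(a + (b + T)) + (-b) + (-T)| := by rw [← this]
        _ ≤ |(a + (b + T)) + (-b)| + |(-T)| := abs_add_le _ _
        _ ≤ |a + (b + T)| + |(-b)| + |(-T)| := by linarith [abs_add_le (a + (b + T)) (-b)]
        _ = _ := by rw [abs_neg, abs_neg]
    have h2 : 1 / Q ^ (i + 2) ≤ |a + (b + T)| := by
      have e3 : 21 / Q ^ (i + 2) - 20 / Q ^ (i + 2) = 1 / Q ^ (i + 2) := by ring
      linarith
    have h3 : 1 / Q ^ (2 * n) ≤ 1 / Q ^ (i + 2) :=
      one_div_le_one_div_of_le (by positivity) (pow_le_pow_right₀ hQ.le (by omega))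
    have h4 : 0 < 1 / Q ^ (2 * n) := by positivity
    rw [hwid]
    linarith
  · have hi2 : i + 1 = 2 * n := by omega
    rw [hi2, Finset.Ico_self, Finset.sum_empty, add_zero, abs_div, abs_mul,
      abs_of_pos (show (0:ℝ) < Q ^ (2 * n) by positivity), hwid]
    have hi3 : i = 2 * n - 1 := by omega
    rw [← hi3] at hlast
    rw [div_div, mul_comm (Q ^ (2 * n)) 8, ← div_div]
    apply div_le_div_of_nonneg_right _ (by positivity)
    calc (1:ℝ) / 8 ≤ |X i| * 1 := by linarith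
      _ ≤ _ := mul_le_mul_of_nonneg_left hei (abs_nonneg _)

/-- Slopes are `wid n`-separated.

PROOF. `slope n d * Q^(2n)` is a natural number (base-`Q` expansion with digits `< Q`) and the
expansion is injective; or: same argument as `pos_sep` with `X = 1`: at the first differing level
`i` the difference is at least `1/Q^(i+1) - ∑_{l > i} (Q-1)/Q^(l+1) = 1/Q^(2n)`. -/
theorem slope_sep (n : ℕ) (hn : 4 ≤ n) (d d' : Dig n) (hd : d ≠ d') :
    wid n ≤ |slope n d - slope n d'| := by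
  have hdiff := ks_diff (fun _ => (1:ℝ)) d d'
  simp only [one_mul] at hdiff
  unfold slope
  rw [hdiff]
  obtain ⟨i, hi, hei, hlt⟩ := ks_first d d' hd
  have hn' : (4:ℝ) ≤ n := by exact_mod_cast hn
  have htail := ks_tail hn (fun _ => (1:ℝ)) (K := 1) (by norm_num) (fun _ _ => by simp) d d'
    (j := i + 1) (by omega)
  simp only [one_mul] at htail
  set Q : ℝ := 1000 * n with hQdef
  have hQ : (1:ℝ) < Q := by rw [hQdef]; linarith
  have hQ0 : (0:ℝ) < Q := by linarith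
  rw [ks_split _ hi (fun l hl => by rw [hlt l hl]; simp)]
  have hwid : wid n = 1 / Q ^ (2 * n) := rfl
  set T := ∑ l ∈ Finset.Ico (i + 1) (2 * n), (ks_e d d' l : ℝ) / Q ^ (l + 1)
  have hA : 1 / Q ^ (i + 1) ≤ |(ks_e d d' i : ℝ) / Q ^ (i + 1)| := by
    rw [abs_div, abs_of_pos (show (0:ℝ) < Q ^ (i + 1) by positivity)]
    exact div_le_div_of_nonneg_right hei (by positivity)
  set a := (ks_e d d' i : ℝ) / Q ^ (i + 1)
  have h1 : |a| ≤ |a + T| + |T| := by
    have : a = (a + T) + (-T) := by ring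
    calc |a| = |(a + T) + (-T)| := by rw [← this]
      _ ≤ |a + T| + |(-T)| := abs_add_le _ _
      _ = _ := by rw [abs_neg]
  rw [hwid]
  linarith

/-- Positions are `wid n / 8`-separated in the zones `|x| ≤ 1/8` and `-16 ≤ x ≤ -8`.

PROOF. `slope * x + icpt = ∑ (x - cc n l) d_l / Q^(l+1)`; apply `pos_sep` with
`X l = x - cc n l`. Write `g = 15/(4n)`, so that `cc n (l+1) - cc n l = g` for `l + 1 < n`
and `= -g` for `n ≤ l`, `l + 1 < 2n`; `cc n (n-1) = -1/4`, `cc n (2n-1) = 1/4`.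
Last level: `|x - 1/4| ≥ 1/8`. Step `i`, `i + 1 ≠ n`: `dd/Q = 1 - 2/n`, so we need
`(|X i| - |X (i+1)|) + (2/n) |X (i+1)| ≥ 21/(1000 n)`.
 * `|x| ≤ 1/8`: `|X|` decreases by exactly `g` in both groups: `≥ g`.
 * `-16 ≤ x ≤ -8`: in the left group (`i + 1 < n`) `|X|` increases by `g`, and `|X| ≥ 4`:
   `≥ -g + 8/n = 4.25/n`; in the right group it decreases by `g`.
Step `i + 1 = n`: `dd/Q = 1/100`: `|X (n-1)| - |X n|/100`; for `|x| ≤ 1/8` it is at least
`1/8 - 4.125/100`, for `-16 ≤ x ≤ -8` at least `7.75 - 20/100`. -/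
theorem line_sep (n : ℕ) (hn : 4 ≤ n) (x : ℝ) (hx : |x| ≤ 1 / 8 ∨ (-16 ≤ x ∧ x ≤ -8))
    (d d' : Dig n) (hd : d ≠ d') :
    wid n / 8 ≤ |(slope n d * x + icpt n d) - (slope n d' * x + icpt n d')| := by
  have hn' : (4:ℝ) ≤ n := by exact_mod_cast hn
  have hn0 : (0:ℝ) < n := by linarith
  have hline : ∀ d : Dig n, slope n d * x + icpt n d =
      ∑ l : Fin (2 * n), (x - cc n l) * ((d l : ℕ) : ℝ) / (1000 * n : ℝ) ^ ((l : ℕ) + 1) := by
    intro d
    unfold slope icpt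
    rw [Finset.sum_mul, ← sub_eq_add_neg, ← Finset.sum_sub_distrib]
    refine Finset.sum_congr rfl fun l _ => ?_
    ring
  have hx1 : x ≤ 1 / 8 := by
    rcases hx with h | h
    · exact (abs_le.1 h).2
    · linarith [h.2]
  have hx2 : -16 ≤ x := by
    rcases hx with h | h
    · linarith [(abs_le.1 h).1]
    · exact h.1
  rw [hline, hline]
  refine pos_sep n hn (fun l => x - cc n l) ?_ ?_ ?_ d d' hd
  · intro l hl
    have h := abs_le.1 (ks_cc_abs hl)
    rw [abs_le]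
    constructor <;> linarith [h.1, h.2]
  · have h := (ks_cc_ge (n := n) (l := 2 * n - 1) (by omega) (by omega)).1
    show 1 / 8 ≤ |x - cc n (2 * n - 1)|
    rw [abs_of_nonpos (by linarith)]
    linarith
  · intro i hi
    show 21 / (1000 * n : ℝ) ≤ |x - cc n i| - (dd n (i + 1) : ℝ) / (1000 * n) * |x - cc n (i + 1)|
    -- the ratio dd/Q away from level n
    have hratio : i + 1 ≠ n → (dd n (i + 1) : ℝ) / (1000 * n) = 1 - 2 / n := by
      intro h
      unfold dd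
      rw [if_neg h]
      have : ((n - 2 : ℕ) : ℝ) = (n:ℝ) - 2 := by
        rw [Nat.cast_sub (by omega)]; norm_num
      push_cast [this]
      field_simp
    have h21 : (21:ℝ) / (1000 * n) = (21 / 1000) * (1 / n) := by field_simp
    have hin : (0:ℝ) < 1 / n := by positivity
    have h2n : (2:ℝ) / n = 2 * (1 / n) := by ring
    have h1n : (1:ℝ) / n ≤ 1 / 4 := one_div_le_one_div_of_le (by norm_num) hn'
    rcases Nat.lt_trichotomy (i + 1) n with h | h | h
    · -- left group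
      have hc : cc n (i + 1) = cc n i + 15 / 4 * (1 / n) := by
        unfold cc
        rw [if_pos h, if_pos (show i < n by omega)]
        push_cast
        ring
      have hci := ks_cc_lt (n := n) (l := i) (by omega)
      have hci1 := ks_cc_lt h
      rw [hratio (by omega), h21, h2n, hc]
      rw [hc] at hci1
      rcases hx with hx' | hx'
      · have := abs_le.1 hx'
        rw [abs_of_nonneg (show 0 ≤ x - cc n i by linarith [hci.2]),
          abs_of_nonneg (show 0 ≤ x - (cc n i + 15 / 4 * (1 / n)) by linarith [hci1.2])]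
        nlinarith [hci1.2, this.1]
      · rw [abs_of_nonpos (show x - cc n i ≤ 0 by linarith [hci.1, hx'.2]),
          abs_of_nonpos (show x - (cc n i + 15 / 4 * (1 / n)) ≤ 0 by linarith [hci1.1, hx'.2])]
        nlinarith [hci1.1, hx'.2]
    · -- the middle
      have hdd : (dd n (i + 1) : ℝ) / (1000 * n) = 1 / 100 := by
        unfold dd
        rw [if_pos h]
        push_cast
        field_simp
        norm_num
      have hc1 : cc n i = -(1 / 4) := by
        unfold cc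
        rw [if_pos (show i < n by omega)]
        have : (i:ℝ) + 1 = n := by exact_mod_cast h
        rw [this]
        field_simp
        norm_num
      have hc2 := ks_cc_ge (n := n) (l := i + 1) (by omega) (by omega)
      rw [hdd, hc1, h21]
      have hneg : x - cc n (i + 1) ≤ 0 := by linarith [hc2.1]
      rw [abs_of_nonpos hneg]
      rcases hx with hx' | hx'
      · have := abs_le.1 hx'
        rw [abs_of_nonneg (show 0 ≤ x - -(1 / 4) by linarith)]
        linarith [hc2.2]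
      · rw [abs_of_nonpos (show x - -(1 / 4) ≤ 0 by linarith [hx'.2])]
        linarith [hc2.2, hx'.1, hx'.2]
    · -- right group
      have hc : cc n (i + 1) = cc n i - 15 / 4 * (1 / n) := by
        unfold cc
        rw [if_neg (show ¬ i + 1 < n by omega), if_neg (show ¬ i < n by omega)]
        push_cast
        ring
      have hci := ks_cc_ge (n := n) (l := i) (by omega) (by omega)
      have hci1 := ks_cc_ge (n := n) (l := i + 1) (by omega) (by omega)
      rw [hratio (by omega), h21, h2n, hc]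
      rw [hc] at hci1
      rw [abs_of_nonpos (show x - cc n i ≤ 0 by linarith [hci.1]),
        abs_of_nonpos (show x - (cc n i - 15 / 4 * (1 / n)) ≤ 0 by linarith [hci1.1])]
      nlinarith [hci1.1]

end Pool.Agent.P9749df
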