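import Pool.Agent.Lib.P9749df.KakSep
import Pool.Agent.Lib.P9749df.KakComp

/-!
# The Kakeya family
-/

open MeasureTheory Set

namespace Pool.Agent.P9749df

lemma kakeya_wid_pos (n : ℕ) (hn : 4 ≤ n) : 0 < wid n := by
  unfold wid
  have : (0 : ℝ) < n := by exact_mod_cast (by omega : 0 < n)
  positivity

lemma kakeya_wid_le (n : ℕ) (hn : 4 ≤ n) : wid n ≤ 1 := by
  unfold wid
  have : (4 : ℝ) ≤ n := by exact_mod_cast hn
  rw [div_le_one (by positivity)]
  exact one_le_pow₀ (by linarith)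

lemma kakeya_count (n : ℕ) (hn : 4 ≤ n) :
    Real.exp (-8) / 100 ≤ (Fintype.card (Dig n) : ℝ) * wid n := by
  have hn4 : (4 : ℝ) ≤ n := by exact_mod_cast hn
  have hn0 : (0 : ℝ) < n := by linarith
  have h1 : (Fintype.card (Dig n) : ℝ) * wid n =
      ∏ l : Fin (2 * n), ((dd n l : ℕ) : ℝ) / (1000 * n : ℝ) := by
    rw [Finset.prod_div_distrib, Finset.prod_const, Finset.card_univ, Fintype.card_fin]
    unfold wid
    rw [mul_one_div]
    congr 1
    rw [Fintype.card_pi]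
    push_cast
    simp only [Fintype.card_fin]
  have h2 : ∀ l : Fin (2 * n), (if l = ⟨n, by omega⟩ then (1 / 100 : ℝ) else 1) *
      (1 - 2 / (n : ℝ)) ≤ ((dd n l : ℕ) : ℝ) / (1000 * n : ℝ) := by
    intro l
    have h3 : 2 / (n : ℝ) ≤ 1 := by
      rw [div_le_one hn0]
      linarith
    by_cases hl : (l : ℕ) = n
    · have hl' : l = ⟨n, by omega⟩ := Fin.ext hl
      rw [if_pos hl']
      unfold dd
      rw [if_pos hl]
      push_cast
      have : (10 * (n : ℝ)) / (1000 * n) = 1 / 100 := by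
        field_simp
        norm_num
      rw [this]
      have : 0 ≤ 2 / (n : ℝ) := by positivity
      linarith
    · have hl' : ¬ l = ⟨n, by omega⟩ := fun h => hl (by rw [h])
      rw [if_neg hl', one_mul]
      unfold dd
      rw [if_neg hl, Nat.cast_mul, Nat.cast_sub (by omega)]
      push_cast
      apply le_of_eq
      field_simp
  have h3 : 0 ≤ 1 - 2 / (n : ℝ) := by
    have : 2 / (n : ℝ) ≤ 1 := by
      rw [div_le_one hn0]
      linarith
    linarith
  have h4 : (1 / 100 : ℝ) * (1 - 2 / (n : ℝ)) ^ (2 * n) ≤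
      ∏ l : Fin (2 * n), ((dd n l : ℕ) : ℝ) / (1000 * n : ℝ) := by
    refine le_trans (le_of_eq ?_) (Finset.prod_le_prod (fun l _ => ?_) fun l _ => h2 l)
    · rw [Finset.prod_mul_distrib, Finset.prod_ite_eq', if_pos (Finset.mem_univ _),
        Finset.prod_const, Finset.card_univ, Fintype.card_fin]
    · refine mul_nonneg ?_ h3
      split_ifs <;> norm_num
  have h5 : Real.exp (-8) ≤ (1 - 2 / (n : ℝ)) ^ (2 * n) := by
    have hn2 : (0 : ℝ) < (n : ℝ) - 2 := by linarith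
    have h6 : Real.exp (-(2 / ((n : ℝ) - 2))) ≤ 1 - 2 / (n : ℝ) := by
      have h7 := Real.add_one_le_exp (2 / ((n : ℝ) - 2))
      have h8 : 1 - 2 / (n : ℝ) = (2 / ((n : ℝ) - 2) + 1)⁻¹ := by
        field_simp
        ring
      rw [h8, Real.exp_neg]
      exact inv_anti₀ (by positivity) h7
    calc Real.exp (-8) ≤ Real.exp ((2 * n : ℕ) * (-(2 / ((n : ℝ) - 2)))) := by
          apply Real.exp_le_exp.mpr
          have h9 : ((2 * n : ℕ) : ℝ) * (-(2 / ((n : ℝ) - 2))) = -(4 * n / ((n : ℝ) - 2)) := by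
            push_cast
            ring
          rw [h9, neg_le_neg_iff, div_le_iff₀ hn2]
          linarith
      _ = (Real.exp (-(2 / ((n : ℝ) - 2)))) ^ (2 * n) := by
          rw [Real.exp_nat_mul]
      _ ≤ _ := pow_le_pow_left₀ (Real.exp_pos _).le h6 _
  rw [h1]
  refine le_trans ?_ h4
  linarith

/-- A two-sided Kakeya family of lines `r = a q + b`: separated near `q = 0` and for
`-16 ≤ q ≤ -8`, but strongly compressed for all `1/4 ≤ |q| ≤ 4`.

PROOF. Take `n ≥ max 4 (8/η)`, `m = card (Dig n)`, an equivalence `Fin m ≃ Dig n`,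
`a = slope`, `b = icpt`, `w = wid n`. Use `slope_icpt_bounds`, `slope_sep`, `line_sep`,
`compress` (`8/n ≤ η`). Count: `m = ∏ dd n l`, so
`m w = ∏_{l < 2n} dd n l / Q = (1 - 2/n)^(2n-1) / 100 ≥ ((1 - 2/n)^n)^2 / 100`, and
`(1 - 2/n)^n = 1 / (1 + 2/(n-2))^n ≥ exp (-2n/(n-2)) ≥ exp (-4)` for `n ≥ 4`.
So `c0 = exp (-8) / 100` works. -/
theorem kakeya : ∃ c0 : ℝ, 0 < c0 ∧ ∀ η : ℝ, 0 < η → ∃ (m : ℕ) (a b : Fin m → ℝ) (w : ℝ),
    0 < w ∧ w ≤ 1 ∧ c0 ≤ m * w ∧ (∀ j, 0 ≤ a j ∧ a j ≤ 1) ∧ (∀ j, |b j| ≤ 4) ∧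
    (∀ j k, j ≠ k → w ≤ |a j - a k|) ∧
    (∀ x : ℝ, (|x| ≤ 1 / 8 ∨ (-16 ≤ x ∧ x ≤ -8)) → ∀ j k, j ≠ k →
      w / 8 ≤ |(a j * x + b j) - (a k * x + b k)|) ∧
    (∀ x : ℝ, 1 / 4 ≤ |x| → |x| ≤ 4 →
      volume (⋃ j, Icc (a j * x + b j - w / 16) (a j * x + b j + w / 16)) ≤
        ENNReal.ofReal η) := by
  refine ⟨Real.exp (-8) / 100, by positivity, fun η hη => ?_⟩
  obtain ⟨n₀, hn₀⟩ := exists_nat_ge (8 / η)
  set n := max 4 n₀ with hndef
  have hn : 4 ≤ n := le_max_left _ _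
  have hn4 : (4 : ℝ) ≤ n := by exact_mod_cast hn
  have hnη : (8 : ℝ) / n ≤ η := by
    have h1 : (n₀ : ℝ) ≤ n := by exact_mod_cast le_max_right _ _
    rw [div_le_iff₀ (by linarith)]
    rw [div_le_iff₀ hη] at hn₀
    nlinarith
  let e : Fin (Fintype.card (Dig n)) ≃ Dig n := (Fintype.equivFin (Dig n)).symm
  refine ⟨Fintype.card (Dig n), fun j => slope n (e j), fun j => icpt n (e j), wid n,
    kakeya_wid_pos n hn, kakeya_wid_le n hn, kakeya_count n hn,
    fun j => (slope_icpt_bounds n hn (e j)).1, fun j => (slope_icpt_bounds n hn (e j)).2,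
    fun j k hjk => slope_sep n hn _ _ (fun h => hjk (e.injective h)),
    fun x hx j k hjk => line_sep n hn x hx _ _ (fun h => hjk (e.injective h)),
    fun x h1 h2 => ?_⟩
  have h3 := compress n hn x h1 h2
  have h4 : (⋃ j, Icc (slope n (e j) * x + icpt n (e j) - wid n / 16)
      (slope n (e j) * x + icpt n (e j) + wid n / 16)) =
      ⋃ d : Dig n, Icc (slope n d * x + icpt n d - wid n / 16)
        (slope n d * x + icpt n d + wid n / 16) :=
    e.surjective.iUnion_comp (fun d => Icc (slope n d * x + icpt n d - wid n / 16)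
      (slope n d * x + icpt n d + wid n / 16))
  rw [h4]
  exact h3.trans (ENNReal.ofReal_le_ofReal hnη)

end Pool.Agent.P9749df
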